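import Mathlib

/-!
# The forcing relation, Suslin trees, two-step iterations, tree uniformizations

A sentence of the forcing language of a preordered set `P` of conditions is represented by the
set of the conditions which force it. Negation, conjunction and universal quantification are the
primitive connectives, with their usual forcing clauses; the other connectives are defined from
them classically. A name for a subset of a ground model set `X` is a map sending `x : X` to the
set of the conditions attached to `x`.
-/

namespace Pool.Agent.Helper126.Sus.Forc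

open Cardinal

universe u v w

section

variable {P : Type u} [Preorder P]

/-- `p` forces `not φ` iff no `q ≤ p` forces `φ`. -/
def fnot (φ : Set P) : Set P := {p | ∀ q ≤ p, q ∉ φ}

/-- `p` forces `φ and ψ` iff it forces both. -/
def fand (φ ψ : Set P) : Set P := {p | p ∈ φ ∧ p ∈ ψ}

/-- `p` forces `for all i, φ i` iff it forces every `φ i`. -/
def fall {ι : Sort v} (φ : ι → Set P) : Set P := {p | ∀ i, p ∈ φ i}

/-- `φ implies ψ` is `not (φ and not ψ)`. -/
def fimp (φ ψ : Set P) : Set P := fnot (fand φ (fnot ψ))

/-- `there is i with φ i` is `not for all i, not φ i`. -/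
def fex {ι : Sort v} (φ : ι → Set P) : Set P := fnot (fall fun i => fnot (φ i))

/-- An absolute statement about ground model objects. -/
def fground (h : Prop) : Set P := {_p | h}

/-- `p` forces that the generic filter meets the set `N` of conditions:
the set of `r` lying below some member of `N` is dense below `p`. -/
def meets (N : Set P) : Set P := {p | ∀ q ≤ p, ∃ r ≤ q, ∃ s ∈ N, r ≤ s}

end

/-- The set of countable ordinals (of the ground model). -/
abbrev K1 : Type := (ℵ_ 1).ord.ToType

/-! ### Trees in the extension -/

section

variable {P : Type u} [Preorder P] {N : Type}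

/-- `lt` names a tree of height `ω₁` with the set of nodes `N` and the height function `ht`: the
order is transitive and increases the height, every node of height `α` has exactly one predecessor
of each height `ξ < α`, and there are nodes of every height `α < ω₁`. -/
def IsTree (lt : N → N → Set P) (ht : N → K1) : Set P :=
  fand
    (fall fun x => fall fun y => fall fun z =>
      fimp (fand (meets (lt x y)) (meets (lt y z))) (meets (lt x z)))
    (fand
      (fand
        (fall fun x => fall fun y => fimp (meets (lt x y)) (fground (ht x < ht y)))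
        (fall fun x => fall fun y => fall fun z =>
          fimp (fand (meets (lt x z)) (meets (lt y z))) (fground (ht x = ht y → x = y))))
      (fand
        (fall fun y => fall fun ξ => fall fun _ : ξ < ht y =>
          fex fun x => fand (fground (ht x = ξ)) (meets (lt x y)))
        (fall fun ξ => fground (∃ x, ht x = ξ))))

/-- There is no uncountable chain: no chain contains nodes of every height below `ω₁`. -/
def NoBranch (lt : N → N → Set P) (ht : N → K1) : Set P :=
  fnot (fex fun B : N → Set P =>
    fand
      (fall fun x => fall fun y => fall fun _ : x ≠ y =>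
        fimp (fand (meets (B x)) (meets (B y)))
          (fnot (fand (fnot (meets (lt x y))) (fnot (meets (lt y x))))))
      (fall fun ξ => fex fun x => fand (fground (ht x = ξ)) (meets (B x))))

/-- Every antichain is countable: all its members have height below some `ξ < ω₁`. -/
def NoAntichain (lt : N → N → Set P) (ht : N → K1) : Set P :=
  fall fun A : N → Set P =>
    fimp
      (fall fun x => fall fun y =>
        fimp (fand (meets (A x)) (meets (A y))) (fnot (meets (lt x y))))
      (fex fun ξ => fall fun x => fimp (meets (A x)) (fground (ht x < ξ)))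

/-- An Aronszajn tree (the levels are the ground model sets `{x | ht x = ξ}`). -/
def IsAronszajn (lt : N → N → Set P) (ht : N → K1) : Set P :=
  fand (fground (∀ ξ, {x | ht x = ξ}.Countable)) (fand (IsTree lt ht) (NoBranch lt ht))

/-- Every node has extensions of every larger height. -/
def Pruned (lt : N → N → Set P) (ht : N → K1) : Set P :=
  fall fun x => fall fun ξ => fall fun _ : ht x < ξ =>
    fex fun y => fand (fground (ht y = ξ)) (meets (lt x y))

/-- A Suslin tree in which every node has extensions of every larger height. -/
def IsSuslin (lt : N → N → Set P) (ht : N → K1) : Set P :=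
  fand (IsAronszajn lt ht) (fand (NoAntichain lt ht) (Pruned lt ht))

end

/-- A name of a Suslin tree. -/
structure SuslinTree (P : Type) [Preorder P] where
  /-- the set of nodes -/
  node : Type
  /-- the order -/
  lt : node → node → Set P
  /-- the height function -/
  ht : node → K1
  /-- every condition forces that it is a Suslin tree in which every node has extensions of every
  larger height -/
  isSuslin : ∀ p : P, p ∈ IsSuslin lt ht

section

variable {P : Type} [Preorder P]

/-- The sentence `x ≤ y` of the tree order, that is `x = y` or `x < y`. -/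
def SuslinTree.le (S : SuslinTree P) (x y : S.node) : Set P :=
  fnot (fand (fnot (fground (x = y))) (fnot (meets (S.lt x y))))

/-- The conditions of the two-step iteration of `P` and the Suslin tree `S`, used as a forcing
notion: a condition of `P` and a node of `S`. -/
structure Iter (S : SuslinTree P) : Type where
  /-- the condition of `P` -/
  fst : P
  /-- the node of `S` -/
  snd : S.node

end

/-! ### General facts -/

section

variable {P : Type u} [Preorder P]

theorem mem_fnot {φ : Set P} {p : P} : p ∈ fnot φ ↔ ∀ q ≤ p, q ∉ φ := Iff.rfl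

theorem mem_fex {ι : Sort v} {φ : ι → Set P} {p : P} :
    p ∈ fex φ ↔ ∀ q ≤ p, ∃ r ≤ q, ∃ i, r ∈ φ i := by
  simp only [fex, fnot, fall, Set.mem_ofPred_eq, not_forall, not_not]
  constructor
  · intro h q hq
    obtain ⟨i, r, hr, h'⟩ := h q hq
    exact ⟨r, hr, i, h'⟩
  · intro h q hq
    obtain ⟨r, hr, i, h'⟩ := h q hq
    exact ⟨i, r, hr, h'⟩

theorem mem_fimp {φ ψ : Set P} {p : P} :
    p ∈ fimp φ ψ ↔ ∀ q ≤ p, q ∈ φ → ∃ r ≤ q, r ∈ ψ := by
  simp only [fimp, fnot, fand, Set.mem_ofPred_eq, not_and, not_forall, not_not]
  constructor
  · intro h q hq h'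
    obtain ⟨r, hr, h''⟩ := h q hq h'
    exact ⟨r, hr, h''⟩
  · intro h q hq h'
    obtain ⟨r, hr, h''⟩ := h q hq h'
    exact ⟨r, hr, h''⟩

theorem meets_down {N : Set P} {p q : P} (h : p ∈ meets N) (hq : q ≤ p) : q ∈ meets N :=
  fun r hr => h r (hr.trans hq)

theorem fnot_down {φ : Set P} {p q : P} (h : p ∈ fnot φ) (hq : q ≤ p) : q ∈ fnot φ :=
  fun r hr => h r (hr.trans hq)

theorem fex_down {ι : Sort v} {φ : ι → Set P} {p q : P} (h : p ∈ fex φ) (hq : q ≤ p) :
    q ∈ fex φ := fnot_down h hq

theorem fimp_down {φ ψ : Set P} {p q : P} (h : p ∈ fimp φ ψ) (hq : q ≤ p) :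
    q ∈ fimp φ ψ := fnot_down h hq

theorem meets_of_mem {N : Set P} {p : P} (h : p ∈ N) : p ∈ meets N :=
  fun q hq => ⟨q, le_rfl, p, h, hq⟩

theorem meets_of_le {N : Set P} {p s : P} (hs : s ∈ N) (h : p ≤ s) : p ∈ meets N :=
  fun q hq => ⟨q, le_rfl, s, hs, hq.trans h⟩

theorem meets_of_dense {N : Set P} {p : P} (h : ∀ q ≤ p, ∃ r ≤ q, r ∈ meets N) :
    p ∈ meets N := by
  intro q hq
  obtain ⟨r, hr, h'⟩ := h q hq
  obtain ⟨s, hs, h''⟩ := h' r le_rfl
  exact ⟨s, hs.trans hr, h''⟩

end


section

variable {P : Type} [Preorder P]

theorem SuslinTree.mem_le {S : SuslinTree P} {p : P} {x y : S.node} :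
    p ∈ S.le x y ↔ x = y ∨ p ∈ meets (S.lt x y) := by
  constructor
  · intro h
    by_cases hxy : x = y
    · exact Or.inl hxy
    · refine Or.inr (meets_of_dense fun q hq => ?_)
      by_contra hcon
      push Not at hcon
      exact h q hq ⟨fun _ _ h' => hxy h', fun r hr => hcon r hr⟩
  · rintro (h | h)
    · intro q _ h'
      exact h'.1 q le_rfl h
    · intro q hq h'
      exact h'.2 q le_rfl (meets_down h hq)

theorem SuslinTree.le_trans {S : SuslinTree P} {p : P} {x y z : S.node} (h : p ∈ S.le x y)
    (h' : p ∈ S.le y z) : p ∈ S.le x z := by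
  rw [SuslinTree.mem_le] at h h' ⊢
  rcases h with rfl | h
  · exact h'
  rcases h' with rfl | h'
  · exact Or.inr h
  refine Or.inr (meets_of_dense fun q hq => ?_)
  exact mem_fimp.1 ((S.isSuslin p).1.2.1.1 x y z) q hq ⟨meets_down h hq, meets_down h' hq⟩

/-- The order of the two-step iteration: `(q, y)` is stronger than `(p, x)` iff `q` is stronger
than `p` and `q` forces `x ≤ y`. -/
instance (S : SuslinTree P) : Preorder (Iter S) where
  le r r' := r.fst ≤ r'.fst ∧ r.fst ∈ S.le r'.snd r.snd
  le_refl _ := ⟨le_rfl, SuslinTree.mem_le.2 (Or.inl rfl)⟩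
  le_trans _ _ _ h h' := ⟨h.1.trans h'.1, SuslinTree.le_trans (fnot_down h'.2 h.1) h.2⟩

end

/-! ### Ladder systems, colourings, uniformizations -/

/-- `C` is a ladder system: `C α` is a cofinal subset of the limit `α` of order type `ω`. -/
structure IsLadder (C : K1 → Set K1) : Prop where
  lt : ∀ α, Order.IsSuccLimit α → ∀ ξ ∈ C α, ξ < α
  cofinal : ∀ α, Order.IsSuccLimit α → ∀ η < α, ∃ ξ ∈ C α, η < ξ
  finite : ∀ α, Order.IsSuccLimit α → ∀ η < α, {ξ | ξ ∈ C α ∧ ξ < η}.Finite

section

variable {P : Type} [Preorder P] {N : Type}

/-- `f` names a colouring of `C` with natural numbers: for every limit `α` and `ξ ∈ C α` there is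
exactly one `k` with `f α ξ = k`. -/
def IsColouring (C : K1 → Set K1) (f : K1 → K1 → ℕ → Set P) : Set P :=
  fall fun α => fall fun ξ => fall fun _ : Order.IsSuccLimit α ∧ ξ ∈ C α =>
    fand (fex fun k => meets (f α ξ k))
      (fall fun k => fall fun l =>
        fimp (fand (meets (f α ξ k)) (meets (f α ξ l))) (fground (k = l)))

/-- `U` names a subtree: a nonempty downward closed set of nodes such that every node in `U` has
extensions in `U` of arbitrarily large height below `ω₁`. -/
def IsSubtree (lt : N → N → Set P) (ht : N → K1) (U : N → Set P) : Set P :=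
  fand (fex fun x => meets (U x))
    (fand
      (fall fun x => fall fun y => fimp (fand (meets (lt x y)) (meets (U y))) (meets (U x)))
      (fall fun x => fimp (meets (U x)) (fall fun μ => fex fun y =>
        fand (fground (μ < ht y)) (fand (meets (lt x y)) (meets (U y))))))

/-- `φ` names a uniformization of the colouring `f` with domain `U`: `U` is a subtree, for every
`x` in `U` there is exactly one `k` with `φ x = k`, and for every `y` in `U` of limit height `α`
there is a finite set `F` such that for all `ξ ∈ C α` outside `F` the predecessor `x` of `y` of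
height `ξ` satisfies `φ x = f α ξ`. -/
def IsUniformization (C : K1 → Set K1) (lt : N → N → Set P) (ht : N → K1)
    (f : K1 → K1 → ℕ → Set P) (U : N → Set P) (φ : N → ℕ → Set P) : Set P :=
  fand (IsSubtree lt ht U)
    (fand
      (fall fun x => fimp (meets (U x))
        (fand (fex fun k => meets (φ x k))
          (fall fun k => fall fun l =>
            fimp (fand (meets (φ x k)) (meets (φ x l))) (fground (k = l)))))
      (fall fun y => fall fun _ : Order.IsSuccLimit (ht y) => fimp (meets (U y))
        (fex fun F : Finset K1 => fall fun ξ => fall fun _ : ξ ∈ C (ht y) ∧ ξ ∉ F =>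
          fall fun x => fimp (fand (fground (ht x = ξ)) (meets (lt x y)))
            (fall fun k => fimp (meets (φ x k)) (meets (f (ht y) ξ k))))))

/-- Some `U` and `φ` form a `T`-uniformization of `f`. -/
def Uniformizable (C : K1 → Set K1) (lt : N → N → Set P) (ht : N → K1)
    (f : K1 → K1 → ℕ → Set P) : Set P :=
  fex fun U : N → Set P => fex fun φ : N → ℕ → Set P => IsUniformization C lt ht f U φ

/-- Every colouring of `C` with natural numbers has a `T`-uniformization. -/
def Unif (C : K1 → Set K1) (lt : N → N → Set P) (ht : N → K1) : Set P :=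
  fall fun f : K1 → K1 → ℕ → Set P => fimp (IsColouring C f) (Uniformizable C lt ht f)

/-- The colouring `f` of `C` takes only the values `0` and `1`. -/
def TwoValued (C : K1 → Set K1) (f : K1 → K1 → ℕ → Set P) : Set P :=
  fall fun α => fall fun ξ => fall fun _ : Order.IsSuccLimit α ∧ ξ ∈ C α => fall fun k =>
    fimp (meets (f α ξ k)) (fground (k < 2))

/-- The colouring `f` of `C` is monochromatic: it is constant on every `C α`. -/
def Monochromatic (C : K1 → Set K1) (f : K1 → K1 → ℕ → Set P) : Set P :=
  fall fun α => fall fun ξ => fall fun η =>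
    fall fun _ : Order.IsSuccLimit α ∧ ξ ∈ C α ∧ η ∈ C α => fall fun k =>
      fimp (meets (f α ξ k)) (meets (f α η k))

/-- Every 2-colouring of `C` has a `T`-uniformization. -/
def UnifTwo (C : K1 → Set K1) (lt : N → N → Set P) (ht : N → K1) : Set P :=
  fall fun f : K1 → K1 → ℕ → Set P =>
    fimp (fand (IsColouring C f) (TwoValued C f)) (Uniformizable C lt ht f)

/-- Every monochromatic 2-colouring of `C` has a `T`-uniformization. -/
def UnifcTwo (C : K1 → Set K1) (lt : N → N → Set P) (ht : N → K1) : Set P :=
  fall fun f : K1 → K1 → ℕ → Set P =>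
    fimp (fand (IsColouring C f) (fand (TwoValued C f) (Monochromatic C f)))
      (Uniformizable C lt ht f)

end

/-- The countable chain condition. -/
def CCC (P : Type) [Preorder P] : Prop :=
  ∀ A : Set P, (∀ a ∈ A, ∀ b ∈ A, a ≠ b → ¬ ∃ r, r ≤ a ∧ r ≤ b) → A.Countable

end Pool.Agent.Helper126.Sus.Forc
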