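import Mathlib
import Pool.Agent.Helper126.Sus.Forc

/-!
# Finite pieces of trees
-/

namespace Pool.Agent.Helper126.Sus.Tree

open Cardinal Pool.Agent.Helper126.Sus.Forc

abbrev Node : Type := K1 × ℕ

/-- `N` with the relation `lt` is a piece of a tree -/
structure FT (N : Node → Prop) (lt : Node → Node → Prop) : Prop where
  nl : ∀ {x y}, lt x y → N x
  nr : ∀ {x y}, lt x y → N y
  lv : ∀ {x y}, lt x y → x.1 < y.1
  tr : ∀ {x y z}, lt x y → lt y z → lt x z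
  cp : ∀ {x y z}, lt x z → lt y z → x.1 < y.1 → lt x y
  uq : ∀ {x y z}, lt x z → lt y z → x.1 = y.1 → x = y

theorem FT.congr {N N' : Node → Prop} {lt lt' : Node → Node → Prop} (h : FT N lt)
    (hN : ∀ x, N' x ↔ N x) (hl : ∀ x y, lt' x y ↔ lt x y) : FT N' lt' := by
  have e1 : N' = N := funext fun x => propext (hN x)
  have e2 : lt' = lt := funext fun x => funext fun y => propext (hl x y)
  rw [e1, e2]; exact h

theorem FT.union {N N' : Node → Prop} {lt lt' : Node → Node → Prop} (h : FT N lt)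
    (h' : FT N' lt') (hc : ∀ a b, N b → N' b → (lt a b ↔ lt' a b)) :
    FT (fun x => N x ∨ N' x) (fun x y => lt x y ∨ lt' x y) where
  nl := by
    rintro x y (h1 | h1)
    · exact Or.inl (h.nl h1)
    · exact Or.inr (h'.nl h1)
  nr := by
    rintro x y (h1 | h1)
    · exact Or.inl (h.nr h1)
    · exact Or.inr (h'.nr h1)
  lv := by
    rintro x y (h1 | h1)
    · exact h.lv h1
    · exact h'.lv h1
  tr := by
    rintro x y z (h1 | h1) (h2 | h2)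
    · exact Or.inl (h.tr h1 h2)
    · exact Or.inr (h'.tr ((hc _ _ (h.nr h1) (h'.nl h2)).1 h1) h2)
    · exact Or.inl (h.tr ((hc _ _ (h.nl h2) (h'.nr h1)).2 h1) h2)
    · exact Or.inr (h'.tr h1 h2)
  cp := by
    rintro x y z (h1 | h1) (h2 | h2) h3
    · exact Or.inl (h.cp h1 h2 h3)
    · exact Or.inr (h'.cp ((hc _ _ (h.nr h1) (h'.nr h2)).1 h1) h2 h3)
    · exact Or.inr (h'.cp h1 ((hc _ _ (h.nr h2) (h'.nr h1)).1 h2) h3)
    · exact Or.inr (h'.cp h1 h2 h3)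
  uq := by
    rintro x y z (h1 | h1) (h2 | h2) h3
    · exact h.uq h1 h2 h3
    · exact h'.uq ((hc _ _ (h.nr h1) (h'.nr h2)).1 h1) h2 h3
    · exact h'.uq h1 ((hc _ _ (h.nr h2) (h'.nr h1)).1 h2) h3
    · exact h'.uq h1 h2 h3

/-- add a new node on top -/
theorem FT.top {N : Node → Prop} {lt : Node → Node → Prop} (h : FT N lt) {y : Node} (hy : ¬ N y)
    {D : Node → Prop} (h1 : ∀ a, D a → N a ∧ a.1 < y.1)
    (h2 : ∀ a b, D a → D b → a.1 < b.1 → lt a b) (h3 : ∀ a b, D a → D b → a.1 = b.1 → a = b)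
    (h4 : ∀ a b, lt a b → D b → D a) :
    FT (fun x => N x ∨ x = y) (fun a b => lt a b ∨ (b = y ∧ D a)) where
  nl := by
    rintro a b (h5 | ⟨rfl, h5⟩)
    · exact Or.inl (h.nl h5)
    · exact Or.inl (h1 _ h5).1
  nr := by
    rintro a b (h5 | ⟨rfl, h5⟩)
    · exact Or.inl (h.nr h5)
    · exact Or.inr rfl
  lv := by
    rintro a b (h5 | ⟨rfl, h5⟩)
    · exact h.lv h5
    · exact (h1 _ h5).2
  tr := by
    rintro a b c (h5 | ⟨rfl, h5⟩) (h6 | ⟨rfl, h6⟩)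
    · exact Or.inl (h.tr h5 h6)
    · exact Or.inr ⟨rfl, h4 _ _ h5 h6⟩
    · exact absurd (h.nl h6) hy
    · exact absurd (h1 _ h6).1 hy
  cp := by
    rintro a b c (h5 | ⟨rfl, h5⟩) (h6 | ⟨h7, h6⟩) h8
    · exact Or.inl (h.cp h5 h6 h8)
    · exact absurd (h7 ▸ h.nr h5) hy
    · exact absurd (h.nr h6) hy
    · exact Or.inl (h2 _ _ h5 h6 h8)
  uq := by
    rintro a b c (h5 | ⟨rfl, h5⟩) (h6 | ⟨h7, h6⟩) h8
    · exact h.uq h5 h6 h8
    · exact absurd (h7 ▸ h.nr h5) hy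
    · exact absurd (h.nr h6) hy
    · exact h3 _ _ h5 h6 h8

/-- the nodes above level `η` without a predecessor at level `η` -/
def Lack (N : Node → Prop) (lt : Node → Node → Prop) (η : K1) (y : Node) : Prop :=
  N y ∧ η < y.1 ∧ ¬ ∃ z, lt z y ∧ z.1 = η

theorem FT.lack_up {N : Node → Prop} {lt : Node → Node → Prop} (h : FT N lt) {η : K1}
    {x y : Node} (hx : Lack N lt η x) (hxy : lt x y) : Lack N lt η y := by
  refine ⟨h.nr hxy, hx.2.1.trans (h.lv hxy), ?_⟩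
  rintro ⟨z, hz, rfl⟩
  exact hx.2.2 ⟨z, h.cp hz hxy hx.2.1, rfl⟩

theorem FT.lack_down {N : Node → Prop} {lt : Node → Node → Prop} (h : FT N lt) {η : K1}
    {x y : Node} (hy : Lack N lt η y) (hxy : lt x y) (hx : η < x.1) : Lack N lt η x := by
  refine ⟨h.nl hxy, hx, ?_⟩
  rintro ⟨z, hz, rfl⟩
  exact hy.2.2 ⟨z, h.tr hz hxy, rfl⟩

/-- insert new nodes at level `η` -/
theorem FT.insert {N : Node → Prop} {lt : Node → Node → Prop} (h : FT N lt) {η : K1}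
    {ι : Node → Node} (h1 : ∀ y, Lack N lt η y → (ι y).1 = η) (h2 : ∀ y, Lack N lt η y → ¬ N (ι y))
    (h3 : ∀ y y', Lack N lt η y → Lack N lt η y' → ι y = ι y' → ∀ z, z.1 < η → (lt z y ↔ lt z y'))
    (h4 : ∀ x y, Lack N lt η y → lt x y → η < x.1 → ι x = ι y) :
    FT (fun x => N x ∨ ∃ y, Lack N lt η y ∧ x = ι y)
      (fun a b => lt a b ∨ (∃ y, Lack N lt η y ∧ b = ι y ∧ lt a y ∧ a.1 < η) ∨
        (Lack N lt η b ∧ a = ι b)) where
  nl := by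
    rintro a b (h5 | ⟨y, h5, rfl, h6, h7⟩ | ⟨h5, rfl⟩)
    · exact Or.inl (h.nl h5)
    · exact Or.inl (h.nl h6)
    · exact Or.inr ⟨b, h5, rfl⟩
  nr := by
    rintro a b (h5 | ⟨y, h5, rfl, h6, h7⟩ | ⟨h5, rfl⟩)
    · exact Or.inl (h.nr h5)
    · exact Or.inr ⟨y, h5, rfl⟩
    · exact Or.inl h5.1
  lv := by
    rintro a b (h5 | ⟨y, h5, rfl, h6, h7⟩ | ⟨h5, rfl⟩)
    · exact h.lv h5
    · rw [h1 y h5]; exact h7
    · rw [h1 b h5]; exact h5.2.1
  tr := by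
    rintro x y z (h5 | ⟨y', h5, rfl, h6, h7⟩ | ⟨h5, rfl⟩) (h8 | ⟨z', h8, rfl, h9, h10⟩ | ⟨h8, h9⟩)
    · exact Or.inl (h.tr h5 h8)
    · exact Or.inr (Or.inl ⟨z', h8, rfl, h.tr h5 h9, (h.lv h5).trans h10⟩)
    · exact absurd (h9 ▸ h.nr h5) (h2 z h8)
    · exact absurd (h.nl h8) (h2 y' h5)
    · exact absurd (h.nl h9) (h2 y' h5)
    · exact Or.inl ((h3 y' z h5 h8 h9 x h7).1 h6)
    · exact Or.inr (Or.inr ⟨h.lack_up h5 h8, h4 _ _ (h.lack_up h5 h8) h8 h5.2.1⟩)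
    · exact absurd (h5.2.1.trans h10) (lt_irrefl _)
    · exact absurd (h9 ▸ h5.1) (h2 z h8)
  cp := by
    rintro x y z (h5 | ⟨z', h5, rfl, h6, h7⟩ | ⟨h5, rfl⟩) (h8 | ⟨z'', h8, h9, h10, h11⟩ | ⟨h8, h9⟩) h12
    · exact Or.inl (h.cp h5 h8 h12)
    · exact absurd (h9 ▸ h.nr h5) (h2 z'' h8)
    · subst h9
      refine Or.inr (Or.inl ⟨z, h8, rfl, h5, ?_⟩)
      rw [h1 z h8] at h12; exact h12
    · exact absurd (h.nr h8) (h2 z' h5)
    · exact Or.inl (h.cp h6 ((h3 _ _ h5 h8 h9 y h11).2 h10) h12)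
    · exact absurd h8.1 (h2 z' h5)
    · rw [h1 z h5] at h12
      exact Or.inr (Or.inr ⟨h.lack_down h5 h8 h12, (h4 _ _ h5 h8 h12).symm⟩)
    · exact absurd h5.1 (h9 ▸ h2 z'' h8)
    · rw [h9] at h12; exact absurd h12 (lt_irrefl _)
  uq := by
    rintro x y z (h5 | ⟨z', h5, rfl, h6, h7⟩ | ⟨h5, rfl⟩) (h8 | ⟨z'', h8, h9, h10, h11⟩ | ⟨h8, h9⟩) h12
    · exact h.uq h5 h8 h12
    · exact absurd (h9 ▸ h.nr h5) (h2 z'' h8)
    · rw [h9, h1 z h8] at h12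
      exact absurd ⟨x, h5, h12⟩ h8.2.2
    · exact absurd (h.nr h8) (h2 z' h5)
    · exact h.uq h6 ((h3 _ _ h5 h8 h9 y h11).2 h10) h12
    · exact absurd h8.1 (h2 z' h5)
    · rw [h1 z h5] at h12
      exact absurd ⟨y, h8, h12.symm⟩ h5.2.2
    · exact absurd h5.1 (h9 ▸ h2 z'' h8)
    · exact h9.symm

/-- put the part of the branch of `x` above `w` below all the nodes in `B` -/
theorem FT.graft {N : Node → Prop} {lt : Node → Node → Prop} (h : FT N lt) {w x : Node}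
    {B : Node → Prop} (h0 : ∀ b, B b → lt w b ∧ x.1 < b.1) (hx : N x)
    (h1 : ∀ c b, B b → lt c b → w.1 < c.1 → B c) (h2 : ∀ b c, B b → lt b c → B c) :
    FT N (fun a b => lt a b ∨ (lt w a ∧ (a = x ∨ lt a x) ∧ B b)) := by
  have hle : ∀ {a}, a = x ∨ lt a x → a.1 ≤ x.1 := by
    rintro a (rfl | h3)
    · exact le_rfl
    · exact (h.lv h3).le
  refine ⟨?_, ?_, ?_, ?_, ?_, ?_⟩
  · rintro a b (h3 | ⟨h3, h4, h5⟩)
    · exact h.nl h3
    · exact h.nr h3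
  · rintro a b (h3 | ⟨h3, h4, h5⟩)
    · exact h.nr h3
    · exact h.nr (h0 b h5).1
  · rintro a b (h3 | ⟨h3, h4, h5⟩)
    · exact h.lv h3
    · exact (hle h4).trans_lt (h0 b h5).2
  · rintro a b c (h3 | ⟨h3, h4, h5⟩) (h6 | ⟨h6, h7, h8⟩)
    · exact Or.inl (h.tr h3 h6)
    · have hax : lt a x := by
        rcases h7 with rfl | h7
        · exact h3
        · exact h.tr h3 h7
      rcases lt_trichotomy w.1 a.1 with h9 | h9 | h9
      · exact Or.inr ⟨h.cp h6 h3 h9, Or.inr hax, h8⟩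
      · rw [← h.uq h6 h3 h9]; exact Or.inl (h0 c h8).1
      · exact Or.inl (h.tr (h.cp h3 h6 h9) (h0 c h8).1)
    · exact Or.inr ⟨h3, h4, h2 _ _ h5 h6⟩
    · exact absurd ((h0 b h5).2) (not_lt.2 (hle h7))
  · rintro a b z (h3 | ⟨h3, h4, h5⟩) (h6 | ⟨h6, h7, h8⟩) h9
    · exact Or.inl (h.cp h3 h6 h9)
    · have h10 := (h0 z h8).1
      rcases lt_trichotomy w.1 a.1 with h11 | h11 | h11
      · exact absurd ((h0 a (h1 _ _ h8 h3 h11)).2) (not_lt.2 (h9.le.trans (hle h7)))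
      · rw [← h.uq h10 h3 h11]; exact Or.inl h6
      · exact Or.inl (h.tr (h.cp h3 h10 h11) h6)
    · have h10 : w.1 < b.1 := (h.lv h3).trans h9
      exact Or.inr ⟨h3, h4, h1 _ _ h5 h6 h10⟩
    · refine Or.inl ?_
      rcases h4 with rfl | h4
      · exact absurd h9 (not_lt.2 (hle h7))
      · rcases h7 with rfl | h7
        · exact h4
        · exact h.cp h4 h7 h9
  · rintro a b z (h3 | ⟨h3, h4, h5⟩) (h6 | ⟨h6, h7, h8⟩) h9
    · exact h.uq h3 h6 h9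
    · have h11 : w.1 < a.1 := h9 ▸ h.lv h6
      exact absurd ((h0 a (h1 _ _ h8 h3 h11)).2) (not_lt.2 (h9.le.trans (hle h7)))
    · have h11 : w.1 < b.1 := h9 ▸ h.lv h3
      exact absurd ((h0 b (h1 _ _ h5 h6 h11)).2) (not_lt.2 (h9.ge.trans (hle h4)))
    · rcases h4 with rfl | h4
      · rcases h7 with rfl | h7
        · rfl
        · exact absurd (h.lv h7) (by rw [h9]; exact lt_irrefl _)
      · rcases h7 with rfl | h7
        · exact absurd (h.lv h4) (by rw [h9]; exact lt_irrefl _)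
        · exact h.uq h4 h7 h9

end Pool.Agent.Helper126.Sus.Tree
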