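import Mathlib
import Pool.Agent.Helper126.Sus.FT

/-!
# The finite support iteration
-/

namespace Pool.Agent.Helper126.Sus.Poset

open Cardinal Pool.Agent.Helper126.Sus.Forc Pool.Agent.Helper126.Sus.Tree

set_option linter.unusedSectionVars false

/-- the atomic pieces of the conditions; `false` is the Suslin tree, `true` is the special tree -/
inductive Atom (J L : Type) : Type
  | nd : Bool → Node → ℕ → Atom J L
  | lt : Bool → Node → Node → Atom J L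
  | ph : J → L → Node → Node → ℕ → Atom J L
  | pm : J → L → Node → Node → Atom J L

abbrev Rep (J L : Type) : Type := Finset (Atom J L)

variable {J L : Type}

def nN (p : Rep J L) (τ : Bool) (x : Node) : Prop := ∃ a, Atom.nd τ x a ∈ p
def lL (p : Rep J L) (τ : Bool) (x y : Node) : Prop := Atom.lt τ x y ∈ p

structure BV (p : Rep J L) : Prop where
  ft : ∀ τ, FT (nN p τ) (lL p τ)
  fn : ∀ {τ x a b}, Atom.nd τ x a ∈ p → Atom.nd τ x b ∈ p → a = b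
  sp : ∀ {x y a}, lL p true x y → Atom.nd true x a ∈ p → Atom.nd true y a ∉ p

structure BLe (q p : Rep J L) : Prop where
  nd : ∀ {τ x a}, Atom.nd τ x a ∈ p → Atom.nd τ x a ∈ q
  lt : ∀ {τ x y}, nN p τ x → nN p τ y → (lL q τ x y ↔ lL p τ x y)

theorem BLe.nN {q p : Rep J L} (h : BLe q p) {τ x} (hx : nN p τ x) : nN q τ x :=
  ⟨_, h.nd hx.choose_spec⟩

theorem BLe.lL {q p : Rep J L} (h : BLe q p) (hp : BV p) {τ x y} (hx : lL p τ x y) : lL q τ x y :=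
  (h.lt ((hp.ft τ).nl hx) ((hp.ft τ).nr hx)).2 hx

theorem BLe.refl (p : Rep J L) : BLe p p := ⟨fun h => h, fun _ _ => Iff.rfl⟩

theorem BLe.trans {r q p : Rep J L} (h : BLe r q) (h' : BLe q p) : BLe r p :=
  ⟨fun hx => h.nd (h'.nd hx), fun hx hy => (h.lt (h'.nN hx) (h'.nN hy)).trans (h'.lt hx hy)⟩

/-- data of an initial stage: valid conditions and the order -/
structure Dat (J L : Type) : Type where
  V : Set (Rep J L)
  le : Rep J L → Rep J L → Prop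

def cc (D : Dat J L) (q e : Rep J L) : Prop := ∃ r ∈ D.V, D.le r q ∧ D.le r e

/-- a name of a colouring: `N s α ξ k` are conditions deciding that the value at `ξ ∈ C α` is `k`
for the node `s` of level `δ α` of the Suslin tree -/
structure Nm (J L : Type) : Type where
  δ : K1 → K1
  N : Node → K1 → K1 → ℕ → Set (Rep J L)

structure OK (n : Nm J L) (D : Dat J L) : Prop where
  le : ∀ α, α ≤ n.δ α
  mono : ∀ {α α'}, α ≤ α' → n.δ α ≤ n.δ α'
  fn : ∀ {s α ξ k k' r e e'}, r ∈ D.V → e ∈ n.N s α ξ k → e' ∈ n.N s α ξ k' → D.le r e →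
    D.le r e' → k = k'

/-- weakly below -/
def wL (p : Rep J L) (τ : Bool) (x y : Node) : Prop := x = y ∨ lL p τ x y

def Split (p : Rep J L) (τ : Bool) (x y : Node) (ξ : K1) : Prop :=
  ∃ v w, wL p τ v x ∧ wL p τ w y ∧ v.1 = w.1 ∧ v.1 ≤ ξ ∧ v ≠ w

def SplitLt (p : Rep J L) (τ : Bool) (x y : Node) (ξ : K1) : Prop :=
  ∃ v w, wL p τ v x ∧ wL p τ w y ∧ v.1 = w.1 ∧ v.1 < ξ ∧ v ≠ w

def Agree (p : Rep J L) (s s' : Node) (μ : K1) : Prop :=
  ∃ w, wL p false w s ∧ wL p false w s' ∧ μ ≤ w.1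

def Filled (p : Rep J L) (j : J) (β : L) (t s : Node) (ξ : K1) : Prop :=
  ∃ u v k, lL p false u s ∧ lL p true v t ∧ u.1 = ξ ∧ v.1 = ξ ∧ Atom.ph j β u v k ∈ p

theorem wL_mono {q p : Rep J L} (h : BLe q p) (hp : BV p) {τ x y} (hx : wL p τ x y) :
    wL q τ x y := hx.imp id (h.lL hp)

theorem Split_mono {q p : Rep J L} (h : BLe q p) (hp : BV p) {τ x y ξ} (hx : Split p τ x y ξ) :
    Split q τ x y ξ := by
  obtain ⟨v, w, h1, h2, h3⟩ := hx
  exact ⟨v, w, wL_mono h hp h1, wL_mono h hp h2, h3⟩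

theorem SplitLt_mono {q p : Rep J L} (h : BLe q p) (hp : BV p) {τ x y ξ}
    (hx : SplitLt p τ x y ξ) : SplitLt q τ x y ξ := by
  obtain ⟨v, w, h1, h2, h3⟩ := hx
  exact ⟨v, w, wL_mono h hp h1, wL_mono h hp h2, h3⟩

theorem Agree_mono {q p : Rep J L} (h : BLe q p) (hp : BV p) {x y ξ}
    (hx : Agree p x y ξ) : Agree q x y ξ := by
  obtain ⟨w, h1, h2, h3⟩ := hx
  exact ⟨w, wL_mono h hp h1, wL_mono h hp h2, h3⟩

theorem Filled_mono {q p : Rep J L} (h : BLe q p) (hp : BV p) {j : J} {β : L} {t s ξ}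
    (hph : ∀ {u v k}, Atom.ph j β u v k ∈ p → Atom.ph j β u v k ∈ q)
    (hx : Filled p j β t s ξ) : Filled q j β t s ξ := by
  obtain ⟨u, v, k, h1, h2, h3, h4, h5⟩ := hx
  exact ⟨u, v, k, h.lL hp h1, h.lL hp h2, h3, h4, hph h5⟩

variable (C : K1 → Set K1) (g : L → Nm J L)

/-- validity at a coordinate -/
structure CV (D : Dat J L) (j : J) (β : L) (p : Rep J L) : Prop where
  ok : ∀ {t s}, Atom.pm j β t s ∈ p → OK (g β) D
  nd : ∀ {t s}, Atom.pm j β t s ∈ p →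
    nN p true t ∧ nN p false s ∧ Order.IsSuccLimit t.1 ∧ s.1 = (g β).δ t.1
  agr : ∀ {t s t' s'}, Atom.pm j β t s ∈ p → Atom.pm j β t' s' ∈ p → ∀ α, Order.IsSuccLimit α →
    α ≤ t.1 → α ≤ t'.1 → SplitLt p true t t' α ∨ Agree p s s' ((g β).δ α)
  saf : ∀ {t s t' s'}, Atom.pm j β t s ∈ p → Atom.pm j β t' s' ∈ p → ∀ ξ ∈ C t.1, ξ ∈ C t'.1 →
    (t.1 = t'.1 ∧ s = s') ∨ Split p true t t' ξ ∨ Split p false s s' ξ ∨
      Filled p j β t s ξ ∨ Filled p j β t' s' ξ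
  ph : ∀ {u v k}, Atom.ph j β u v k ∈ p → nN p false u ∧ nN p true v ∧ u.1 = v.1
  fn : ∀ {u v k k'}, Atom.ph j β u v k ∈ p → Atom.ph j β u v k' ∈ p → k = k'

/-- the order at a coordinate -/
structure CLe (D : Dat J L) (j : J) (β : L) (q p : Rep J L) : Prop where
  ph : ∀ {u v k}, Atom.ph j β u v k ∈ p → Atom.ph j β u v k ∈ q
  pm : ∀ {t s}, Atom.pm j β t s ∈ p → Atom.pm j β t s ∈ q
  pr : ∀ {t s u v k}, Atom.pm j β t s ∈ p → Atom.ph j β u v k ∈ q →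
    (¬ ∃ k', Atom.ph j β u v k' ∈ p) → lL q false u s → lL q true v t → u.1 ∈ C t.1 →
      ∀ k', ∀ e ∈ (g β).N s t.1 u.1 k', cc D q e → k = k'

variable [LinearOrder J] [WellFoundedLT J]

def bel (j : J) : Atom J L → Prop
  | .nd _ _ _ => True
  | .lt _ _ _ => True
  | .ph i _ _ _ _ => i < j
  | .pm i _ _ _ => i < j

/-- the data of the stages, by recursion -/
noncomputable def Data : J → Dat J L :=
  WellFoundedLT.fix (motive := fun _ : J => Dat J L) fun j D =>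
    ⟨{r | (BV r ∧ ∀ i, ∀ h : i < j, ∀ β, CV C g (D i h) i β r) ∧ ∀ a ∈ r, bel j a},
      fun r q => BLe r q ∧ ∀ i, ∀ h : i < j, ∀ β, CLe C g (D i h) i β r q⟩

/-- valid below `j` -/
def Vb (j : J) (r : Rep J L) : Prop := BV r ∧ ∀ i < j, ∀ β, CV C g (Data C g i) i β r
/-- the order below `j` -/
def Lb (j : J) (r q : Rep J L) : Prop := BLe r q ∧ ∀ i < j, ∀ β, CLe C g (Data C g i) i β r q

theorem Data_eq (j : J) : Data C g j = ⟨{r | Vb C g j r ∧ ∀ a ∈ r, bel j a}, Lb C g j⟩ := by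
  rw [Data, WellFoundedLT.fix_eq]
  rfl

variable {C g}

theorem mem_V {j : J} {r : Rep J L} : r ∈ (Data C g j).V ↔ Vb C g j r ∧ ∀ a ∈ r, bel j a := by
  rw [Data_eq]; rfl

theorem le_D {j : J} {r q : Rep J L} : (Data C g j).le r q ↔ Lb C g j r q := by
  rw [Data_eq]

theorem Vb_mono {i j : J} (h : i ≤ j) {r : Rep J L} (hr : Vb C g j r) : Vb C g i r :=
  ⟨hr.1, fun i' hi' => hr.2 i' (hi'.trans_le h)⟩

theorem Lb_mono {i j : J} (h : i ≤ j) {r q : Rep J L} (hr : Lb C g j r q) : Lb C g i r q :=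
  ⟨hr.1, fun i' hi' => hr.2 i' (hi'.trans_le h)⟩

theorem CLe_trans_of {D : Dat J L} {i : J} {β : L} {r q p : Rep J L}
    (hcc : ∀ e, cc D r e → cc D q e) (hr : CV C g D i β r) (hq : CV C g D i β q) (hB : BLe r q)
    (h1 : CLe C g D i β r q) (h2 : CLe C g D i β q p) : CLe C g D i β r p where
  ph := fun h => h1.ph (h2.ph h)
  pm := fun h => h1.pm (h2.pm h)
  pr := by
    intro t s u v k hpm hph hno hu hv hC k' e he hce
    by_cases hex : ∃ k1, Atom.ph i β u v k1 ∈ q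
    · obtain ⟨k1, hk1⟩ := hex
      have hk : k = k1 := hr.fn hph (h1.ph hk1)
      subst hk
      have hn1 := hq.ph hk1
      have hn2 := hq.nd (h2.pm hpm)
      exact h2.pr hpm hk1 hno ((hB.lt hn1.1 hn2.2.1).1 hu) ((hB.lt hn1.2.1 hn2.1).1 hv) hC k' e he
        (hcc e hce)
    · exact h1.pr (h2.pm hpm) hph hex hu hv hC k' e he hce

theorem Lb_trans {i : J} {a b c : Rep J L} (ha : Vb C g i a) (hb : Vb C g i b)
    (h1 : Lb C g i a b) (h2 : Lb C g i b c) : Lb C g i a c := by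
  induction i using WellFoundedLT.induction generalizing a b c with
  | ind i IH =>
    refine ⟨h1.1.trans h2.1, fun i' hi' β => ?_⟩
    refine CLe_trans_of (fun e he => ?_) (ha.2 i' hi' β) (hb.2 i' hi' β) h1.1 (h1.2 i' hi' β)
      (h2.2 i' hi' β)
    obtain ⟨r, hr, h3, h4⟩ := he
    rw [mem_V] at hr
    rw [le_D] at h3 h4
    exact ⟨r, mem_V.2 hr, le_D.2 (IH i' hi' hr.1 (Vb_mono hi'.le ha) h3 (Lb_mono hi'.le h1)),
      le_D.2 h4⟩

theorem cc_mono {i : J} {a b e : Rep J L} (ha : Vb C g i a)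
    (h1 : Lb C g i a b) (h : cc (Data C g i) a e) : cc (Data C g i) b e := by
  obtain ⟨r, hr, h3, h4⟩ := h
  rw [mem_V] at hr
  rw [le_D] at h3 h4
  exact ⟨r, mem_V.2 hr, le_D.2 (Lb_trans hr.1 ha h3 h1), le_D.2 h4⟩

theorem CLe_trans {i : J} {β : L} {r q p : Rep J L} (hr : Vb C g i r) (hq : Vb C g i q)
    (hr' : CV C g (Data C g i) i β r) (hq' : CV C g (Data C g i) i β q)
    (hb : Lb C g i r q) (h1 : CLe C g (Data C g i) i β r q) (h2 : CLe C g (Data C g i) i β q p) :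
    CLe C g (Data C g i) i β r p :=
  CLe_trans_of (fun _ he => cc_mono hr hb he) hr' hq' hb.1 h1 h2

theorem CLe_of_same {D : Dat J L} {i : J} {β : L} {q p : Rep J L}
    (h1 : ∀ {u v k}, Atom.ph i β u v k ∈ q ↔ Atom.ph i β u v k ∈ p)
    (h2 : ∀ {t s}, Atom.pm i β t s ∈ p → Atom.pm i β t s ∈ q) : CLe C g D i β q p :=
  ⟨h1.2, h2, fun _ hph hno => absurd ⟨_, h1.1 hph⟩ hno⟩

theorem CLe_refl {D : Dat J L} {i : J} {β : L} (p : Rep J L) : CLe C g D i β p p :=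
  CLe_of_same Iff.rfl id

theorem Lb_refl (i : J) (p : Rep J L) : Lb C g i p p := ⟨BLe.refl p, fun _ _ _ => CLe_refl p⟩

/-! ### congruences -/

/-- stage at most `i` -/
def bele (i : J) : Atom J L → Prop
  | .nd _ _ _ => True
  | .lt _ _ _ => True
  | .ph j _ _ _ _ => j ≤ i
  | .pm j _ _ _ => j ≤ i

theorem BLe_congr {q q' p p' : Rep J L} (i : J) (hq : ∀ a, bel i a → (a ∈ q ↔ a ∈ q'))
    (hp : ∀ a, bel i a → (a ∈ p ↔ a ∈ p')) (h : BLe q p) : BLe q' p' := by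
  refine ⟨fun {τ x a} hx => (hq (.nd τ x a) trivial).1 (h.nd ((hp (.nd τ x a) trivial).2 hx)),
    fun {τ x y} hx hy => ?_⟩
  have e1 : ∀ {z}, nN p' τ z → nN p τ z := fun ⟨a, ha⟩ => ⟨a, (hp (.nd τ _ a) trivial).2 ha⟩
  unfold lL
  rw [← hq (.lt τ x y) trivial, ← hp (.lt τ x y) trivial]
  exact h.lt (e1 hx) (e1 hy)

theorem BV_congr {p p' : Rep J L} (i : J) (hp : ∀ a, bel i a → (a ∈ p ↔ a ∈ p')) (h : BV p) :
    BV p' := by
  have e1 : ∀ τ z, nN p' τ z ↔ nN p τ z := fun τ z =>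
    ⟨fun ⟨a, ha⟩ => ⟨a, (hp (.nd τ _ a) trivial).2 ha⟩,
      fun ⟨a, ha⟩ => ⟨a, (hp (.nd τ _ a) trivial).1 ha⟩⟩
  have e2 : ∀ τ x y, lL p' τ x y ↔ lL p τ x y := fun τ x y => (hp (.lt τ x y) trivial).symm
  refine ⟨fun τ => (h.ft τ).congr (e1 τ) (e2 τ), fun {τ x a b} ha hb => ?_,
    fun {x y a} hl ha hb => ?_⟩
  · exact h.fn ((hp (.nd τ _ a) trivial).2 ha) ((hp (.nd τ _ b) trivial).2 hb)
  · exact h.sp ((e2 _ _ _).1 hl) ((hp (.nd _ _ a) trivial).2 ha) ((hp (.nd _ _ a) trivial).2 hb)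

theorem CV_congr {D : Dat J L} {i : J} {β : L} {p p' : Rep J L}
    (hp : ∀ a, bele i a → (a ∈ p ↔ a ∈ p')) (h : CV C g D i β p) : CV C g D i β p' := by
  have e1 : ∀ τ z, nN p τ z ↔ nN p' τ z := fun τ z =>
    ⟨fun ⟨a, ha⟩ => ⟨a, (hp (.nd τ _ a) trivial).1 ha⟩,
      fun ⟨a, ha⟩ => ⟨a, (hp (.nd τ _ a) trivial).2 ha⟩⟩
  have e2 : ∀ τ x y, lL p τ x y ↔ lL p' τ x y := fun τ x y => (hp (.lt τ x y) trivial)
  have e3 : ∀ u v k, Atom.ph i β u v k ∈ p ↔ Atom.ph i β u v k ∈ p' := fun u v k =>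
    hp _ (le_refl i)
  have e4 : ∀ t s, Atom.pm i β t s ∈ p ↔ Atom.pm i β t s ∈ p' := fun t s => hp _ (le_refl i)
  have e5 : ∀ τ x y, wL p τ x y ↔ wL p' τ x y := fun τ x y => by unfold wL; rw [e2]
  refine ⟨?_, ?_, ?_, ?_, ?_, ?_⟩
  · intro t s hts; exact h.ok ((e4 _ _).2 hts)
  · intro t s hts
    have := h.nd ((e4 _ _).2 hts)
    rwa [e1, e1] at this
  · intro t s t' s' h1 h2 α hα h3 h4
    have := h.agr ((e4 _ _).2 h1) ((e4 _ _).2 h2) α hα h3 h4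
    simpa only [SplitLt, Agree, e5] using this
  · intro t s t' s' h1 h2 ξ h3 h4
    have := h.saf ((e4 _ _).2 h1) ((e4 _ _).2 h2) ξ h3 h4
    simpa only [Split, Filled, e5, e2, e3] using this
  · intro u v k h1
    have := h.ph ((e3 _ _ _).2 h1)
    rwa [e1, e1] at this
  · intro u v k k' h1 h2
    exact h.fn ((e3 _ _ _).2 h1) ((e3 _ _ _).2 h2)

theorem CLe_congr_right {D : Dat J L} {i : J} {β : L} {q p p' : Rep J L}
    (hp : ∀ a, bele i a → (a ∈ p ↔ a ∈ p')) (h : CLe C g D i β q p) : CLe C g D i β q p' := by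
  have e3 : ∀ u v k, Atom.ph i β u v k ∈ p ↔ Atom.ph i β u v k ∈ p' := fun u v k =>
    hp _ (le_refl i)
  have e4 : ∀ t s, Atom.pm i β t s ∈ p ↔ Atom.pm i β t s ∈ p' := fun t s => hp _ (le_refl i)
  refine ⟨fun hx => h.ph ((e3 _ _ _).2 hx), fun hx => h.pm ((e4 _ _).2 hx), ?_⟩
  intro t s u v k h1 h2 h3
  refine h.pr ((e4 _ _).2 h1) h2 ?_
  rintro ⟨k', hk'⟩
  exact h3 ⟨k', (e3 _ _ _).1 hk'⟩

theorem bele_of_bel {i j : J} (h : i < j) {a : Atom J L} (ha : bele i a) : bel j a := by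
  cases a with
  | nd => trivial
  | lt => trivial
  | ph => exact lt_of_le_of_lt ha h
  | pm => exact lt_of_le_of_lt ha h

theorem bele_of_bel' {i : J} {a : Atom J L} (ha : bel i a) : bele i a := by
  cases a with
  | nd => trivial
  | lt => trivial
  | ph => exact le_of_lt ha
  | pm => exact le_of_lt ha

theorem Lb_congr_right {i : J} {r q q' : Rep J L} (hq : ∀ a, bel i a → (a ∈ q ↔ a ∈ q'))
    (h : Lb C g i r q) : Lb C g i r q' :=
  ⟨BLe_congr i (fun _ _ => Iff.rfl) hq h.1,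
    fun i' hi' β => CLe_congr_right (fun a ha => hq a (bele_of_bel hi' ha)) (h.2 i' hi' β)⟩

theorem cc_congr {i : J} {q q' e : Rep J L} (hq : ∀ a, bel i a → (a ∈ q ↔ a ∈ q'))
    (h : cc (Data C g i) q e) : cc (Data C g i) q' e := by
  obtain ⟨r, hr, h3, h4⟩ := h
  rw [le_D] at h3
  exact ⟨r, hr, le_D.2 (Lb_congr_right hq h3), h4⟩

theorem CLe_congr_left {i : J} {β : L} {q q' p : Rep J L}
    (hq : ∀ a, bele i a → (a ∈ q ↔ a ∈ q')) (h : CLe C g (Data C g i) i β q p) :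
    CLe C g (Data C g i) i β q' p := by
  have e2 : ∀ τ x y, lL q τ x y ↔ lL q' τ x y := fun τ x y => (hq (.lt τ x y) trivial)
  have e3 : ∀ u v k, Atom.ph i β u v k ∈ q ↔ Atom.ph i β u v k ∈ q' := fun u v k =>
    hq _ (le_refl i)
  have e4 : ∀ t s, Atom.pm i β t s ∈ q ↔ Atom.pm i β t s ∈ q' := fun t s => hq _ (le_refl i)
  refine ⟨fun hx => (e3 _ _ _).1 (h.ph hx), fun hx => (e4 _ _).1 (h.pm hx), ?_⟩
  intro t s u v k h1 h2 h3 h4 h5 h6 k' e he hce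
  exact h.pr h1 ((e3 _ _ _).2 h2) h3 ((e2 _ _ _).2 h4) ((e2 _ _ _).2 h5) h6 k' e he
    (cc_congr (fun a ha => (hq a (bele_of_bel' ha)).symm) hce)

theorem Lb_congr_left {i : J} {r r' q : Rep J L} (hq : ∀ a, bel i a → (a ∈ r ↔ a ∈ r'))
    (h : Lb C g i r q) : Lb C g i r' q :=
  ⟨BLe_congr i hq (fun _ _ => Iff.rfl) h.1,
    fun i' hi' β => CLe_congr_left (fun a ha => hq a (bele_of_bel hi' ha)) (h.2 i' hi' β)⟩

theorem Vb_congr {i : J} {r r' : Rep J L} (hq : ∀ a, bel i a → (a ∈ r ↔ a ∈ r'))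
    (h : Vb C g i r) : Vb C g i r' :=
  ⟨BV_congr i hq h.1,
    fun i' hi' β => CV_congr (fun a ha => hq a (bele_of_bel hi' ha)) (h.2 i' hi' β)⟩

theorem CV_mono {D : Dat J L} {i : J} {β : L} {q p : Rep J L} (hp : BV p) (hB : BLe q p)
    (h3 : ∀ {u v k}, Atom.ph i β u v k ∈ p → Atom.ph i β u v k ∈ q)
    (h4 : ∀ {t s}, Atom.pm i β t s ∈ q ↔ Atom.pm i β t s ∈ p)
    (h5 : ∀ {u v k}, Atom.ph i β u v k ∈ q → nN q false u ∧ nN q true v ∧ u.1 = v.1)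
    (h6 : ∀ {u v k k'}, Atom.ph i β u v k ∈ q → Atom.ph i β u v k' ∈ q → k = k')
    (h : CV C g D i β p) : CV C g D i β q where
  ok := fun hx => h.ok (h4.1 hx)
  nd := fun hx => by
    obtain ⟨h7, h8, h9⟩ := h.nd (h4.1 hx)
    exact ⟨hB.nN h7, hB.nN h8, h9⟩
  agr := fun hx hy α hα h7 h8 =>
    (h.agr (h4.1 hx) (h4.1 hy) α hα h7 h8).imp (SplitLt_mono hB hp) (Agree_mono hB hp)
  saf := fun hx hy ξ h7 h8 =>
    (h.saf (h4.1 hx) (h4.1 hy) ξ h7 h8).imp id (Or.imp (Split_mono hB hp)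
      (Or.imp (Split_mono hB hp) (Or.imp (Filled_mono hB hp h3) (Filled_mono hB hp h3))))
  ph := h5
  fn := h6

theorem CV_same {D : Dat J L} {i : J} {β : L} {q p : Rep J L} (hp : BV p) (hB : BLe q p)
    (h3 : ∀ {u v k}, Atom.ph i β u v k ∈ q ↔ Atom.ph i β u v k ∈ p)
    (h4 : ∀ {t s}, Atom.pm i β t s ∈ q ↔ Atom.pm i β t s ∈ p)
    (h : CV C g D i β p) : CV C g D i β q :=
  CV_mono hp hB h3.2 h4 (fun hx => by
    obtain ⟨h7, h8, h9⟩ := h.ph (h3.1 hx)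
    exact ⟨hB.nN h7, hB.nN h8, h9⟩) (fun hx hy => h.fn (h3.1 hx) (h3.1 hy)) h

theorem CV_none {D : Dat J L} {i : J} {β : L} {p : Rep J L}
    (h3 : ∀ {u v k}, Atom.ph i β u v k ∉ p) (h4 : ∀ {t s}, Atom.pm i β t s ∉ p) :
    CV C g D i β p :=
  ⟨fun h => absurd h h4, fun h => absurd h h4, fun h => absurd h h4, fun h => absurd h h4,
    fun h => absurd h h3, fun h => absurd h h3⟩

/-! ### the poset -/

variable (C g)

/-- the conditions -/
def Cd : Type := {r : Rep J L // BV r ∧ ∀ i β, CV C g (Data C g i) i β r}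

variable {C g}

theorem Cd.bv (p : Cd C g) : BV p.1 := p.2.1
theorem Cd.cv (p : Cd C g) (i : J) (β : L) : CV C g (Data C g i) i β p.1 := p.2.2 i β
theorem Cd.vb (p : Cd C g) (i : J) : Vb C g i p.1 := ⟨p.2.1, fun i _ => p.2.2 i⟩

instance : Preorder (Cd C g) where
  le r q := BLe r.1 q.1 ∧ ∀ i β, CLe C g (Data C g i) i β r.1 q.1
  le_refl r := ⟨BLe.refl _, fun _ _ => CLe_refl _⟩
  le_trans a b c hab hbc := ⟨hab.1.trans hbc.1, fun i β =>
    CLe_trans (a.vb i) (b.vb i) (a.cv i β) (b.cv i β) ⟨hab.1, fun i _ => hab.2 i⟩ (hab.2 i β)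
      (hbc.2 i β)⟩

theorem le_bl {r q : Cd C g} (h : r ≤ q) : BLe r.1 q.1 := h.1
theorem le_cl {r q : Cd C g} (h : r ≤ q) (i : J) (β : L) : CLe C g (Data C g i) i β r.1 q.1 :=
  h.2 i β
theorem le_lb {r q : Cd C g} (h : r ≤ q) (i : J) : Lb C g i r.1 q.1 := ⟨h.1, fun i _ => h.2 i⟩

theorem le_nN {r q : Cd C g} (h : r ≤ q) {τ x} (hx : nN q.1 τ x) : nN r.1 τ x := h.1.nN hx
theorem le_lL {r q : Cd C g} (h : r ≤ q) {τ x y} (hx : lL q.1 τ x y) : lL r.1 τ x y :=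
  h.1.lL q.bv hx
theorem le_wL {r q : Cd C g} (h : r ≤ q) {τ x y} (hx : wL q.1 τ x y) : wL r.1 τ x y :=
  wL_mono h.1 q.bv hx

instance : Nonempty (Cd C g) := ⟨⟨∅, by
  refine ⟨⟨fun τ => ?_, fun h => by simp at h, fun h => by simp [lL] at h⟩, fun i β => ?_⟩
  · constructor <;> intros <;> simp_all [lL, nN]
  · exact CV_none (by simp) (by simp)⟩⟩

open Classical in
/-- restriction -/
noncomputable def res (j : J) (p : Rep J L) : Rep J L := p.filter (bel j)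

theorem mem_res {j : J} {p : Rep J L} {a : Atom J L} : a ∈ res j p ↔ a ∈ p ∧ bel j a := by
  classical
  simp [res]

theorem res_congr {j : J} (p : Rep J L) : ∀ a, bel j a → (a ∈ p ↔ a ∈ res j p) := by
  intro a ha
  rw [mem_res]
  exact ⟨fun h => ⟨h, ha⟩, fun h => h.1⟩

theorem res_mem_V (p : Cd C g) (j : J) : res j p.1 ∈ (Data C g j).V :=
  mem_V.2 ⟨Vb_congr (res_congr p.1) (p.vb j), fun _ ha => (mem_res.1 ha).2⟩

/-- compatible conditions -/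
theorem cc_of_le {r q e : Cd C g} (h1 : r ≤ q) (h2 : r ≤ e) (j : J) :
    cc (Data C g j) q.1 e.1 :=
  ⟨res j r.1, res_mem_V r j, le_D.2 (Lb_congr_left (res_congr r.1) (le_lb h1 j)),
    le_D.2 (Lb_congr_left (res_congr r.1) (le_lb h2 j))⟩

open Classical in
/-- `q` below `j` and `p` from `j` on -/
noncomputable def glue (j : J) (q p : Rep J L) : Rep J L := q ∪ p.filter (fun a => ¬ bel j a)

theorem mem_glue {j : J} {q p : Rep J L} {a : Atom J L} :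
    a ∈ glue j q p ↔ a ∈ q ∨ (a ∈ p ∧ ¬ bel j a) := by
  classical
  simp [glue]

theorem glue_bel {j : J} {q p : Rep J L} {a : Atom J L} (ha : bel j a) :
    a ∈ glue j q p ↔ a ∈ q := by
  rw [mem_glue]; simp [ha]

theorem glue_not {j : J} {q p : Rep J L} (hq : ∀ a ∈ q, bel j a) {a : Atom J L}
    (ha : ¬ bel j a) : a ∈ glue j q p ↔ a ∈ p := by
  rw [mem_glue]
  constructor
  · rintro (h | h)
    · exact absurd (hq a h) ha
    · exact h.1
  · exact fun h => Or.inr ⟨h, ha⟩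

/-- gluing -/
theorem exists_glue {j : J} {q : Rep J L} (p : Cd C g) (hq : q ∈ (Data C g j).V)
    (h : (Data C g j).le q p.1) : ∃ r : Cd C g, r ≤ p ∧ r.1 = glue j q p.1 ∧ Lb C g j r.1 q := by
  rw [mem_V] at hq
  rw [le_D] at h
  obtain ⟨⟨hqB, hqC⟩, hqb⟩ := hq
  have hcg : ∀ a, bel j a → (a ∈ q ↔ a ∈ glue j q p.1) := fun a ha => (glue_bel ha).symm
  have hB : BV (glue j q p.1) := BV_congr j hcg hqB
  have hBL : BLe (glue j q p.1) p.1 := BLe_congr j hcg (fun _ _ => Iff.rfl) h.1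
  have h3 : ∀ i, j ≤ i → ∀ {β u v k}, Atom.ph i β u v k ∈ glue j q p.1 ↔ Atom.ph i β u v k ∈ p.1 :=
    fun i hi {β u v k} => glue_not hqb (not_lt.2 hi)
  have h4 : ∀ i, j ≤ i → ∀ {β t s}, Atom.pm i β t s ∈ glue j q p.1 ↔ Atom.pm i β t s ∈ p.1 :=
    fun i hi {β t s} => glue_not hqb (not_lt.2 hi)
  refine ⟨⟨glue j q p.1, hB, fun i β => ?_⟩, ⟨hBL, fun i β => ?_⟩, rfl, ?_⟩
  · by_cases hi : i < j
    · exact CV_congr (fun a ha => hcg a (bele_of_bel hi ha)) (hqC i hi β)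
    · exact CV_same p.bv hBL (h3 i (not_lt.1 hi)) (h4 i (not_lt.1 hi)) (p.cv i β)
  · by_cases hi : i < j
    · exact CLe_congr_left (fun a ha => hcg a (bele_of_bel hi ha)) (h.2 i hi β)
    · exact CLe_of_same (h3 i (not_lt.1 hi)) (h4 i (not_lt.1 hi)).2
  · exact Lb_congr_left hcg (Lb_refl j q)

end Pool.Agent.Helper126.Sus.Poset
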