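import Mathlib
import Pool.Agent.Helper126.Sus.Poset

/-!
# Extending the trees of a condition
-/

namespace Pool.Agent.Helper126.Sus.Ext

open Cardinal Pool.Agent.Helper126.Sus.Forc Pool.Agent.Helper126.Sus.Tree
  Pool.Agent.Helper126.Sus.Poset

set_option linter.unusedSectionVars false

variable {J L : Type}

open Classical in
noncomputable def uni (p q : Rep J L) : Rep J L := p ∪ q

theorem mem_uni {p q : Rep J L} {a : Atom J L} : a ∈ uni p q ↔ a ∈ p ∨ a ∈ q := by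
  classical
  simp [uni]

def isBase : Atom J L → Prop
  | .nd _ _ _ => True
  | .lt _ _ _ => True
  | .ph _ _ _ _ _ => False
  | .pm _ _ _ _ => False

theorem nb_ph {j : J} {β : L} {u v k} : ¬ isBase (Atom.ph j β u v k) := fun h => h
theorem nb_pm {j : J} {β : L} {u v} : ¬ isBase (Atom.pm j β u v) := fun h => h

variable {C : K1 → Set K1} {g : L → Nm J L} [LinearOrder J] [WellFoundedLT J]

/-- an extension of the trees only -/
def Bx (q p : Cd C g) : Prop := q ≤ p ∧ ∀ a, ¬ isBase a → (a ∈ q.1 ↔ a ∈ p.1)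

theorem Bx.refl (p : Cd C g) : Bx p p := ⟨le_rfl, fun _ _ => Iff.rfl⟩
theorem Bx.trans {r q p : Cd C g} (h : Bx r q) (h' : Bx q p) : Bx r p :=
  ⟨h.1.trans h'.1, fun a ha => (h.2 a ha).trans (h'.2 a ha)⟩
theorem Bx.ph {q p : Cd C g} (h : Bx q p) {j β u v k} :
    Atom.ph j β u v k ∈ q.1 ↔ Atom.ph j β u v k ∈ p.1 := h.2 _ nb_ph
theorem Bx.pm {q p : Cd C g} (h : Bx q p) {j β t s} :
    Atom.pm j β t s ∈ q.1 ↔ Atom.pm j β t s ∈ p.1 := h.2 _ nb_pm

theorem exists_ext (p : Cd C g) (A : Rep J L) (hA : ∀ a ∈ A, isBase a) (hB : BV (uni p.1 A))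
    (hL : BLe (uni p.1 A) p.1) : ∃ q : Cd C g, q.1 = uni p.1 A ∧ Bx q p := by
  have h1 : ∀ a, ¬ isBase a → (a ∈ uni p.1 A ↔ a ∈ p.1) := by
    intro a ha
    rw [mem_uni]
    exact ⟨fun h => h.resolve_right fun h' => ha (hA a h'), Or.inl⟩
  refine ⟨⟨uni p.1 A, hB, fun i β => ?_⟩, rfl, ⟨hL, fun i β => ?_⟩, h1⟩
  · exact CV_same p.bv hL (h1 _ nb_ph) (h1 _ nb_pm) (p.cv i β)
  · exact CLe_of_same (h1 _ nb_ph) (h1 _ nb_pm).2

theorem exists_bd (p : Rep J L) (f : Atom J L → ℕ) : ∃ m, ∀ a ∈ p, f a < m :=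
  ⟨p.sup f + 1, fun _ ha => Nat.lt_succ_of_le (Finset.le_sup (f := f) ha)⟩

theorem exists_fresh (p : Rep J L) : ∃ m, ∀ τ x a, Atom.nd τ x a ∈ p → x.2 < m ∧ a < m := by
  obtain ⟨m, hm⟩ := exists_bd p fun
    | .nd _ x a => max x.2 a
    | _ => 0
  refine ⟨m, fun τ x a h => ?_⟩
  have := hm _ h
  exact ⟨(le_max_left _ _).trans_lt this, (le_max_right _ _).trans_lt this⟩

/-- add a node on top -/
theorem exists_top (p : Cd C g) (τ : Bool) (y : Node) (hy : ¬ nN p.1 τ y) {D : Node → Prop}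
    (h1 : ∀ a, D a → nN p.1 τ a ∧ a.1 < y.1)
    (h2 : ∀ a b, D a → D b → a.1 < b.1 → lL p.1 τ a b) (h3 : ∀ a b, D a → D b → a.1 = b.1 → a = b)
    (h4 : ∀ a b, lL p.1 τ a b → D b → D a) :
    ∃ q : Cd C g, Bx q p ∧ (∀ x, nN q.1 τ x ↔ nN p.1 τ x ∨ x = y) ∧
      (∀ a b, lL q.1 τ a b ↔ lL p.1 τ a b ∨ (b = y ∧ D a)) := by
  classical
  obtain ⟨m, hm⟩ := exists_fresh p.1
  have hfin : {a | D a}.Finite := by
    refine Set.Finite.subset (p.1.finite_toSet.image fun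
      | .nd _ x _ => x
      | _ => y) fun a ha => ?_
    obtain ⟨c, hc⟩ := (h1 a ha).1
    exact ⟨_, hc, rfl⟩
  let A : Rep J L := insert (Atom.nd τ y m) (hfin.toFinset.image fun a => Atom.lt τ a y)
  have hA : ∀ a, a ∈ A ↔ a = Atom.nd τ y m ∨ ∃ x, D x ∧ a = Atom.lt τ x y := by
    intro a
    simp only [A, Finset.mem_insert, Finset.mem_image, Set.Finite.mem_toFinset, Set.mem_ofPred_eq]
    constructor
    · rintro (h | ⟨x, hx, rfl⟩)
      · exact Or.inl h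
      · exact Or.inr ⟨x, hx, rfl⟩
    · rintro (h | ⟨x, hx, rfl⟩)
      · exact Or.inl h
      · exact Or.inr ⟨x, hx, rfl⟩
  have e1 : ∀ σ x c, Atom.nd σ x c ∈ uni p.1 A ↔ Atom.nd σ x c ∈ p.1 ∨ (σ = τ ∧ x = y ∧ c = m) := by
    intro σ x c
    rw [mem_uni, hA]
    simp
  have e2 : ∀ σ a b, lL (uni p.1 A) σ a b ↔ lL p.1 σ a b ∨ (σ = τ ∧ b = y ∧ D a) := by
    intro σ a b
    unfold lL
    rw [mem_uni, hA]
    simp only [reduceCtorEq, Atom.lt.injEq, false_or]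
    constructor
    · rintro (h | ⟨x, hx, rfl, rfl, rfl⟩)
      · exact Or.inl h
      · exact Or.inr ⟨rfl, rfl, hx⟩
    · rintro (h | ⟨rfl, rfl, hx⟩)
      · exact Or.inl h
      · exact Or.inr ⟨a, hx, rfl, rfl, rfl⟩
  have e3 : ∀ σ x, nN (uni p.1 A) σ x ↔ nN p.1 σ x ∨ (σ = τ ∧ x = y) := by
    intro σ x
    constructor
    · rintro ⟨c, hc⟩
      rcases (e1 σ x c).1 hc with h | ⟨h, h', _⟩
      · exact Or.inl ⟨c, h⟩
      · exact Or.inr ⟨h, h'⟩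
    · rintro (⟨c, hc⟩ | ⟨rfl, rfl⟩)
      · exact ⟨c, (e1 σ x c).2 (Or.inl hc)⟩
      · exact ⟨m, (e1 _ _ m).2 (Or.inr ⟨rfl, rfl, rfl⟩)⟩
  have hB : BV (uni p.1 A) := by
    refine ⟨fun σ => ?_, fun {σ x a b} ha hb => ?_, fun {x z a} hl ha hb => ?_⟩
    · by_cases hσ : σ = τ
      · subst hσ
        exact ((p.bv.ft σ).top hy h1 h2 h3 h4).congr (fun x => by simp [e3]) (fun x z => by simp [e2])
      · exact (p.bv.ft σ).congr (fun x => by simp [e3, hσ]) (fun x z => by simp [e2, hσ])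
    · rw [e1] at ha hb
      rcases ha with ha | ⟨rfl, rfl, rfl⟩ <;> rcases hb with hb | ⟨h5, h6, h7⟩
      · exact p.bv.fn ha hb
      · subst h5 h6; exact absurd ⟨_, ha⟩ hy
      · exact absurd ⟨_, hb⟩ hy
      · exact h7.symm
    · rw [e1] at ha hb
      rw [e2] at hl
      rcases hl with hl | ⟨h5, rfl, hl⟩
      · rcases ha with ha | ⟨h5, h6, h7⟩
        · rcases hb with hb | ⟨h5, h6, h7⟩
          · exact p.bv.sp hl ha hb
          · subst h7; exact absurd (hm _ _ _ ha).2 (lt_irrefl _)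
        · subst h5 h6
          exact hy ((p.bv.ft _).nl hl)
      · subst h5
        rcases hb with hb | ⟨h5, h6, h7⟩
        · exact hy ⟨_, hb⟩
        · rcases ha with ha | ⟨h8, h9, h10⟩
          · subst h7; exact absurd (hm _ _ _ ha).2 (lt_irrefl _)
          · subst h9; exact hy (h1 _ hl).1
  have hL : BLe (uni p.1 A) p.1 := by
    refine ⟨fun {σ x a} h => (e1 σ x a).2 (Or.inl h), fun {σ x z} hx hz => ?_⟩
    rw [e2]
    refine ⟨fun h => h.resolve_right ?_, Or.inl⟩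
    rintro ⟨rfl, rfl, _⟩
    exact hy hz
  obtain ⟨q, hq, hbx⟩ := exists_ext p A (fun a ha => by
    rcases (hA a).1 ha with rfl | ⟨x, _, rfl⟩ <;> trivial) hB hL
  refine ⟨q, hbx, fun x => ?_, fun a b => ?_⟩
  · rw [hq, e3]; simp
  · rw [hq, e2]; simp

/-- declare a node -/
theorem exists_nd (p : Cd C g) (τ : Bool) (y : Node) : ∃ q : Cd C g, Bx q p ∧ nN q.1 τ y := by
  by_cases hy : nN p.1 τ y
  · exact ⟨p, Bx.refl p, hy⟩
  · obtain ⟨q, h1, h2, _⟩ := exists_top p τ y hy (D := fun _ => False) (fun _ h => h.elim)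
      (fun _ _ h => h.elim) (fun _ _ h => h.elim) (fun _ _ _ h => h.elim)
    exact ⟨q, h1, (h2 y).2 (Or.inr rfl)⟩

/-- a new node above a given one -/
theorem exists_above (p : Cd C g) (τ : Bool) {x : Node} (hx : nN p.1 τ x) {μ : K1}
    (hμ : x.1 < μ) : ∃ q : Cd C g, Bx q p ∧ ∃ y : Node, y.1 = μ ∧ ¬ nN p.1 τ y ∧ nN q.1 τ y ∧
      (∀ z, nN q.1 τ z ↔ nN p.1 τ z ∨ z = y) ∧
      (∀ z, lL q.1 τ z y ↔ wL p.1 τ z x) := by
  obtain ⟨m, hm⟩ := exists_fresh p.1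
  have hy : ¬ nN p.1 τ ((μ, m) : Node) := by
    rintro ⟨a, ha⟩
    exact absurd (hm _ _ _ ha).1 (lt_irrefl _)
  have hft := p.bv.ft τ
  obtain ⟨q, h1, h2, h3⟩ := exists_top p τ (μ, m) hy (D := fun z => wL p.1 τ z x)
    (by
      rintro a (rfl | h)
      · exact ⟨hx, hμ⟩
      · exact ⟨hft.nl h, (hft.lv h).trans hμ⟩)
    (by
      rintro a b (rfl | h) (rfl | h') hab
      · exact absurd hab (lt_irrefl _)
      · exact absurd (hft.lv h') (not_lt.2 hab.le)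
      · exact h
      · exact hft.cp h h' hab)
    (by
      rintro a b (rfl | h) (rfl | h') hab
      · rfl
      · exact absurd (hft.lv h') (by rw [hab]; exact lt_irrefl _)
      · exact absurd (hft.lv h) (by rw [hab]; exact lt_irrefl _)
      · exact hft.uq h h' hab)
    (by
      rintro a b hab (rfl | h)
      · exact Or.inr hab
      · exact Or.inr (hft.tr hab h))
  refine ⟨q, h1, (μ, m), rfl, hy, (h2 _).2 (Or.inr rfl), h2, fun z => ?_⟩
  rw [h3]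
  constructor
  · rintro (h | h)
    · exact absurd (hft.nr h) hy
    · exact h.2
  · exact fun h => Or.inr ⟨rfl, h⟩

/-! ### inserting a level -/

theorem fin_pred (p : Rep J L) (τ : Bool) (y : Node) : {z | lL p τ z y}.Finite := by
  have : {z | lL p τ z y} = (fun z => Atom.lt τ z y) ⁻¹' (p : Set (Atom J L)) := rfl
  rw [this]
  exact p.finite_toSet.preimage (by intro a _ b _ h; simpa using h)

theorem fin_node (p : Rep J L) (τ : Bool) : {x | nN p τ x}.Finite := by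
  rcases isEmpty_or_nonempty Node with h | ⟨⟨x0⟩⟩
  · exact Set.toFinite _
  · refine Set.Finite.subset (p.finite_toSet.image fun
      | .nd _ x _ => x
      | _ => x0) fun a ha => ?_
    obtain ⟨c, hc⟩ := ha
    exact ⟨_, hc, rfl⟩

/-- the predecessors below level `η` -/
noncomputable def lp (p : Rep J L) (τ : Bool) (η : K1) (y : Node) : Finset Node :=
  ((fin_pred p τ y).subset (t := {z | lL p τ z y ∧ z.1 < η}) fun _ h => h.1).toFinset

theorem mem_lp {p : Rep J L} {τ : Bool} {η : K1} {y z : Node} :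
    z ∈ lp p τ η y ↔ lL p τ z y ∧ z.1 < η := by simp [lp]

theorem exists_ins (p : Cd C g) (τ : Bool) (η : K1) (h : Finset Node → ℕ) (c : ℕ)
    (hf : ∀ P, ¬ nN p.1 τ (η, h P))
    (hi : ∀ P P' : Finset Node, (∀ z ∈ P, z.1 < η) → (∀ z ∈ P', z.1 < η) → h P = h P' → P = P')
    (hc : ∀ x a, Atom.nd τ x a ∈ p.1 → a ≠ c) :
    ∃ q : Cd C g, Bx q p ∧
      (∀ σ x a, Atom.nd σ x a ∈ q.1 ↔ Atom.nd σ x a ∈ p.1 ∨ (σ = τ ∧ a = c ∧
        ∃ y, Lack (nN p.1 τ) (lL p.1 τ) η y ∧ x = (η, h (lp p.1 τ η y)))) ∧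
      (∀ σ x y, lL q.1 σ x y ↔ lL p.1 σ x y ∨ (σ = τ ∧
        ((∃ z, Lack (nN p.1 τ) (lL p.1 τ) η z ∧ y = (η, h (lp p.1 τ η z)) ∧ lL p.1 τ x z ∧
          x.1 < η) ∨ (Lack (nN p.1 τ) (lL p.1 τ) η y ∧ x = (η, h (lp p.1 τ η y)))))) := by
  classical
  have hft := p.bv.ft τ
  let ι : Node → Node := fun y => (η, h (lp p.1 τ η y))
  let Lk : Node → Prop := Lack (nN p.1 τ) (lL p.1 τ) η
  have hfin : {y | Lk y}.Finite := (fin_node p.1 τ).subset fun _ h => h.1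
  let A : Rep J L := hfin.toFinset.biUnion fun y =>
    {Atom.nd τ (ι y) c, Atom.lt τ (ι y) y} ∪ (lp p.1 τ η y).image fun z => Atom.lt τ z (ι y)
  have hA : ∀ a, a ∈ A ↔ ∃ y, Lk y ∧ (a = Atom.nd τ (ι y) c ∨ a = Atom.lt τ (ι y) y ∨
      ∃ z, (lL p.1 τ z y ∧ z.1 < η) ∧ a = Atom.lt τ z (ι y)) := by
    intro a
    simp only [A, Finset.mem_biUnion, Set.Finite.mem_toFinset, Set.mem_ofPred_eq, Finset.mem_union,
      Finset.mem_insert, Finset.mem_singleton, Finset.mem_image, mem_lp]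
    constructor
    · rintro ⟨y, hy, (h1 | h1) | ⟨z, hz, rfl⟩⟩
      · exact ⟨y, hy, Or.inl h1⟩
      · exact ⟨y, hy, Or.inr (Or.inl h1)⟩
      · exact ⟨y, hy, Or.inr (Or.inr ⟨z, hz, rfl⟩)⟩
    · rintro ⟨y, hy, h1 | h1 | ⟨z, hz, rfl⟩⟩
      · exact ⟨y, hy, Or.inl (Or.inl h1)⟩
      · exact ⟨y, hy, Or.inl (Or.inr h1)⟩
      · exact ⟨y, hy, Or.inr ⟨z, hz, rfl⟩⟩
  have e1 : ∀ σ x a, Atom.nd σ x a ∈ uni p.1 A ↔ Atom.nd σ x a ∈ p.1 ∨ (σ = τ ∧ a = c ∧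
        ∃ y, Lk y ∧ x = ι y) := by
    intro σ x a
    rw [mem_uni, hA]
    refine or_congr Iff.rfl ?_
    constructor
    · rintro ⟨y, hy, h1 | h1 | ⟨z, _, h1⟩⟩
      · simp only [Atom.nd.injEq] at h1
        exact ⟨h1.1, h1.2.2, y, hy, h1.2.1⟩
      · simp at h1
      · simp at h1
    · rintro ⟨rfl, rfl, y, hy, rfl⟩
      exact ⟨y, hy, Or.inl rfl⟩
  have e2 : ∀ σ x y, lL (uni p.1 A) σ x y ↔ lL p.1 σ x y ∨ (σ = τ ∧
        ((∃ z, Lk z ∧ y = ι z ∧ lL p.1 τ x z ∧ x.1 < η) ∨ (Lk y ∧ x = ι y))) := by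
    intro σ x y
    unfold lL
    rw [mem_uni, hA]
    refine or_congr Iff.rfl ?_
    constructor
    · rintro ⟨w, hw, h1 | h1 | ⟨z, hz, h1⟩⟩
      · simp at h1
      · simp only [Atom.lt.injEq] at h1
        obtain ⟨rfl, rfl, rfl⟩ := h1
        exact ⟨rfl, Or.inr ⟨hw, rfl⟩⟩
      · simp only [Atom.lt.injEq] at h1
        obtain ⟨rfl, rfl, rfl⟩ := h1
        exact ⟨rfl, Or.inl ⟨w, hw, rfl, hz.1, hz.2⟩⟩
    · rintro ⟨rfl, ⟨z, hz, rfl, h1, h2⟩ | ⟨hy, rfl⟩⟩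
      · exact ⟨z, hz, Or.inr (Or.inr ⟨x, ⟨h1, h2⟩, rfl⟩)⟩
      · exact ⟨y, hy, Or.inr (Or.inl rfl)⟩
  have e3 : ∀ σ x, nN (uni p.1 A) σ x ↔ nN p.1 σ x ∨ (σ = τ ∧ ∃ y, Lk y ∧ x = ι y) := by
    intro σ x
    constructor
    · rintro ⟨a, ha⟩
      rcases (e1 σ x a).1 ha with h1 | ⟨h1, _, h2⟩
      · exact Or.inl ⟨a, h1⟩
      · exact Or.inr ⟨h1, h2⟩
    · rintro (⟨a, ha⟩ | ⟨rfl, h1⟩)
      · exact ⟨a, (e1 σ x a).2 (Or.inl ha)⟩
      · exact ⟨c, (e1 _ _ c).2 (Or.inr ⟨rfl, rfl, h1⟩)⟩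
  have hins := hft.insert (η := η) (ι := ι) (fun _ _ => rfl) (fun y _ => hf _)
    (fun y y' _ _ h1 z hz => by
      have h2 : lp p.1 τ η y = lp p.1 τ η y' := by
        refine hi _ _ (fun z hz => (mem_lp.1 hz).2) (fun z hz => (mem_lp.1 hz).2) ?_
        exact congrArg Prod.snd h1
      have h3 := congrArg (fun S => z ∈ S) h2
      simp only [mem_lp, hz, and_true] at h3
      exact h3.to_iff)
    (fun x y _ h1 h2 => by
      have h2 : lp p.1 τ η x = lp p.1 τ η y := by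
        ext z
        rw [mem_lp, mem_lp]
        refine and_congr_left fun hz => ⟨fun h3 => hft.tr h3 h1, fun h3 => ?_⟩
        exact hft.cp h3 h1 (hz.trans h2)
      show ((η, h (lp p.1 τ η x)) : Node) = (η, h (lp p.1 τ η y))
      rw [h2])
  have hB : BV (uni p.1 A) := by
    refine ⟨fun σ => ?_, fun {σ x a b} ha hb => ?_, fun {x z a} hl ha hb => ?_⟩
    · by_cases hσ : σ = τ
      · subst hσ
        refine hins.congr (fun x => ?_) (fun x z => ?_)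
        · rw [e3]; simp [Lk]
        · rw [e2]; simp [Lk]
      · exact (p.bv.ft σ).congr (fun x => by simp [e3, hσ]) (fun x z => by simp [e2, hσ])
    · rw [e1] at ha hb
      rcases ha with ha | ⟨rfl, rfl, y, hy, rfl⟩ <;> rcases hb with hb | ⟨h5, h6, h7⟩
      · exact p.bv.fn ha hb
      · obtain ⟨y, hy, rfl⟩ := h7
        subst h5; exact absurd ⟨_, ha⟩ (hf _)
      · exact absurd ⟨_, hb⟩ (hf _)
      · exact h6.symm
    · rw [e1] at ha hb
      rw [e2] at hl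
      have hnp : ∀ σ y b, σ = τ → Atom.nd σ (ι y) b ∉ p.1 := by
        rintro σ y b rfl h1
        exact hf _ ⟨_, h1⟩
      rcases hl with hl | ⟨rfl, ⟨w, hw, rfl, h1, h2⟩ | ⟨h1, rfl⟩⟩
      · rcases ha with ha | ⟨h5, h6, w, hw, rfl⟩
        · rcases hb with hb | ⟨h5, h6, w, hw, rfl⟩
          · exact p.bv.sp hl ha hb
          · subst h5; exact hf _ ((p.bv.ft _).nr hl)
        · subst h5; exact hf _ ((p.bv.ft _).nl hl)
      · rcases hb with hb | ⟨_, h6, _⟩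
        · exact hnp _ _ _ rfl hb
        · rcases ha with ha | ⟨_, _, w', hw', rfl⟩
          · exact hc _ _ ha h6
          · exact hf _ (hft.nl h1)
      · rcases ha with ha | ⟨_, h6, _⟩
        · exact hnp _ _ _ rfl ha
        · rcases hb with hb | ⟨_, _, w', hw', rfl⟩
          · exact hc _ _ hb h6
          · exact hf _ h1.1
  have hL : BLe (uni p.1 A) p.1 := by
    refine ⟨fun {σ x a} h => (e1 σ x a).2 (Or.inl h), fun {σ x z} hx hz => ?_⟩
    rw [e2]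
    refine ⟨fun h => h.resolve_right ?_, Or.inl⟩
    rintro ⟨rfl, ⟨w, hw, rfl, _⟩ | ⟨_, rfl⟩⟩
    · exact hf _ hz
    · exact hf _ hx
  obtain ⟨q, hq, hbx⟩ := exists_ext p A (fun a ha => by
    rcases (hA a).1 ha with ⟨y, _, rfl | rfl | ⟨z, _, rfl⟩⟩ <;> trivial) hB hL
  refine ⟨q, hbx, fun σ x a => ?_, fun σ x y => ?_⟩
  · rw [hq, e1]
  · rw [hq, e2]

end Pool.Agent.Helper126.Sus.Ext
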