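import Mathlib
import Pool.Agent.Helper126.Sus.Ext
import Pool.Agent.Helper126.Lam.Cohen

/-!
# The countable ordinals
-/

namespace Pool.Agent.Helper126.Sus.Om

open Cardinal Pool.Agent.Helper126.Sus.Forc Pool.Agent.Helper126.Sus.Tree

theorem exists_bound (S : Set K1) (hS : S.Countable) : ∃ u, ∀ s ∈ S, s < u :=
  Pool.Agent.Helper126.Lam.Cohen.exists_bound S hS

theorem countable_Iio (α : K1) : (Set.Iio α).Countable :=
  Pool.Agent.Helper126.Lam.Ccc.countable_Iio α

theorem countable_Iic (α : K1) : (Set.Iic α).Countable := by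
  have : Set.Iic α = Set.Iio α ∪ {α} := by
    ext x; simp [le_iff_lt_or_eq]
  rw [this]
  exact (countable_Iio α).union (Set.countable_singleton α)

theorem exists_min : ∃ b : K1, ∀ x, b ≤ x := by
  obtain ⟨u, _⟩ := exists_bound ∅ Set.countable_empty
  obtain ⟨b, _, hb⟩ := WellFounded.has_min (wellFounded_lt (α := K1)) Set.univ ⟨u, trivial⟩
  exact ⟨b, fun x => not_lt.1 (hb x trivial)⟩

theorem exists_gt (x : K1) : ∃ y, x < y := by
  obtain ⟨u, hu⟩ := exists_bound {x} (Set.countable_singleton x)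
  exact ⟨u, hu x rfl⟩

/-- the successor -/
theorem exists_succ (x : K1) : ∃ σ, x < σ ∧ (∀ y, x < y → σ ≤ y) ∧
    ∀ α, Order.IsSuccLimit α → x < α → σ < α := by
  obtain ⟨σ, hσ, hmin⟩ := WellFounded.has_min (wellFounded_lt (α := K1)) {y | x < y} (exists_gt x)
  refine ⟨σ, hσ, fun y hy => not_lt.1 (hmin y hy), fun α hα hx => ?_⟩
  refine lt_of_le_of_ne (not_lt.1 (hmin α hx)) fun h => ?_
  subst h
  exact hα.2 x ⟨hσ, fun y h1 h2 => hmin y h1 h2⟩

theorem exists_limit (x : K1) : ∃ α, Order.IsSuccLimit α ∧ x < α := by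
  choose σ h1 _ _ using exists_succ
  let f : ℕ → K1 := fun n => σ^[n] x
  have hf : ∀ n, f n < f (n + 1) := fun n => by
    show σ^[n] x < σ^[n + 1] x
    rw [Function.iterate_succ_apply']
    exact h1 _
  obtain ⟨u, hu⟩ := exists_bound (Set.range f) (Set.countable_range f)
  obtain ⟨α, hα, hmin⟩ := WellFounded.has_min (wellFounded_lt (α := K1))
    {y | ∀ n, f n < y} ⟨u, fun n => hu _ ⟨n, rfl⟩⟩
  refine ⟨α, ⟨fun h => ?_, fun a ha => ?_⟩, hα 0⟩
  · exact absurd (h (hα 0).le) (not_le.2 (hα 0))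
  · have : ¬ ∀ n, f n < a := fun h => hmin a h ha.1
    push Not at this
    obtain ⟨n, hn⟩ := this
    exact ha.2 (hn.trans_lt (hf n)) (hα _)

theorem limit_gt_min {α b : K1} (hα : Order.IsSuccLimit α) (hb : ∀ x, b ≤ x) : b < α := by
  refine lt_of_le_of_ne (hb α) fun h => hα.1 fun x _ => ?_
  rw [← h]; exact hb x

/-- finitely many elements below a limit -/
theorem exists_lt_limit {α : K1} (hα : Order.IsSuccLimit α) {S : Set K1} (hS : S.Finite)
    (h : ∀ s ∈ S, s < α) : ∃ μ < α, ∀ s ∈ S, s < μ := by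
  induction S, hS using Set.Finite.induction_on with
  | empty =>
    obtain ⟨b, hb⟩ := exists_min
    exact ⟨b, limit_gt_min hα hb, by simp⟩
  | insert _ _ ih =>
    rename_i a S _ _
    obtain ⟨μ, h1, h2⟩ := ih fun s hs => h s (Or.inr hs)
    obtain ⟨σ, h3, _, h4⟩ := exists_succ a
    refine ⟨max μ σ, max_lt h1 (h4 α hα (h a (Or.inl rfl))), ?_⟩
    rintro s (rfl | hs)
    · exact h3.trans_le (le_max_right _ _)
    · exact (h2 s hs).trans_le (le_max_left _ _)

/-- uniformization of finitely many bounds -/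
theorem exists_unif {ι : Type} {α : K1} (hα : Order.IsSuccLimit α) {F : Set ι} (hF : F.Finite)
    {Q : ι → K1 → Prop} (hm : ∀ i μ μ', μ ≤ μ' → Q i μ → Q i μ')
    (h : ∀ i ∈ F, ∃ μ < α, Q i μ) : ∃ μ < α, ∀ i ∈ F, Q i μ := by
  induction F, hF using Set.Finite.induction_on with
  | empty =>
    obtain ⟨b, hb⟩ := exists_min
    exact ⟨b, limit_gt_min hα hb, by simp⟩
  | insert _ _ ih =>
    rename_i a S _ _
    obtain ⟨μ, h1, h2⟩ := ih fun s hs => h s (Or.inr hs)
    obtain ⟨ν, h3, h4⟩ := h a (Or.inl rfl)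
    refine ⟨max μ ν, max_lt h1 h3, ?_⟩
    rintro s (rfl | hs)
    · exact hm _ _ _ (le_max_right _ _) h4
    · exact hm _ _ _ (le_max_left _ _) (h2 s hs)

/-- finitely many elements have an upper bound -/
theorem exists_sup {S : Set K1} (hS : S.Finite) : ∃ μ, ∀ s ∈ S, s < μ := exists_bound S hS.countable

theorem countable_nodes {S : Set K1} (hS : S.Countable) : {x : Node | x.1 ∈ S}.Countable := by
  have : {x : Node | x.1 ∈ S} = S ×ˢ Set.univ := by ext x; simp
  rw [this]
  exact hS.prod Set.countable_univ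

theorem countable_finsets {X : Type} {S : Set X} (hS : S.Countable) :
    {F : Finset X | ∀ x ∈ F, x ∈ S}.Countable := by
  classical
  have h1 : {F : Finset X | ∀ x ∈ F, x ∈ S} ⊆
      Set.range (fun F : Finset S => F.map (Function.Embedding.subtype _)) := by
    intro F hF
    refine ⟨F.subtype (· ∈ S), ?_⟩
    ext x
    simp only [Finset.mem_map, Finset.mem_subtype, Function.Embedding.coe_subtype, Subtype.exists,
      exists_and_left, exists_prop, exists_eq_right_right]
    exact ⟨fun h => h.1, fun h => ⟨h, hF x h⟩⟩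
  have : Countable S := hS
  exact (Set.countable_range _).mono h1

theorem exists_enc (η : K1) : ∃ e : Finset Node → ℕ, ∀ P P' : Finset Node, (∀ z ∈ P, z.1 < η) →
    (∀ z ∈ P', z.1 < η) → e P = e P' → P = P' := by
  have h := countable_finsets (countable_nodes (countable_Iio η))
  rw [Set.countable_iff_exists_injOn] at h
  obtain ⟨e, he⟩ := h
  exact ⟨e, fun P P' h1 h2 h3 => he h1 h2 h3⟩

/-! ### Ladder systems -/

/-- a ladder system -/
structure Lad (C : K1 → Set K1) : Prop where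
  lt : ∀ {α ξ}, Order.IsSuccLimit α → ξ ∈ C α → ξ < α
  cof : ∀ {α η}, Order.IsSuccLimit α → η < α → ∃ ξ ∈ C α, η ≤ ξ
  fin : ∀ {α η}, Order.IsSuccLimit α → η < α → {ξ ∈ C α | ξ < η}.Finite

theorem exists_lad : ∃ C : K1 → Set K1, Lad C :=
  ⟨Pool.Agent.Helper126.Lam.Cohen.Cg, fun {α ξ} h h' =>
    (Pool.Agent.Helper126.Lam.Cohen.Cg_spec h).1 ξ h', fun {α η} h h' =>
    (Pool.Agent.Helper126.Lam.Cohen.Cg_spec h).2.1 η h', fun {α η} h h' =>
    (Pool.Agent.Helper126.Lam.Cohen.Cg_spec h).2.2 η h'⟩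

end Pool.Agent.Helper126.Sus.Om
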