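import Mathlib
import Pool.Agent.Helper126.Sus.Om

/-!
# Dense sets of conditions
-/

namespace Pool.Agent.Helper126.Sus.Dense

open Cardinal Pool.Agent.Helper126.Sus.Forc Pool.Agent.Helper126.Sus.Tree
  Pool.Agent.Helper126.Sus.Poset Pool.Agent.Helper126.Sus.Ext Pool.Agent.Helper126.Sus.Om

set_option linter.unusedSectionVars false

variable {J L : Type} {C : K1 → Set K1} {g : L → Nm J L} [LinearOrder J] [WellFoundedLT J]

theorem exists_level1 (p : Cd C g) (τ : Bool) (η : K1) : ∃ q : Cd C g, Bx q p ∧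
    (∀ x, nN q.1 τ x → η < x.1 → ∃ z, lL q.1 τ z x ∧ z.1 = η) ∧
    (∀ σ, σ ≠ τ → (∀ x, nN q.1 σ x ↔ nN p.1 σ x)) := by
  obtain ⟨m, hm⟩ := exists_fresh p.1
  obtain ⟨e, he⟩ := exists_enc η
  obtain ⟨q, h1, h2, h3⟩ := exists_ins p τ η (fun P => m + e P) m
    (fun P ⟨a, ha⟩ => absurd (hm _ _ _ ha).1 (by simp))
    (fun P P' h h' h'' => he P P' h h' (by simpa using h''))
    (fun x a ha => (hm _ _ _ ha).2.ne)
  have hnd : ∀ σ x, nN q.1 σ x ↔ nN p.1 σ x ∨ (σ = τ ∧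
      ∃ y, Lack (nN p.1 τ) (lL p.1 τ) η y ∧ x = (η, m + e (lp p.1 τ η y))) := by
    intro σ x
    constructor
    · rintro ⟨a, ha⟩
      rcases (h2 σ x a).1 ha with h4 | ⟨h4, _, h5⟩
      · exact Or.inl ⟨a, h4⟩
      · exact Or.inr ⟨h4, h5⟩
    · rintro (⟨a, ha⟩ | ⟨h4, h5⟩)
      · exact ⟨a, (h2 _ _ _).2 (Or.inl ha)⟩
      · exact ⟨m, (h2 _ _ _).2 (Or.inr ⟨h4, rfl, h5⟩)⟩
  refine ⟨q, h1, fun x hx hη => ?_, fun σ hσ x => ?_⟩
  · have hx' : nN p.1 τ x := by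
      rcases (hnd τ x).1 hx with h4 | ⟨_, y, _, rfl⟩
      · exact h4
      · exact absurd hη (lt_irrefl _)
    by_cases hl : ∃ z, lL p.1 τ z x ∧ z.1 = η
    · obtain ⟨z, hz, h4⟩ := hl
      exact ⟨z, (h3 _ _ _).2 (Or.inl hz), h4⟩
    · exact ⟨(η, m + e (lp p.1 τ η x)), (h3 _ _ _).2 (Or.inr ⟨rfl, Or.inr ⟨⟨hx', hη, hl⟩, rfl⟩⟩), rfl⟩
  · rw [hnd]; simp [hσ]

theorem exists_level (p : Cd C g) (η : K1) : ∃ q : Cd C g, Bx q p ∧
    ∀ τ x, nN q.1 τ x → η < x.1 → ∃ z, lL q.1 τ z x ∧ z.1 = η := by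
  obtain ⟨q, h1, h2, _⟩ := exists_level1 p false η
  obtain ⟨r, h4, h5, h6⟩ := exists_level1 q true η
  refine ⟨r, h4.trans h1, fun τ x hx hη => ?_⟩
  cases τ with
  | true => exact h5 x hx hη
  | false =>
    obtain ⟨z, hz, h7⟩ := h2 x ((h6 false (by simp) x).1 hx) hη
    exact ⟨z, le_lL h4.1 hz, h7⟩

theorem exists_pred (p : Cd C g) {τ : Bool} {x : Node} (hx : nN p.1 τ x) {η : K1} (hη : η < x.1) :
    ∃ q : Cd C g, Bx q p ∧ ∃ z, lL q.1 τ z x ∧ z.1 = η := by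
  obtain ⟨q, h1, h2⟩ := exists_level p η
  exact ⟨q, h1, h2 τ x (le_nN h1.1 hx) hη⟩

/-! ### extensions which hardly change the late coordinates -/

def Exs (j : J) (B : Set L) (q p : Cd C g) : Prop :=
  q ≤ p ∧ ∀ a, ¬ bel j a → (∀ β ∈ B, ∀ u v k, a ≠ Atom.ph j β u v k) → (a ∈ q.1 ↔ a ∈ p.1)

theorem Exs.refl (j : J) (B : Set L) (p : Cd C g) : Exs j B p p :=
  ⟨le_rfl, fun _ _ _ => Iff.rfl⟩

theorem Exs.trans {j : J} {B : Set L} {r q p : Cd C g} (h : Exs j B r q) (h' : Exs j B q p) :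
    Exs j B r p :=
  ⟨h.1.trans h'.1, fun a ha hB => (h.2 a ha hB).trans (h'.2 a ha hB)⟩

theorem Exs.mono {j : J} {B B' : Set L} (hB : B ⊆ B') {q p : Cd C g} (h : Exs j B q p) :
    Exs j B' q p := ⟨h.1, fun a ha h' => h.2 a ha fun β hβ => h' β (hB hβ)⟩

theorem Bx.exs {q p : Cd C g} (h : Bx q p) (j : J) (B : Set L) : Exs j B q p := by
  refine ⟨h.1, fun a ha _ => h.2 a ?_⟩
  cases a with
  | nd => exact absurd trivial ha
  | lt => exact absurd trivial ha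
  | ph => exact nb_ph
  | pm => exact nb_pm

theorem Exs.pm {j : J} {B : Set L} {q p : Cd C g} (h : Exs j B q p) {i : J} (hi : j ≤ i)
    {β t s} : Atom.pm i β t s ∈ q.1 ↔ Atom.pm i β t s ∈ p.1 :=
  h.2 _ (not_lt.2 hi) (by simp)

theorem Exs.ph {j : J} {B : Set L} {q p : Cd C g} (h : Exs j B q p) {i : J} (hi : j < i)
    {β u v k} : Atom.ph i β u v k ∈ q.1 ↔ Atom.ph i β u v k ∈ p.1 :=
  h.2 _ (not_lt.2 hi.le) (by
    intro β' _ u' v' k' h'
    simp only [Atom.ph.injEq] at h'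
    exact hi.ne' h'.1)

theorem Exs.ph' {j : J} {B : Set L} {q p : Cd C g} (h : Exs j B q p)
    {β u v k} (hβ : β ∉ B) : Atom.ph j β u v k ∈ q.1 ↔ Atom.ph j β u v k ∈ p.1 :=
  h.2 _ (lt_irrefl j) (by
    intro β' hβ' u' v' k' h'
    simp only [Atom.ph.injEq] at h'
    exact hβ (h'.2.1 ▸ hβ'))

theorem insert_ph (p : Cd C g) {j : J} {β : L} {u v : Node} (hu : nN p.1 false u)
    (hv : nN p.1 true v) (huv : u.1 = v.1) (hno : ¬ ∃ k, Atom.ph j β u v k ∈ p.1) (k : ℕ)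
    (hk : ∀ {t s}, Atom.pm j β t s ∈ p.1 → lL p.1 false u s → lL p.1 true v t → u.1 ∈ C t.1 →
      ∀ k', ∀ e ∈ (g β).N s t.1 u.1 k', cc (Data C g j) p.1 e → k = k') :
    ∃ q : Cd C g, Exs j {β} q p ∧ Atom.ph j β u v k ∈ q.1 := by
  let q : Rep J L := uni p.1 {Atom.ph j β u v k}
  have hm : ∀ a, a ∈ q ↔ a ∈ p.1 ∨ a = Atom.ph j β u v k := fun a => by
    simp [q, mem_uni]
  have hcg : ∀ a, a ≠ Atom.ph j β u v k → (a ∈ p.1 ↔ a ∈ q) := fun a ha => by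
    rw [hm]; simp [ha]
  have hcj : ∀ a, bel j a → (a ∈ p.1 ↔ a ∈ q) := fun a ha => hcg a (by
    rintro rfl
    exact lt_irrefl j ha)
  have hBV : BV q := BV_congr j hcj p.bv
  have hBL : BLe q p.1 := BLe_congr j hcj (fun _ _ => Iff.rfl) (BLe.refl p.1)
  have hpm : ∀ {i β' t s}, Atom.pm i β' t s ∈ q ↔ Atom.pm i β' t s ∈ p.1 :=
    (hcg _ (by simp)).symm
  have hph : ∀ {i β' u' v' k'}, ¬ (i = j ∧ β' = β) →
      (Atom.ph i β' u' v' k' ∈ q ↔ Atom.ph i β' u' v' k' ∈ p.1) := by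
    intro i β' u' v' k' h
    refine (hcg _ ?_).symm
    intro h'
    simp only [Atom.ph.injEq] at h'
    exact h ⟨h'.1, h'.2.1⟩
  have hlL : ∀ {σ x y}, lL q σ x y ↔ lL p.1 σ x y := (hcg _ (by simp)).symm
  have hpq : ∀ a, a ∈ p.1 → a ∈ q := fun a ha => (hm a).2 (Or.inl ha)
  have hCV : ∀ i β', CV C g (Data C g i) i β' q := by
    intro i β'
    by_cases hi : i = j ∧ β' = β
    · obtain ⟨rfl, rfl⟩ := hi
      refine CV_mono p.bv hBL (fun h => hpq _ h) hpm (fun {u' v' k'} h => ?_)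
        (fun {u' v' k1 k2} h h' => ?_) (p.cv i β')
      · rcases (hm _).1 h with h | h
        · obtain ⟨h1, h2, h3⟩ := (p.cv i β').ph h
          exact ⟨hBL.nN h1, hBL.nN h2, h3⟩
        · simp only [Atom.ph.injEq] at h
          obtain ⟨_, _, rfl, rfl, rfl⟩ := h
          exact ⟨hBL.nN hu, hBL.nN hv, huv⟩
      · rcases (hm _).1 h with h1 | h1 <;> rcases (hm _).1 h' with h2 | h2
        · exact (p.cv i β').fn h1 h2
        · simp only [Atom.ph.injEq] at h2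
          obtain ⟨_, _, rfl, rfl, rfl⟩ := h2
          exact absurd ⟨_, h1⟩ hno
        · simp only [Atom.ph.injEq] at h1
          obtain ⟨_, _, rfl, rfl, rfl⟩ := h1
          exact absurd ⟨_, h2⟩ hno
        · simp only [Atom.ph.injEq] at h1 h2
          rw [h1.2.2.2.2, h2.2.2.2.2]
    · exact CV_same p.bv hBL (hph hi) hpm (p.cv i β')
  have hle : ∀ i β', CLe C g (Data C g i) i β' q p.1 := by
    intro i β'
    by_cases hi : i = j ∧ β' = β
    · obtain ⟨rfl, rfl⟩ := hi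
      refine ⟨fun h => hpq _ h, fun h => hpq _ h, ?_⟩
      intro t s u' v' k1 h1 h2 h3 h4 h5 h6 k' e he hce
      rcases (hm _).1 h2 with h2 | h2
      · exact absurd ⟨_, h2⟩ h3
      · simp only [Atom.ph.injEq] at h2
        obtain ⟨_, _, rfl, rfl, rfl⟩ := h2
        exact hk h1 (hlL.1 h4) (hlL.1 h5) h6 k' e he
          (cc_congr (fun a ha => (hcj a ha).symm) hce)
    · exact CLe_of_same (hph hi) hpm.2
  refine ⟨⟨q, hBV, hCV⟩, ⟨⟨hBL, hle⟩, fun a ha hB => ?_⟩, (hm _).2 (Or.inr rfl)⟩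
  exact (hcg a (hB β rfl u v k)).symm

theorem not_split {p : Rep J L} (hp : BV p) {τ : Bool} {v x y : Node} (h1 : lL p τ v x)
    (h2 : lL p τ v y) : ¬ Split p τ x y v.1 := by
  have hft := hp.ft τ
  rintro ⟨a, b, h3, h4, h5, h6, h7⟩
  have key : ∀ {c z : Node}, wL p τ c z → lL p τ v z → c.1 ≤ v.1 → wL p τ c v := by
    rintro c z (rfl | h8) h9 h10
    · exact absurd (hft.lv h9) (not_lt.2 h10)
    · rcases h10.lt_or_eq with h11 | h11
      · exact Or.inr (hft.cp h8 h9 h11)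
      · exact Or.inl (hft.uq h8 h9 h11)
  have h8 := key h3 h1 h6
  have h9 := key h4 h2 (h5 ▸ h6)
  rcases h8 with rfl | h8 <;> rcases h9 with rfl | h9
  · exact h7 rfl
  · exact absurd (hft.lv h9) (by rw [h5]; exact lt_irrefl _)
  · exact absurd (hft.lv h8) (by rw [h5]; exact lt_irrefl _)
  · exact h7 (hft.uq h8 h9 h5)

/-- decide the value of the uniformizing function at a pair of nodes -/
theorem exists_ph (p : Cd C g) (j : J) (β : L) {u v : Node} (hu : nN p.1 false u)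
    (hv : nN p.1 true v) (huv : u.1 = v.1) :
    ∃ q : Cd C g, Exs j {β} q p ∧ ∃ k, Atom.ph j β u v k ∈ q.1 := by
  by_cases hno : ∃ k, Atom.ph j β u v k ∈ p.1
  · exact ⟨p, Exs.refl _ _ _, hno⟩
  have hrel : ∀ {t s t0 s0}, Atom.pm j β t s ∈ p.1 → lL p.1 false u s → lL p.1 true v t →
      u.1 ∈ C t.1 → Atom.pm j β t0 s0 ∈ p.1 → lL p.1 false u s0 → lL p.1 true v t0 →
      u.1 ∈ C t0.1 → t.1 = t0.1 ∧ s = s0 := by
    intro t s t0 s0 h1 h2 h3 h4 h5 h6 h7 h8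
    have hfil : ∀ {t s}, lL p.1 false u s → lL p.1 true v t → ¬ Filled p.1 j β t s u.1 := by
      rintro t s h9 h10 ⟨u', v', k, h11, h12, h13, h14, h15⟩
      have e1 := (p.bv.ft false).uq h9 h11 h13.symm
      have e2 := (p.bv.ft true).uq h10 h12 (by rw [h14, huv])
      rw [← e1, ← e2] at h15
      exact hno ⟨k, h15⟩
    rcases (p.cv j β).saf h1 h5 u.1 h4 h8 with h | h | h | h | h
    · exact h
    · rw [huv] at h; exact absurd h (not_split p.bv h3 h7)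
    · exact absurd h (not_split p.bv h2 h6)
    · exact absurd h (hfil h2 h3)
    · exact absurd h (hfil h6 h7)
  by_cases hR : ∃ t s, Atom.pm j β t s ∈ p.1 ∧ lL p.1 false u s ∧ lL p.1 true v t ∧ u.1 ∈ C t.1
  · obtain ⟨t0, s0, h1, h2, h3, h4⟩ := hR
    by_cases hc : ∃ k, ∃ e ∈ (g β).N s0 t0.1 u.1 k, cc (Data C g j) p.1 e
    · obtain ⟨k, e, he, r, hr, hrp, hre⟩ := hc
      obtain ⟨p', h5, h6, h7⟩ := exists_glue p hr hrp
      rw [le_D] at hrp hre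
      have hb := (mem_V.1 hr).2
      have hsame : ∀ a, ¬ bel j a → (a ∈ p'.1 ↔ a ∈ p.1) := fun a ha => by
        rw [h6]; exact glue_not hb ha
      have hpm : ∀ {β' t s}, Atom.pm j β' t s ∈ p'.1 ↔ Atom.pm j β' t s ∈ p.1 :=
        hsame _ (lt_irrefl j)
      have hph : ∀ {β' u v k}, Atom.ph j β' u v k ∈ p'.1 ↔ Atom.ph j β' u v k ∈ p.1 :=
        hsame _ (lt_irrefl j)
      obtain ⟨q, h8, h9⟩ := insert_ph p' (j := j) (β := β) (le_nN h5 hu) (le_nN h5 hv) huv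
        (by rintro ⟨k', hk'⟩; exact hno ⟨k', hph.1 hk'⟩) k (by
          intro t s h10 h11 h12 h13 k' e' he' hce'
          have h10' := hpm.1 h10
          obtain ⟨hn1, hn2, _⟩ := (p.cv j β).nd h10'
          obtain ⟨e1, e2⟩ := hrel h10' (((le_bl h5).lt hu hn2).1 h11)
            (((le_bl h5).lt hv hn1).1 h12) h13 h1 h2 h3 h4
          rw [e1, e2] at he'
          obtain ⟨r', hr', h14, h15⟩ := hce'
          have hr'' := (mem_V.1 hr').1
          rw [le_D] at h14 h15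
          have h16 : Lb C g j r' r := Lb_trans hr'' (p'.vb j) h14 h7
          exact ((p.cv j β).ok h1).fn hr' he he' (le_D.2 (Lb_trans hr'' (mem_V.1 hr).1 h16 hre))
            (le_D.2 h15))
      refine ⟨q, ⟨h8.1.trans h5, fun a ha hB => (h8.2 a ha hB).trans (hsame a ha)⟩, k, h9⟩
    · obtain ⟨q, h8, h9⟩ := insert_ph p (j := j) (β := β) hu hv huv hno 0 (by
        intro t s h10 h11 h12 h13 k' e' he' hce'
        obtain ⟨e1, e2⟩ := hrel h10 h11 h12 h13 h1 h2 h3 h4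
        rw [e1, e2] at he'
        exact absurd ⟨k', e', he', hce'⟩ hc)
      exact ⟨q, h8, 0, h9⟩
  · obtain ⟨q, h8, h9⟩ := insert_ph p (j := j) (β := β) hu hv huv hno 0 (by
        intro t s h10 h11 h12 h13
        exact absurd ⟨t, s, h10, h11, h12, h13⟩ hR)
    exact ⟨q, h8, 0, h9⟩

theorem exists_filled (p : Cd C g) (j : J) (β : L) {t s : Node} (ht : nN p.1 true t)
    (hs : nN p.1 false s) {ξ : K1} (h1 : ξ < t.1) (h2 : ξ < s.1) :
    ∃ q : Cd C g, Exs j {β} q p ∧ Filled q.1 j β t s ξ := by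
  obtain ⟨q1, h3, u, hu, hu1⟩ := exists_pred p hs h2
  obtain ⟨q2, h4, v, hv, hv1⟩ := exists_pred q1 (le_nN h3.1 ht) h1
  have hu' := le_lL h4.1 hu
  obtain ⟨q3, h5, k, hk⟩ := exists_ph q2 j β ((q2.bv.ft false).nl hu') ((q2.bv.ft true).nl hv)
    (by rw [hu1, hv1])
  exact ⟨q3, h5.trans ((Bx.exs h4 j _).trans (Bx.exs h3 j _)), u, v, k, le_lL h5.1 hu', le_lL h5.1 hv,
    hu1, hv1, hk⟩

theorem le_filled {q p : Cd C g} (h : q ≤ p) {j β t s ξ} (hf : Filled p.1 j β t s ξ) :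
    Filled q.1 j β t s ξ := Filled_mono h.1 p.bv (fun hx => (le_cl h j β).ph hx) hf

theorem exists_filled_set (p : Cd C g) (j : J) (β : L) {t s : Node} (ht : nN p.1 true t)
    (hs : nN p.1 false s) {X : Set K1} (hX : X.Finite) (h : ∀ ξ ∈ X, ξ < t.1 ∧ ξ < s.1) :
    ∃ q : Cd C g, Exs j {β} q p ∧ ∀ ξ ∈ X, Filled q.1 j β t s ξ := by
  induction X, hX using Set.Finite.induction_on with
  | empty => exact ⟨p, Exs.refl _ _ _, by simp⟩
  | insert _ _ ih =>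
    rename_i a S _ _
    obtain ⟨q, h1, h2⟩ := ih fun ξ hξ => h ξ (Or.inr hξ)
    obtain ⟨r, h3, h4⟩ := exists_filled q j β (le_nN h1.1 ht) (le_nN h1.1 hs)
      (h a (Or.inl rfl)).1 (h a (Or.inl rfl)).2
    refine ⟨r, h3.trans h1, ?_⟩
    rintro ξ (rfl | hξ)
    · exact h4
    · exact le_filled h3.1 (h2 ξ hξ)

theorem SplitLt.symm {p : Rep J L} {τ x y ξ} (h : SplitLt p τ x y ξ) : SplitLt p τ y x ξ := by
  obtain ⟨v, w, h1, h2, h3, h4, h5⟩ := h
  exact ⟨w, v, h2, h1, h3.symm, h3 ▸ h4, h5.symm⟩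

theorem Split.symm {p : Rep J L} {τ x y ξ} (h : Split p τ x y ξ) : Split p τ y x ξ := by
  obtain ⟨v, w, h1, h2, h3, h4, h5⟩ := h
  exact ⟨w, v, h2, h1, h3.symm, h3 ▸ h4, h5.symm⟩

theorem Agree.symm {p : Rep J L} {x y ξ} (h : Agree p x y ξ) : Agree p y x ξ := by
  obtain ⟨w, h1, h2, h3⟩ := h
  exact ⟨w, h2, h1, h3⟩

/-- add a promise -/
theorem exists_pm (hC : Lad C) (p : Cd C g) {j : J} {β : L} (hok : OK (g β) (Data C g j))
    {t s : Node} (ht : nN p.1 true t) (hs : nN p.1 false s) (hlim : Order.IsSuccLimit t.1)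
    (hδ : s.1 = (g β).δ t.1)
    (hagr : ∀ {t' s'}, Atom.pm j β t' s' ∈ p.1 → ∀ α, Order.IsSuccLimit α → α ≤ t.1 → α ≤ t'.1 →
      SplitLt p.1 true t t' α ∨ Agree p.1 s s' ((g β).δ α))
    {μ : K1} (hμ : μ < t.1)
    (hsaf : ∀ {t' s'}, Atom.pm j β t' s' ∈ p.1 → ∀ ξ ∈ C t.1, ξ ∈ C t'.1 → μ ≤ ξ →
      (t.1 = t'.1 ∧ s = s') ∨ Split p.1 true t t' ξ ∨ Split p.1 false s s' ξ) :
    ∃ q : Cd C g, q ≤ p ∧ Atom.pm j β t s ∈ q.1 := by
  obtain ⟨q1, h1, h2⟩ := exists_filled_set p j β ht hs (hC.fin hlim hμ) (fun ξ hξ =>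
    ⟨hξ.2.trans hμ, by rw [hδ]; exact (hξ.2.trans hμ).trans_le (hok.le _)⟩)
  let q : Rep J L := uni q1.1 {Atom.pm j β t s}
  have hm : ∀ a, a ∈ q ↔ a ∈ q1.1 ∨ a = Atom.pm j β t s := fun a => by
    simp [q, mem_uni]
  have hcg : ∀ a, a ≠ Atom.pm j β t s → (a ∈ q1.1 ↔ a ∈ q) := fun a ha => by
    rw [hm]; simp [ha]
  have hcj : ∀ a, bel j a → (a ∈ q1.1 ↔ a ∈ q) := fun a ha => hcg a (by
    rintro rfl
    exact lt_irrefl j ha)
  have hBV : BV q := BV_congr j hcj q1.bv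
  have hBL : BLe q q1.1 := BLe_congr j hcj (fun _ _ => Iff.rfl) (BLe.refl q1.1)
  have hph : ∀ {i β' u v k}, Atom.ph i β' u v k ∈ q ↔ Atom.ph i β' u v k ∈ q1.1 :=
    (hcg _ (by simp)).symm
  have hpm : ∀ {i β' t' s'}, ¬ (i = j ∧ β' = β) →
      (Atom.pm i β' t' s' ∈ q ↔ Atom.pm i β' t' s' ∈ q1.1) := by
    intro i β' t' s' h
    refine (hcg _ ?_).symm
    intro h'
    simp only [Atom.pm.injEq] at h'
    exact h ⟨h'.1, h'.2.1⟩
  have hpq : ∀ a, a ∈ q1.1 → a ∈ q := fun a ha => (hm a).2 (Or.inl ha)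
  have hold : ∀ {t' s'}, Atom.pm j β t' s' ∈ q1.1 → Atom.pm j β t' s' ∈ p.1 := (h1.pm le_rfl).1
  have hagr' : ∀ {t' s'}, Atom.pm j β t' s' ∈ q1.1 → ∀ α, Order.IsSuccLimit α → α ≤ t.1 →
      α ≤ t'.1 → SplitLt q true t t' α ∨ Agree q s s' ((g β).δ α) := fun h3 α h4 h5 h6 =>
    (hagr (hold h3) α h4 h5 h6).imp
      (fun h => SplitLt_mono hBL q1.bv (SplitLt_mono h1.1.1 p.bv h))
      (fun h => Agree_mono hBL q1.bv (Agree_mono h1.1.1 p.bv h))
  have hsaf' : ∀ {t' s'}, Atom.pm j β t' s' ∈ q1.1 → ∀ ξ ∈ C t.1, ξ ∈ C t'.1 →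
      (t.1 = t'.1 ∧ s = s') ∨ Split q true t t' ξ ∨ Split q false s s' ξ ∨
        Filled q j β t s ξ := by
    intro t' s' h3 ξ h4 h5
    by_cases h6 : μ ≤ ξ
    · rcases hsaf (hold h3) ξ h4 h5 h6 with h | h | h
      · exact Or.inl h
      · exact Or.inr (Or.inl (Split_mono hBL q1.bv (Split_mono h1.1.1 p.bv h)))
      · exact Or.inr (Or.inr (Or.inl (Split_mono hBL q1.bv (Split_mono h1.1.1 p.bv h))))
    · exact Or.inr (Or.inr (Or.inr (Filled_mono hBL q1.bv (fun h => hpq _ h)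
        (h2 ξ ⟨h4, not_le.1 h6⟩))))
  have hCV : ∀ i β', CV C g (Data C g i) i β' q := by
    intro i β'
    by_cases hi : i = j ∧ β' = β
    · obtain ⟨rfl, rfl⟩ := hi
      have hc := q1.cv i β'
      refine ⟨fun {t1 s1} h => hok, fun {t1 s1} h => ?_, ?_, ?_, fun h => ?_, fun h h' => ?_⟩
      · rcases (hm _).1 h with h | h
        · obtain ⟨h3, h4, h5⟩ := hc.nd h
          exact ⟨hBL.nN h3, hBL.nN h4, h5⟩
        · simp only [Atom.pm.injEq] at h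
          obtain ⟨_, _, rfl, rfl⟩ := h
          exact ⟨hBL.nN (le_nN h1.1 ht), hBL.nN (le_nN h1.1 hs), hlim, hδ⟩
      · intro t1 s1 t2 s2 h3 h4 α hα h5 h6
        rcases (hm _).1 h3 with h7 | h7 <;> rcases (hm _).1 h4 with h8 | h8
        · exact (hc.agr h7 h8 α hα h5 h6).imp (SplitLt_mono hBL q1.bv) (Agree_mono hBL q1.bv)
        · simp only [Atom.pm.injEq] at h8
          obtain ⟨_, _, rfl, rfl⟩ := h8
          exact (hagr' h7 α hα h6 h5).imp SplitLt.symm Agree.symm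
        · simp only [Atom.pm.injEq] at h7
          obtain ⟨_, _, rfl, rfl⟩ := h7
          exact hagr' h8 α hα h5 h6
        · simp only [Atom.pm.injEq] at h7 h8
          obtain ⟨_, _, rfl, rfl⟩ := h7
          obtain ⟨_, _, e1, e2⟩ := h8
          rw [e2]
          refine Or.inr ⟨_, Or.inl rfl, Or.inl rfl, ?_⟩
          rw [hδ]
          exact hok.mono h5
      · intro t1 s1 t2 s2 h3 h4 ξ h5 h6
        rcases (hm _).1 h3 with h7 | h7 <;> rcases (hm _).1 h4 with h8 | h8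
        · exact (hc.saf h7 h8 ξ h5 h6).imp id (Or.imp (Split_mono hBL q1.bv)
            (Or.imp (Split_mono hBL q1.bv) (Or.imp (Filled_mono hBL q1.bv (fun h => hpq _ h))
              (Filled_mono hBL q1.bv (fun h => hpq _ h)))))
        · simp only [Atom.pm.injEq] at h8
          obtain ⟨_, _, rfl, rfl⟩ := h8
          rcases hsaf' h7 ξ h6 h5 with h | h | h | h
          · exact Or.inl ⟨h.1.symm, h.2.symm⟩
          · exact Or.inr (Or.inl (Split.symm h))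
          · exact Or.inr (Or.inr (Or.inl (Split.symm h)))
          · exact Or.inr (Or.inr (Or.inr (Or.inr h)))
        · simp only [Atom.pm.injEq] at h7
          obtain ⟨_, _, rfl, rfl⟩ := h7
          rcases hsaf' h8 ξ h5 h6 with h | h | h | h
          · exact Or.inl h
          · exact Or.inr (Or.inl h)
          · exact Or.inr (Or.inr (Or.inl h))
          · exact Or.inr (Or.inr (Or.inr (Or.inl h)))
        · simp only [Atom.pm.injEq] at h7 h8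
          exact Or.inl ⟨by rw [h7.2.2.1, h8.2.2.1], by rw [h7.2.2.2, h8.2.2.2]⟩
      · obtain ⟨h3, h4, h5⟩ := hc.ph (hph.1 h)
        exact ⟨hBL.nN h3, hBL.nN h4, h5⟩
      · exact hc.fn (hph.1 h) (hph.1 h')
    · exact CV_same q1.bv hBL hph (hpm hi) (q1.cv i β')
  refine ⟨⟨q, hBV, hCV⟩, le_trans ⟨hBL, fun i β' => ?_⟩ h1.1, (hm _).2 (Or.inr rfl)⟩
  exact CLe_of_same hph (fun h => hpq _ h)

end Pool.Agent.Helper126.Sus.Dense
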