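import Mathlib
import Pool.Agent.Helper126.Sus.Dense

/-!
# Adding promises
-/

namespace Pool.Agent.Helper126.Sus.Prom

open Cardinal Pool.Agent.Helper126.Sus.Forc Pool.Agent.Helper126.Sus.Tree
  Pool.Agent.Helper126.Sus.Poset Pool.Agent.Helper126.Sus.Ext Pool.Agent.Helper126.Sus.Om
  Pool.Agent.Helper126.Sus.Dense

set_option linter.unusedSectionVars false

variable {J L : Type} {C : K1 → Set K1} {g : L → Nm J L} [LinearOrder J] [WellFoundedLT J]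

theorem wL_cmp {p : Rep J L} (hp : BV p) {τ a b z} (h1 : wL p τ a z) (h2 : wL p τ b z)
    (h : a.1 ≤ b.1) : wL p τ a b := by
  have hft := hp.ft τ
  rcases h1 with rfl | h1 <;> rcases h2 with rfl | h2
  · exact Or.inl rfl
  · exact absurd (hft.lv h2) (not_lt.2 h)
  · exact Or.inr h1
  · rcases h.lt_or_eq with h3 | h3
    · exact Or.inr (hft.cp h1 h2 h3)
    · exact Or.inl (hft.uq h1 h2 h3)

theorem wL_trans {p : Rep J L} (hp : BV p) {τ a b z} (h1 : wL p τ a b) (h2 : wL p τ b z) :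
    wL p τ a z := by
  rcases h1 with rfl | h1
  · exact h2
  · rcases h2 with rfl | h2
    · exact Or.inr h1
    · exact Or.inr ((hp.ft τ).tr h1 h2)

theorem wL_lv {p : Rep J L} (hp : BV p) {τ a b} (h1 : wL p τ a b) : a.1 ≤ b.1 := by
  rcases h1 with rfl | h1
  · exact le_rfl
  · exact ((hp.ft τ).lv h1).le

theorem wL_eq {p : Rep J L} (hp : BV p) {τ a b} (h1 : wL p τ a b) (h : b.1 ≤ a.1) : a = b := by
  rcases h1 with rfl | h1
  · rfl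
  · exact absurd ((hp.ft τ).lv h1) (not_lt.2 h)

theorem wL_nN {p : Rep J L} (hp : BV p) {τ a b} (h1 : wL p τ a b) (h : nN p τ b) : nN p τ a := by
  rcases h1 with rfl | h1
  · exact h
  · exact (hp.ft τ).nl h1

theorem SplitLt_up {p : Rep J L} (hp : BV p) {τ t t2 t' α} (h : wL p τ t t2)
    (hs : SplitLt p τ t t' α) : SplitLt p τ t2 t' α := by
  obtain ⟨v, w, h1, h2, h3⟩ := hs
  exact ⟨v, w, wL_trans hp h1 h, h2, h3⟩

theorem Agree_up {p : Rep J L} (hp : BV p) {s s2 s' μ} (h : wL p false s s2)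
    (hs : Agree p s s' μ) : Agree p s2 s' μ := by
  obtain ⟨w, h1, h2, h3⟩ := hs
  exact ⟨w, wL_trans hp h1 h, h2, h3⟩

theorem fin_pm (p : Rep J L) (j : J) (β : L) :
    {x : Node × Node | Atom.pm j β x.1 x.2 ∈ p}.Finite := by
  have : {x : Node × Node | Atom.pm j β x.1 x.2 ∈ p} =
    (fun x : Node × Node => Atom.pm j β x.1 x.2) ⁻¹' (p : Set (Atom J L)) := rfl
  rw [this]
  refine p.finite_toSet.preimage ?_
  rintro ⟨a, b⟩ _ ⟨c, d⟩ _ h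
  simp only [Atom.pm.injEq, true_and] at h
  rw [h.1, h.2]

/-- an initial segment of level `δ` -/
theorem exists_wpred (p : Cd C g) {τ : Bool} {x : Node} (hx : nN p.1 τ x) {η : K1}
    (hη : η ≤ x.1) : ∃ q : Cd C g, Bx q p ∧ ∃ z, wL q.1 τ z x ∧ z.1 = η := by
  rcases hη.lt_or_eq with h | h
  · obtain ⟨q, h2, z, h3, h4⟩ := exists_pred p hx h
    exact ⟨q, h2, z, Or.inr h3, h4⟩
  · exact ⟨p, Bx.refl p, x, Or.inl rfl, h.symm⟩

theorem exists_pm_down (hC : Lad C) (p : Cd C g) {j : J} {β : L} {t s : Node}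
    (hpm : Atom.pm j β t s ∈ p.1) {t1 : Node} (h1 : lL p.1 true t1 t)
    (hlim : Order.IsSuccLimit t1.1) :
    ∃ q : Cd C g, q ≤ p ∧ ∃ s1, wL q.1 false s1 s ∧ Atom.pm j β t1 s1 ∈ q.1 := by
  obtain ⟨hn1, hn2, hl, hδ⟩ := (p.cv j β).nd hpm
  have hok := (p.cv j β).ok hpm
  have hlt : t1.1 < t.1 := (p.bv.ft true).lv h1
  obtain ⟨q, hq, s1, hs1, hs1'⟩ := exists_wpred p hn2 (η := (g β).δ t1.1)
    (by rw [hδ]; exact hok.mono hlt.le)
  have hft := q.bv.ft true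
  have hfs := q.bv.ft false
  have h1' := le_lL hq.1 h1
  have hpm' := hq.pm.2 hpm
  have hsp : ∀ {t' α}, α ≤ t1.1 → SplitLt q.1 true t t' α → SplitLt q.1 true t1 t' α := by
    rintro t' α hα ⟨v, w, h2, h3, h4, h5, h6⟩
    refine ⟨v, w, wL_cmp q.bv h2 (Or.inr h1') (h5.trans_le hα).le, h3, h4, h5, h6⟩
  have hag : ∀ {s' μ}, μ ≤ s1.1 → Agree q.1 s s' μ → Agree q.1 s1 s' μ := by
    rintro s' μ hμ ⟨w, h2, h3, h4⟩
    rcases le_total w.1 s1.1 with h | h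
    · exact ⟨w, wL_cmp q.bv h2 hs1 h, h3, h4⟩
    · exact ⟨s1, Or.inl rfl, wL_trans q.bv (wL_cmp q.bv hs1 h2 h) h3, hμ⟩
  obtain ⟨μ, hμ, hμ'⟩ := exists_unif hlim (fin_pm q.1 j β)
    (Q := fun x μ => ∀ ξ ∈ C t1.1, ξ ∈ C x.1.1 → μ ≤ ξ → (t1.1 = x.1.1 ∧ s1 = x.2) ∨
      Split q.1 true t1 x.1 ξ ∨ Split q.1 false s1 x.2 ξ)
    (fun x μ μ' h h' ξ h2 h3 h4 => h' ξ h2 h3 (h.trans h4)) (by
      rintro ⟨t', s'⟩ hx
      have hx : Atom.pm j β t' s' ∈ q.1 := hx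
      obtain ⟨_, _, hl', hδ'⟩ := (q.cv j β).nd hx
      rcases lt_trichotomy t'.1 t1.1 with h | h | h
      · exact ⟨t'.1, h, fun ξ _ h3 h4 => absurd (hC.lt hl' h3) (not_lt.2 h4)⟩
      · rcases (q.cv j β).agr hpm' hx t1.1 hlim hlt.le h.ge with h2 | h2
        · obtain ⟨v, w, h3, h4, h5, h6, h7⟩ := hsp le_rfl h2
          exact ⟨v.1, h6, fun ξ _ _ h8 => Or.inr (Or.inl ⟨v, w, h3, h4, h5, h8, h7⟩)⟩
        · obtain ⟨w, h3, h4, h5⟩ := h2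
          have h6 : w = s' := wL_eq q.bv h4 (by rw [hδ', h]; exact h5)
          subst h6
          have h7 : s1 = w := by
            refine wL_eq q.bv (wL_cmp q.bv hs1 h3 ?_) ?_
            · rw [hs1', hδ', h]
            · rw [hs1', hδ', h]
          obtain ⟨b, hb⟩ := exists_min
          exact ⟨b, limit_gt_min hlim hb, fun ξ _ _ _ => Or.inl ⟨h.symm, h7⟩⟩
      · obtain ⟨μ, h2, h3⟩ := exists_lt_limit hlim (hC.fin hl' h) (fun s hs => hs.2)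
        exact ⟨μ, h2, fun ξ h4 h5 h6 => absurd (h3 ξ ⟨h5, hC.lt hlim h4⟩) (not_lt.2 h6)⟩)
  have hok' : OK (g β) (Data C g j) := hok
  obtain ⟨r, h2, h3⟩ := exists_pm hC q hok' (hft.nl h1') (wL_nN q.bv hs1 (le_nN hq.1 hn2)) hlim
    hs1' (fun {t' s'} hx α hα h4 h5 => by
      rcases (q.cv j β).agr hpm' hx α hα (h4.trans hlt.le) h5 with h | h
      · exact Or.inl (hsp h4 h)
      · exact Or.inr (hag (by rw [hs1']; exact hok.mono h4) h)) hμ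
    (fun {t' s'} hx ξ h4 h5 h6 => hμ' (t', s') hx ξ h4 h5 h6)
  exact ⟨r, h2.trans hq.1, s1, le_wL h2 hs1, h3⟩

theorem exists_pm_up (hC : Lad C) (p : Cd C g) {j : J} {β : L} {t s : Node}
    (hpm : Atom.pm j β t s ∈ p.1) {y : Node} (hy : wL p.1 false s y) {α : K1}
    (hlim : Order.IsSuccLimit α) (hα : t.1 < α) (hδα : (g β).δ α ≤ y.1) :
    ∃ q : Cd C g, q ≤ p ∧ ∃ t2 s2, t2.1 = α ∧ lL q.1 true t t2 ∧ wL q.1 false s2 y ∧
      Atom.pm j β t2 s2 ∈ q.1 := by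
  obtain ⟨hn1, hn2, hl, hδ⟩ := (p.cv j β).nd hpm
  have hok := (p.cv j β).ok hpm
  have hyN : nN p.1 false y := by
    rcases hy with rfl | hy
    · exact hn2
    · exact (p.bv.ft false).nr hy
  obtain ⟨σ, hσ1, _, hσ2⟩ := exists_succ t.1
  obtain ⟨q1, h1, hlev⟩ := exists_level p σ
  obtain ⟨q2, h2, s2, hs2, hs2'⟩ := exists_wpred q1 (le_nN h1.1 hyN) hδα
  have h12 : q2 ≤ p := h2.1.trans h1.1
  obtain ⟨q3, h3, v, hv1, hv2, hv3, hv4, hv5⟩ := exists_above q2 true (le_nN h12 hn1) hσ1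
  have hσα := hσ2 α hlim hα
  obtain ⟨q4, h4, t2, ht1, ht2, ht3, ht4, ht5⟩ := exists_above q3 true hv3 (μ := α)
    (by rw [hv1]; exact hσα)
  have h34 : q4 ≤ q2 := h4.1.trans h3.1
  have h44 : q4 ≤ p := h34.trans h12
  have hvt2 : lL q4.1 true v t2 := (ht5 v).2 (Or.inl rfl)
  have htt2 : lL q4.1 true t t2 := (ht5 t).2 (Or.inr ((hv5 t).2 (Or.inl rfl)))
  have hold : ∀ {t' s'}, Atom.pm j β t' s' ∈ q4.1 → Atom.pm j β t' s' ∈ p.1 := fun h =>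
    h1.pm.1 (h2.pm.1 (h3.pm.1 (h4.pm.1 h)))
  have hw : ∀ {t' s'}, Atom.pm j β t' s' ∈ p.1 → σ < t'.1 → ∃ w, lL q4.1 true w t' ∧ w.1 = σ ∧
      v ≠ w := by
    intro t' s' hx h
    obtain ⟨w, hw1, hw2⟩ := hlev true t' (le_nN h1.1 ((p.cv j β).nd hx).1) h
    refine ⟨w, le_lL (h34.trans h2.1) hw1, hw2, ?_⟩
    rintro rfl
    exact hv2 (le_nN h2.1 ((q1.bv.ft true).nl hw1))
  have hss2 : wL q4.1 false s s2 := by
    refine wL_cmp q4.bv (le_wL h44 hy) (le_wL h34 hs2) ?_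
    rw [hδ, hs2']
    exact hok.mono hα.le
  obtain ⟨r, h5, h6⟩ := exists_pm hC q4 hok (t := t2) (s := s2) ht3
    (wL_nN q4.bv (le_wL h34 hs2) (le_nN h44 hyN)) (by rw [ht1]; exact hlim)
    (by rw [hs2', ht1]) (fun {t' s'} hx α' hα' h7 h8 => by
      rcases le_or_gt α' t.1 with h9 | h9
      · rcases (p.cv j β).agr hpm (hold hx) α' hα' h9 h8 with h | h
        · exact Or.inl (SplitLt_up q4.bv (Or.inr htt2) (SplitLt_mono h44.1 p.bv h))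
        · exact Or.inr (Agree_up q4.bv hss2 (Agree_mono h44.1 p.bv h))
      · have h10 := hσ2 α' hα' h9
        obtain ⟨w, hw1, hw2, hw3⟩ := hw (hold hx) (h10.trans_le h8)
        exact Or.inl ⟨v, w, Or.inr hvt2, Or.inr hw1, by rw [hv1, hw2], by rw [hv1]; exact h10, hw3⟩)
    (μ := σ) (by rw [ht1]; exact hσα) (fun {t' s'} hx ξ h7 h8 h9 => by
      have hl' := ((q4.cv j β).nd hx).2.2.1
      obtain ⟨w, hw1, hw2, hw3⟩ := hw (hold hx) (h9.trans_lt (hC.lt hl' h8))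
      exact Or.inr (Or.inl ⟨v, w, Or.inr hvt2, Or.inr hw1, by rw [hv1, hw2],
        by rw [hv1]; exact h9, hw3⟩))
  exact ⟨r, h5.trans h44, t2, s2, ht1, le_lL h5 htt2, le_wL (h5.trans h34) hs2, h6⟩

theorem exists_pm_new (hC : Lad C) (p : Cd C g) {j : J} {β : L} (hok : OK (g β) (Data C g j))
    {y : Node} (hyN : nN p.1 false y) {α : K1}
    (hlim : Order.IsSuccLimit α) (hδα : (g β).δ α ≤ y.1) :
    ∃ q : Cd C g, q ≤ p ∧ ∃ t2 s2, t2.1 = α ∧ wL q.1 false s2 y ∧ Atom.pm j β t2 s2 ∈ q.1 := by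
  obtain ⟨b, hb⟩ := exists_min
  obtain ⟨q1, h1, hlev⟩ := exists_level p b
  obtain ⟨q2, h2, s2, hs2, hs2'⟩ := exists_wpred q1 (le_nN h1.1 hyN) hδα
  have h12 : q2 ≤ p := h2.1.trans h1.1
  obtain ⟨m, hm⟩ := exists_fresh q2.1
  have hv2 : ¬ nN q2.1 true ((b, m) : Node) := by
    rintro ⟨a, ha⟩
    exact absurd (hm _ _ _ ha).1 (lt_irrefl _)
  obtain ⟨q3, h3, hv4, hv5⟩ := exists_top q2 true (b, m) hv2 (D := fun _ => False)
    (fun _ h => h.elim) (fun _ _ h => h.elim) (fun _ _ h => h.elim) (fun _ _ _ h => h.elim)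
  have hv3 : nN q3.1 true ((b, m) : Node) := (hv4 _).2 (Or.inr rfl)
  have hbα := limit_gt_min hlim hb
  obtain ⟨q4, h4, t2, ht1, ht2, ht3, ht4, ht5⟩ := exists_above q3 true hv3 (μ := α) hbα
  have h34 : q4 ≤ q2 := h4.1.trans h3.1
  have h44 : q4 ≤ p := h34.trans h12
  have hvt2 : lL q4.1 true (b, m) t2 := (ht5 _).2 (Or.inl rfl)
  have hold : ∀ {t' s'}, Atom.pm j β t' s' ∈ q4.1 → Atom.pm j β t' s' ∈ p.1 := fun h =>
    h1.pm.1 (h2.pm.1 (h3.pm.1 (h4.pm.1 h)))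
  have hw : ∀ {t' s'}, Atom.pm j β t' s' ∈ q4.1 → ∃ w, lL q4.1 true w t' ∧ w.1 = b ∧
      ((b, m) : Node) ≠ w := by
    intro t' s' hx'
    have hx := hold hx'
    obtain ⟨hn, _, hl, _⟩ := (p.cv j β).nd hx
    obtain ⟨w, hw1, hw2⟩ := hlev true t' (le_nN h1.1 hn) (limit_gt_min hl hb)
    refine ⟨w, le_lL (h34.trans h2.1) hw1, hw2, ?_⟩
    rintro rfl
    exact hv2 (le_nN h2.1 ((q1.bv.ft true).nl hw1))
  obtain ⟨r, h5, h6⟩ := exists_pm hC q4 hok (t := t2) (s := s2) ht3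
    (wL_nN q4.bv (le_wL h34 hs2) (le_nN h44 hyN)) (by rw [ht1]; exact hlim)
    (by rw [hs2', ht1]) (fun {t' s'} hx α' hα' h7 h8 => by
      obtain ⟨w, hw1, hw2, hw3⟩ := hw hx
      exact Or.inl ⟨(b, m), w, Or.inr hvt2, Or.inr hw1, hw2.symm, limit_gt_min hα' hb, hw3⟩)
    (μ := b) (by rw [ht1]; exact hbα) (fun {t' s'} hx ξ h7 h8 h9 => by
      obtain ⟨w, hw1, hw2, hw3⟩ := hw hx
      exact Or.inr (Or.inl ⟨(b, m), w, Or.inr hvt2, Or.inr hw1, hw2.symm, h9, hw3⟩))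
  exact ⟨r, h5.trans h44, t2, s2, ht1, le_wL (h5.trans h34) hs2, h6⟩

end Pool.Agent.Helper126.Sus.Prom
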