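import Mathlib
import Pool.Agent.Helper126.Sus.Prom

/-!
# Families of conditions indexed by the countable ordinals
-/

namespace Pool.Agent.Helper126.Sus.Amal1

open Cardinal Filter Pool.Agent.Helper126.Sus.Forc Pool.Agent.Helper126.Sus.Tree
  Pool.Agent.Helper126.Sus.Poset Pool.Agent.Helper126.Sus.Ext Pool.Agent.Helper126.Sus.Om
  Pool.Agent.Helper126.Sus.Dense Pool.Agent.Helper126.Sus.Prom

set_option linter.unusedSectionVars false

instance : Nonempty K1 := ⟨exists_min.choose⟩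

theorem ev_countable {X : Type} {S : Set X} (hS : S.Countable) {P : X → K1 → Prop}
    (h : ∀ s ∈ S, ∀ᶠ ν in atTop, P s ν) : ∀ᶠ ν in atTop, ∀ s ∈ S, P s ν := by
  have h1 : ∀ s : S, ∃ a, ∀ ν ≥ a, P s ν := fun s => by
    have := h s s.2
    rwa [eventually_atTop] at this
  choose a ha using h1
  have : Countable S := hS
  obtain ⟨u, hu⟩ := exists_bound (Set.range a) (Set.countable_range a)
  rw [eventually_atTop]
  exact ⟨u, fun ν hν s hs => ha ⟨s, hs⟩ ν ((hu _ ⟨⟨s, hs⟩, rfl⟩).le.trans hν)⟩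

theorem freq_const {Y : Type} (f : K1 → Y) (hf : (Set.range f).Countable) :
    ∃ y, ∃ᶠ ν in atTop, f ν = y := by
  by_contra hcon
  push Not at hcon
  have h1 := ev_countable hf (P := fun y ν => f ν ≠ y) (fun y _ => hcon y)
  obtain ⟨ν, hν⟩ := h1.exists
  exact hν (f ν) ⟨ν, rfl⟩ rfl

theorem freq_reindex {P : K1 → Prop} (h : ∃ᶠ ν in atTop, P ν) :
    ∃ e : K1 → K1, (∀ ν, ν ≤ e ν) ∧ ∀ ν, P (e ν) := by
  rw [frequently_atTop] at h
  choose e h1 h2 using h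
  exact ⟨e, h1, h2⟩

theorem tendsto_reindex {e : K1 → K1} (he : ∀ ν, ν ≤ e ν) : Tendsto e atTop atTop :=
  tendsto_atTop_mono he tendsto_id

theorem ev_reindex {e : K1 → K1} (he : ∀ ν, ν ≤ e ν) {P : K1 → Prop} (h : ∀ᶠ ν in atTop, P ν) :
    ∀ᶠ ν in atTop, P (e ν) := (tendsto_reindex he).eventually h

theorem freq_of_reindex {e : K1 → K1} (he : ∀ ν, ν ≤ e ν) {P : K1 → Prop}
    (h : ∃ᶠ ν in atTop, P (e ν)) : ∃ᶠ ν in atTop, P ν := (tendsto_reindex he).frequently h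

/-- a weak form of the Delta system lemma -/
theorem exists_root {X : Type} (A : K1 → Finset X) : ∃ R : Finset X, ∃ e : K1 → K1,
    (∀ ν, ν ≤ e ν) ∧ ∀ x, x ∉ R → ∀ᶠ ν in atTop, x ∉ A (e ν) := by
  classical
  obtain ⟨n, hn⟩ := freq_const (fun ν => (A ν).card) (Set.to_countable _)
  obtain ⟨e0, h0, h1⟩ := freq_reindex hn
  have hbd : ∀ m, (∃ R : Finset X, R.card = m ∧ ∃ᶠ ν in atTop, R ⊆ A (e0 ν)) → m ≤ n := by
    rintro m ⟨R, rfl, hR⟩
    obtain ⟨ν, hν⟩ := hR.exists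
    rw [← h1 ν]
    exact Finset.card_le_card hν
  have hex : ∃ m, ∃ R : Finset X, R.card = m ∧ ∃ᶠ ν in atTop, R ⊆ A (e0 ν) :=
    ⟨0, ∅, rfl, Frequently.of_forall fun _ => Finset.empty_subset _⟩
  let M := Nat.findGreatest (fun m => ∃ R : Finset X, R.card = m ∧
    ∃ᶠ ν in atTop, R ⊆ A (e0 ν)) n
  obtain ⟨m0, hm0⟩ := hex
  have hM : ∃ R : Finset X, R.card = M ∧ ∃ᶠ ν in atTop, R ⊆ A (e0 ν) :=
    Nat.findGreatest_spec (P := fun m => ∃ R : Finset X, R.card = m ∧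
      ∃ᶠ ν in atTop, R ⊆ A (e0 ν)) (hbd m0 hm0) hm0
  have hmax : ∀ m, (∃ R : Finset X, R.card = m ∧ ∃ᶠ ν in atTop, R ⊆ A (e0 ν)) → m ≤ M :=
    fun m hm => Nat.le_findGreatest (hbd m hm) hm
  obtain ⟨R, hR, hR'⟩ := hM
  obtain ⟨e1, h2, h3⟩ := freq_reindex hR'
  refine ⟨R, fun ν => e0 (e1 ν), fun ν => (h2 ν).trans (h0 _), fun x hx => ?_⟩
  by_contra hcon
  rw [not_eventually] at hcon
  push Not at hcon
  have h4 : ∃ᶠ ν in atTop, insert x R ⊆ A (e0 (e1 ν)) := by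
    refine hcon.mono fun ν hν => ?_
    intro y hy
    rcases Finset.mem_insert.1 hy with rfl | hy
    · exact hν
    · exact h3 ν hy
  have h5 := hmax _ ⟨insert x R, rfl, freq_of_reindex (P := fun ν => insert x R ⊆ A (e0 ν)) h2 h4⟩
  rw [Finset.card_insert_of_notMem hx, hR] at h5
  omega

variable {J L : Type} {C : K1 → Set K1} {g : L → Nm J L} [LinearOrder J] [WellFoundedLT J]

/-- fill all the promises of stage `j` up to level `κ` -/
theorem exists_fill_all (hC : Lad C) (p : Cd C g) (j : J) (κ : K1) :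
    ∃ q : Cd C g, Exs j {β | ∃ t s, Atom.pm j β t s ∈ p.1} q p ∧
      ∀ β t s ξ, Atom.pm j β t s ∈ p.1 → κ < t.1 → ξ ∈ C t.1 → ξ ≤ κ → Filled q.1 j β t s ξ := by
  have hfin : {x : L × Node × Node | Atom.pm j x.1 x.2.1 x.2.2 ∈ p.1}.Finite := by
    have : {x : L × Node × Node | Atom.pm j x.1 x.2.1 x.2.2 ∈ p.1} =
      (fun x : L × Node × Node => Atom.pm j x.1 x.2.1 x.2.2) ⁻¹' (p.1 : Set (Atom J L)) := rfl
    rw [this]
    refine p.1.finite_toSet.preimage ?_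
    rintro ⟨a, b, c⟩ _ ⟨a', b', c'⟩ _ h
    simp only [Atom.pm.injEq, true_and] at h
    obtain ⟨rfl, rfl, rfl⟩ := h
    rfl
  have key : ∀ F : Set (L × Node × Node), F.Finite →
      F ⊆ {x : L × Node × Node | Atom.pm j x.1 x.2.1 x.2.2 ∈ p.1} →
      ∃ q : Cd C g, Exs j {β | ∃ t s, Atom.pm j β t s ∈ p.1} q p ∧
        ∀ x ∈ F, κ < x.2.1.1 → ∀ ξ ∈ C x.2.1.1, ξ ≤ κ → Filled q.1 j x.1 x.2.1 x.2.2 ξ := by
    intro F hF
    induction F, hF using Set.Finite.induction_on with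
    | empty => exact fun _ => ⟨p, Exs.refl _ _ _, by simp⟩
    | insert _ _ ih =>
      rename_i a S _ _
      intro hsub
      obtain ⟨q, h1, h2⟩ := ih fun x hx => hsub (Or.inr hx)
      have ha : Atom.pm j a.1 a.2.1 a.2.2 ∈ p.1 := hsub (Or.inl rfl)
      obtain ⟨hn1, hn2, hl, hδ⟩ := (p.cv j a.1).nd ha
      have hok := (p.cv j a.1).ok ha
      by_cases hκ : κ < a.2.1.1
      · obtain ⟨σ, hσ1, _, hσ2⟩ := exists_succ κ
        have hσ3 := hσ2 _ hl hκ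
        obtain ⟨r, h3, h4⟩ := exists_filled_set q j a.1 (t := a.2.1) (s := a.2.2)
          (le_nN h1.1 hn1) (le_nN h1.1 hn2) (hC.fin hl hσ3) (fun ξ hξ =>
            ⟨hξ.2.trans hσ3, by rw [hδ]; exact (hξ.2.trans hσ3).trans_le (hok.le _)⟩)
        refine ⟨r, (Exs.mono ?_ h3).trans h1, ?_⟩
        · rintro _ rfl
          exact ⟨_, _, ha⟩
        · rintro x (rfl | hx) hx1 ξ hξ1 hξ2
          · exact h4 ξ ⟨hξ1, hξ2.trans_lt hσ1⟩
          · exact le_filled h3.1 (h2 x hx hx1 ξ hξ1 hξ2)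
      · refine ⟨q, h1, ?_⟩
        rintro x (rfl | hx) hx1 ξ hξ1 hξ2
        · exact absurd hx1 hκ
        · exact h2 x hx hx1 ξ hξ1 hξ2
  obtain ⟨q, h1, h2⟩ := key _ hfin subset_rfl
  exact ⟨q, h1, fun β t s ξ h3 h4 h5 h6 => h2 (β, t, s) h3 h4 ξ h5 h6⟩

end Pool.Agent.Helper126.Sus.Amal1
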