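import Mathlib
import Pool.Agent.Helper126.Sus.Amal1

/-!
# Amalgamation of two conditions
-/

namespace Pool.Agent.Helper126.Sus.Amal2

open Cardinal Filter Pool.Agent.Helper126.Sus.Forc Pool.Agent.Helper126.Sus.Tree
  Pool.Agent.Helper126.Sus.Poset Pool.Agent.Helper126.Sus.Ext Pool.Agent.Helper126.Sus.Om
  Pool.Agent.Helper126.Sus.Dense Pool.Agent.Helper126.Sus.Prom Pool.Agent.Helper126.Sus.Amal1

set_option linter.unusedSectionVars false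

variable {J L : Type}

/-- the coordinate occurs -/
def occ (p : Rep J L) (i : J) (β : L) : Prop :=
  (∃ u v k, Atom.ph i β u v k ∈ p) ∨ ∃ t s, Atom.pm i β t s ∈ p

variable {C : K1 → Set K1} {g : L → Nm J L} [LinearOrder J] [WellFoundedLT J]

/-- compatibility of the coordinates of two conditions -/
structure Cross (a b : Cd C g) (r : Rep J L) (i : J) (β : L) : Prop where
  fn : ∀ {u v k k'}, Atom.ph i β u v k ∈ a.1 → Atom.ph i β u v k' ∈ b.1 → k = k'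
  pr1 : ∀ {t s u v k}, Atom.pm i β t s ∈ a.1 → Atom.ph i β u v k ∈ b.1 → lL r true v t →
    ∃ k', Atom.ph i β u v k' ∈ a.1
  pr2 : ∀ {t s u v k}, Atom.pm i β t s ∈ b.1 → Atom.ph i β u v k ∈ a.1 → lL r true v t →
    ∃ k', Atom.ph i β u v k' ∈ b.1
  agr : ∀ {t s t' s'}, Atom.pm i β t s ∈ a.1 → Atom.pm i β t' s' ∈ b.1 → ∀ α,
    Order.IsSuccLimit α → α ≤ t.1 → α ≤ t'.1 → SplitLt r true t t' α ∨ Agree r s s' ((g β).δ α)
  saf : ∀ {t s t' s'}, Atom.pm i β t s ∈ a.1 → Atom.pm i β t' s' ∈ b.1 → ∀ ξ ∈ C t.1, ξ ∈ C t'.1 →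
    (t.1 = t'.1 ∧ s = s') ∨ Split r true t t' ξ ∨ Split r false s s' ξ ∨
      Filled r i β t s ξ ∨ Filled r i β t' s' ξ

theorem CLe_none {D : Dat J L} {i : J} {β : L} {q p : Rep J L} (h : ¬ occ p i β) :
    CLe C g D i β q p :=
  ⟨fun h1 => absurd (Or.inl ⟨_, _, _, h1⟩) h, fun h1 => absurd (Or.inr ⟨_, _, h1⟩) h,
    fun h1 => absurd (Or.inr ⟨_, _, h1⟩) h⟩

theorem amal_cd (a b : Cd C g) (r : Rep J L) (hBV : BV r) (hra : BLe r a.1) (hrb : BLe r b.1)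
    (hph : ∀ {i β u v k}, Atom.ph i β u v k ∈ r ↔ Atom.ph i β u v k ∈ a.1 ∨
      Atom.ph i β u v k ∈ b.1)
    (hpm : ∀ {i β t s}, Atom.pm i β t s ∈ r ↔ Atom.pm i β t s ∈ a.1 ∨ Atom.pm i β t s ∈ b.1)
    (hx : ∀ i β, ¬ occ a.1 i β ∨ ¬ occ b.1 i β ∨ Cross a b r i β) :
    ∃ r' : Cd C g, r'.1 = r ∧ r' ≤ a ∧ r' ≤ b := by
  have hA : ∀ i β, ¬ occ a.1 i β → (∀ {u v k}, Atom.ph i β u v k ∈ r ↔ Atom.ph i β u v k ∈ b.1) ∧
      ∀ {t s}, Atom.pm i β t s ∈ r ↔ Atom.pm i β t s ∈ b.1 := by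
    intro i β h
    refine ⟨fun {u v k} => ?_, fun {t s} => ?_⟩
    · rw [hph]
      exact ⟨fun h1 => h1.resolve_left fun h2 => h (Or.inl ⟨_, _, _, h2⟩), Or.inr⟩
    · rw [hpm]
      exact ⟨fun h1 => h1.resolve_left fun h2 => h (Or.inr ⟨_, _, h2⟩), Or.inr⟩
  have hB : ∀ i β, ¬ occ b.1 i β → (∀ {u v k}, Atom.ph i β u v k ∈ r ↔ Atom.ph i β u v k ∈ a.1) ∧
      ∀ {t s}, Atom.pm i β t s ∈ r ↔ Atom.pm i β t s ∈ a.1 := by
    intro i β h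
    refine ⟨fun {u v k} => ?_, fun {t s} => ?_⟩
    · rw [hph]
      exact ⟨fun h1 => h1.resolve_right fun h2 => h (Or.inl ⟨_, _, _, h2⟩), Or.inl⟩
    · rw [hpm]
      exact ⟨fun h1 => h1.resolve_right fun h2 => h (Or.inr ⟨_, _, h2⟩), Or.inl⟩
  have hCV : ∀ i β, CV C g (Data C g i) i β r := by
    intro i β
    rcases hx i β with h | h | h
    · exact CV_same b.bv hrb (hA i β h).1 (hA i β h).2 (b.cv i β)
    · exact CV_same a.bv hra (hB i β h).1 (hB i β h).2 (a.cv i β)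
    · have ca := a.cv i β
      have cb := b.cv i β
      have ha1 : ∀ {u v k}, Atom.ph i β u v k ∈ a.1 → Atom.ph i β u v k ∈ r := fun h => hph.2 (Or.inl h)
      have hb1 : ∀ {u v k}, Atom.ph i β u v k ∈ b.1 → Atom.ph i β u v k ∈ r := fun h => hph.2 (Or.inr h)
      refine ⟨fun {t s} h1 => ?_, fun {t s} h1 => ?_, ?_, ?_, fun {u v k} h1 => ?_,
        fun {u v k k'} h1 h2 => ?_⟩
      · rcases hpm.1 h1 with h1 | h1
        · exact ca.ok h1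
        · exact cb.ok h1
      · rcases hpm.1 h1 with h1 | h1
        · obtain ⟨h3, h4, h5⟩ := ca.nd h1
          exact ⟨hra.nN h3, hra.nN h4, h5⟩
        · obtain ⟨h3, h4, h5⟩ := cb.nd h1
          exact ⟨hrb.nN h3, hrb.nN h4, h5⟩
      · intro t s t' s' h1 h2 α hα h3 h4
        rcases hpm.1 h1 with h5 | h5 <;> rcases hpm.1 h2 with h6 | h6
        · exact (ca.agr h5 h6 α hα h3 h4).imp (SplitLt_mono hra a.bv) (Agree_mono hra a.bv)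
        · exact h.agr h5 h6 α hα h3 h4
        · exact (h.agr h6 h5 α hα h4 h3).imp SplitLt.symm Agree.symm
        · exact (cb.agr h5 h6 α hα h3 h4).imp (SplitLt_mono hrb b.bv) (Agree_mono hrb b.bv)
      · intro t s t' s' h1 h2 ξ h3 h4
        rcases hpm.1 h1 with h5 | h5 <;> rcases hpm.1 h2 with h6 | h6
        · exact (ca.saf h5 h6 ξ h3 h4).imp id (Or.imp (Split_mono hra a.bv)
            (Or.imp (Split_mono hra a.bv) (Or.imp (Filled_mono hra a.bv ha1)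
              (Filled_mono hra a.bv ha1))))
        · exact h.saf h5 h6 ξ h3 h4
        · rcases h.saf h6 h5 ξ h4 h3 with h7 | h7 | h7 | h7 | h7
          · exact Or.inl ⟨h7.1.symm, h7.2.symm⟩
          · exact Or.inr (Or.inl (Split.symm h7))
          · exact Or.inr (Or.inr (Or.inl (Split.symm h7)))
          · exact Or.inr (Or.inr (Or.inr (Or.inr h7)))
          · exact Or.inr (Or.inr (Or.inr (Or.inl h7)))
        · exact (cb.saf h5 h6 ξ h3 h4).imp id (Or.imp (Split_mono hrb b.bv)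
            (Or.imp (Split_mono hrb b.bv) (Or.imp (Filled_mono hrb b.bv hb1)
              (Filled_mono hrb b.bv hb1))))
      · rcases hph.1 h1 with h1 | h1
        · obtain ⟨h3, h4, h5⟩ := ca.ph h1
          exact ⟨hra.nN h3, hra.nN h4, h5⟩
        · obtain ⟨h3, h4, h5⟩ := cb.ph h1
          exact ⟨hrb.nN h3, hrb.nN h4, h5⟩
      · rcases hph.1 h1 with h1 | h1 <;> rcases hph.1 h2 with h2 | h2
        · exact ca.fn h1 h2
        · exact h.fn h1 h2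
        · exact (h.fn h2 h1).symm
        · exact cb.fn h1 h2
  refine ⟨⟨r, hBV, hCV⟩, rfl, ⟨hra, fun i β => ?_⟩, ⟨hrb, fun i β => ?_⟩⟩
  · rcases hx i β with h | h | h
    · exact CLe_none h
    · exact CLe_of_same (hB i β h).1 (hB i β h).2.2
    · refine ⟨fun h => hph.2 (Or.inl h), fun h => hpm.2 (Or.inl h), ?_⟩
      intro t s u v k h1 h2 h3 _ h4
      rcases hph.1 h2 with h2 | h2
      · exact absurd ⟨_, h2⟩ h3
      · exact absurd (h.pr1 h1 h2 h4) h3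
  · rcases hx i β with h | h | h
    · exact CLe_of_same (hA i β h).1 (hA i β h).2.2
    · exact CLe_none h
    · refine ⟨fun h => hph.2 (Or.inr h), fun h => hpm.2 (Or.inr h), ?_⟩
      intro t s u v k h1 h2 h3 _ h4
      rcases hph.1 h2 with h2 | h2
      · exact absurd (h.pr2 h1 h2 h4) h3
      · exact absurd ⟨_, h2⟩ h3

/-! ### inserting a new level in both trees -/

structure Ins (a a2 : Rep J L) (τ : Bool) (η : K1) (e : Finset Node → ℕ) (m : ℕ) : Prop where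
  nd : ∀ {x c}, Atom.nd τ x c ∈ a2 ↔ Atom.nd τ x c ∈ a ∨
    (c = m ∧ ∃ y, nN a τ y ∧ η < y.1 ∧ x = (η, e (lp a τ η y)))
  lt : ∀ {x y}, lL a2 τ x y ↔ lL a τ x y ∨
    (∃ z, nN a τ z ∧ η < z.1 ∧ y = (η, e (lp a τ η z)) ∧ lL a τ x z ∧ x.1 < η) ∨
    (nN a τ y ∧ η < y.1 ∧ x = (η, e (lp a τ η y)))

theorem Ins.nN {a a2 : Rep J L} {τ : Bool} {η : K1} {e : Finset Node → ℕ} {m : ℕ}
    (h : Ins a a2 τ η e m) {x : Node} : nN a2 τ x ↔ nN a τ x ∨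
      ∃ y, Poset.nN a τ y ∧ η < y.1 ∧ x = (η, e (lp a τ η y)) := by
  constructor
  · rintro ⟨c, hc⟩
    rcases h.nd.1 hc with h1 | h1
    · exact Or.inl ⟨c, h1⟩
    · exact Or.inr h1.2
  · rintro (⟨c, hc⟩ | h1)
    · exact ⟨c, h.nd.2 (Or.inl hc)⟩
    · exact ⟨m, h.nd.2 (Or.inr ⟨rfl, h1⟩)⟩

theorem lack_iff {a : Rep J L} (ha : BV a) {τ : Bool} {η : K1} (hη : ∀ x, nN a τ x → x.1 ≠ η)
    {y : Node} : Lack (nN a τ) (lL a τ) η y ↔ nN a τ y ∧ η < y.1 := by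
  refine ⟨fun h => ⟨h.1, h.2.1⟩, fun h => ⟨h.1, h.2, ?_⟩⟩
  rintro ⟨z, hz, hz'⟩
  exact hη z ((ha.ft τ).nl hz) hz'

theorem exists_ins2 (a : Cd C g) {η ζ : K1} (hη : ∀ x, nN a.1 false x → x.1 ≠ η)
    (hζ : ∀ x, nN a.1 true x → x.1 ≠ ζ) {eS eT : Finset Node → ℕ}
    (hS : ∀ P P' : Finset Node, (∀ z ∈ P, z.1 < η) → (∀ z ∈ P', z.1 < η) → eS P = eS P' → P = P')
    (hT : ∀ P P' : Finset Node, (∀ z ∈ P, z.1 < ζ) → (∀ z ∈ P', z.1 < ζ) → eT P = eT P' → P = P')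
    {m : ℕ} (hm : ∀ τ x c, Atom.nd τ x c ∈ a.1 → c ≠ m) :
    ∃ a2 : Cd C g, Bx a2 a ∧ Ins a.1 a2.1 false η eS m ∧ Ins a.1 a2.1 true ζ eT m := by
  obtain ⟨a1, h1, h2, h3⟩ := exists_ins a false η eS m (fun P h => hη _ h rfl) hS (hm false)
  have hnt : ∀ x c, Atom.nd true x c ∈ a1.1 ↔ Atom.nd true x c ∈ a.1 := fun x c => by
    rw [h2]; simp
  have hnt' : ∀ x, nN a1.1 true x ↔ nN a.1 true x := fun x => by
    unfold nN; simp only [hnt]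
  have hlt : ∀ x y, lL a1.1 true x y ↔ lL a.1 true x y := fun x y => by
    rw [h3]; simp
  have hlp : ∀ y, lp a1.1 true ζ y = lp a.1 true ζ y := fun y => by
    ext z; rw [mem_lp, mem_lp, hlt]
  obtain ⟨a2, h4, h5, h6⟩ := exists_ins a1 true ζ eT m
    (fun P h => hζ _ ((hnt' _).1 h) rfl) hT (fun x c hc => hm _ _ _ ((hnt _ _).1 hc))
  refine ⟨a2, h4.trans h1, ⟨fun {x c} => ?_, fun {x y} => ?_⟩, ⟨fun {x c} => ?_, fun {x y} => ?_⟩⟩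
  · rw [h5, h2]
    simp only [lack_iff a.bv hη, and_assoc, true_and, reduceCtorEq, false_and, or_false]
  · rw [h6, h3]
    simp only [lack_iff a.bv hη, and_assoc, true_and, reduceCtorEq, false_and, or_false]
  · rw [h5, hnt]
    simp only [lack_iff a1.bv (fun x hx => hζ x ((hnt' x).1 hx)), hnt', hlp, and_assoc, true_and]
  · rw [h6, hlt]
    simp only [lack_iff a1.bv (fun x hx => hζ x ((hnt' x).1 hx)), hnt', hlp, hlt, and_assoc,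
      true_and]

/-! ### the amalgamation -/

def rootAt (Λ : Set K1) (R : Set (J × L)) : Atom J L → Prop
  | .nd _ x _ => x.1 ∈ Λ
  | .lt _ x y => x.1 ∈ Λ ∧ y.1 ∈ Λ
  | .ph i β u v _ => u.1 ∈ Λ ∧ v.1 ∈ Λ ∧ (i, β) ∈ R
  | .pm i β t s => t.1 ∈ Λ ∧ s.1 ∈ Λ ∧ (i, β) ∈ R

structure Hyp (a b : Cd C g) (Λ : Set K1) (R : Set (J × L)) (ρ ζ η : K1) : Prop where
  hΛ : ∀ l ∈ Λ, l ≤ ρ
  ρζ : ρ < ζ
  ζη : ζ < η
  ζs : ∀ y, ρ < y → ζ ≤ y
  ζl : ∀ α, Order.IsSuccLimit α → ρ < α → ζ < α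
  la : ∀ {τ x}, nN a.1 τ x → x.1 ∈ Λ ∨ η < x.1
  lb : ∀ {τ x}, nN b.1 τ x → x.1 ∈ Λ ∨ η < x.1
  lab : ∀ {τ x τ' y}, nN a.1 τ x → nN b.1 τ' y → y.1 ∉ Λ → x.1 < y.1
  root : ∀ {c}, rootAt Λ R c → (c ∈ a.1 ↔ c ∈ b.1)
  non : ∀ {i β}, (i, β) ∉ R → ¬ occ a.1 i β ∨ ¬ occ b.1 i β
  fil : ∀ {i β t s}, (i, β) ∈ R → Atom.pm i β t s ∈ a.1 → t.1 ∉ Λ → ∀ ξ ∈ C t.1, ξ ≤ ρ →
    Filled a.1 i β t s ξ
  del : ∀ {i β}, (i, β) ∈ R → (g β).δ ρ ≤ η
  typ : ∀ {i β t' s'}, (i, β) ∈ R → Atom.pm i β t' s' ∈ b.1 → t'.1 ∉ Λ →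
    ∃ t s, Atom.pm i β t s ∈ a.1 ∧ t.1 ∉ Λ ∧ lp a.1 true η t = lp b.1 true η t' ∧
      lp a.1 false η s = lp b.1 false η s'

end Pool.Agent.Helper126.Sus.Amal2
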