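import Mathlib
import Pool.Agent.Helper126.Sus.Amal2

/-!
# Amalgamation of two conditions: the construction
-/

namespace Pool.Agent.Helper126.Sus.Amal3

open Cardinal Filter Pool.Agent.Helper126.Sus.Forc Pool.Agent.Helper126.Sus.Tree
  Pool.Agent.Helper126.Sus.Poset Pool.Agent.Helper126.Sus.Ext Pool.Agent.Helper126.Sus.Om
  Pool.Agent.Helper126.Sus.Dense Pool.Agent.Helper126.Sus.Prom Pool.Agent.Helper126.Sus.Amal1
  Pool.Agent.Helper126.Sus.Amal2

set_option linter.unusedSectionVars false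

variable {J L : Type} {C : K1 → Set K1} {g : L → Nm J L} [LinearOrder J] [WellFoundedLT J]

theorem common_lt {a a2 b b2 : Rep J L} {τ : Bool} {lv : K1} {ea eb : Finset Node → ℕ} {m : ℕ}
    (hA : Ins a a2 τ lv ea m) (hB : Ins b b2 τ lv eb m) (hna : ∀ x, nN a τ x → x.1 ≠ lv)
    (hnb : ∀ x, nN b τ x → x.1 ≠ lv) {Λ : Set K1} (hΛ : ∀ l ∈ Λ, l < lv)
    (ca : ∀ x, nN a τ x → nN b2 τ x → x.1 ∈ Λ)
    (hab : ∀ x y, lL a τ x y → y.1 ∈ Λ → lL b τ x y) (hfa : ∀ x y, lL a τ x y → nN a τ y)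
    (heab : ∀ P P' : Finset Node, (∀ z ∈ P, z.1 < lv) → (∀ z ∈ P', z.1 < lv) → ea P = eb P' →
      P = P')
    (hea : ∀ P P' : Finset Node, (∀ z ∈ P, z.1 < lv) → (∀ z ∈ P', z.1 < lv) → ea P = ea P' →
      P = P') {x y : Node} (hya : nN a2 τ y) (hyb : nN b2 τ y) (hl : lL a2 τ x y) :
    lL b2 τ x y := by
  rcases hA.nN.1 hya with h1 | ⟨z, hz1, hz2, rfl⟩
  · have hyΛ := ca y h1 hyb
    rcases hA.lt.1 hl with h2 | ⟨z, _, _, rfl, _⟩ | ⟨_, h3, _⟩
    · exact hB.lt.2 (Or.inl (hab _ _ h2 hyΛ))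
    · exact absurd rfl (hna _ h1)
    · exact absurd (hΛ _ hyΛ) (not_lt.2 h3.le)
  · rcases hB.nN.1 hyb with h1 | ⟨z', hz1', hz2', hz3'⟩
    · exact absurd rfl (hnb _ h1)
    · have hP : lp a τ lv z = lp b τ lv z' := heab _ _ (fun w hw => (mem_lp.1 hw).2)
        (fun w hw => (mem_lp.1 hw).2) (congrArg Prod.snd hz3')
      rcases hA.lt.1 hl with h2 | ⟨z1, h3, h4, h5, h6, h7⟩ | ⟨h3, _, _⟩
      · exact absurd rfl (hna _ (hfa _ _ h2))
      · have hP1 : lp a τ lv z = lp a τ lv z1 := hea _ _ (fun w hw => (mem_lp.1 hw).2)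
          (fun w hw => (mem_lp.1 hw).2) (congrArg Prod.snd h5)
        have h8 : x ∈ lp b τ lv z' := by
          rw [← hP, hP1]
          exact mem_lp.2 ⟨h6, h7⟩
        exact hB.lt.2 (Or.inr (Or.inl ⟨z', hz1', hz2', hz3', (mem_lp.1 h8).1, h7⟩))
      · exact absurd rfl (hna _ h3)

theorem lp_eq {p : Rep J L} (hp : BV p) {τ : Bool} {η : K1} {w s : Node} (h : wL p τ w s)
    (hw : η < w.1) : lp p τ η w = lp p τ η s := by
  rcases h with rfl | h
  · rfl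
  · ext z
    rw [mem_lp, mem_lp]
    refine and_congr_left fun hz => ⟨fun h3 => (hp.ft τ).tr h3 h, fun h3 => ?_⟩
    exact (hp.ft τ).cp h3 h (hz.trans hw)

theorem amal {a b : Cd C g} {Λ : Set K1} {R : Set (J × L)} {ρ ζ η : K1}
    (h : Hyp a b Λ R ρ ζ η) {x y : Node} (hx : nN a.1 false x) (hy : nN b.1 false y)
    (hxy : x = y ∨ (η < x.1 ∧ η < y.1 ∧ lp a.1 false η x = lp b.1 false η y)) :
    ∃ r : Cd C g, r ≤ a ∧ r ≤ b ∧ wL r.1 false x y := by
  classical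
  have hρη : ρ < η := h.ρζ.trans h.ζη
  have hΛη : ∀ {l}, l ∈ Λ → l < η := fun hl => (h.hΛ _ hl).trans_lt hρη
  have hΛζ : ∀ {l}, l ∈ Λ → l < ζ := fun hl => (h.hΛ _ hl).trans_lt h.ρζ
  have ha_le : ∀ {τ x}, nN a.1 τ x → x.1 ≤ η → x.1 ∈ Λ := fun h1 h2 =>
    (h.la h1).resolve_right (not_lt.2 h2)
  have hb_le : ∀ {τ x}, nN b.1 τ x → x.1 ≤ η → x.1 ∈ Λ := fun h1 h2 =>
    (h.lb h1).resolve_right (not_lt.2 h2)
  have ha_η : ∀ τ x, nN a.1 τ x → x.1 ≠ η := fun τ x h1 h2 =>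
    absurd (hΛη (ha_le h1 h2.le)) (by rw [h2]; exact lt_irrefl _)
  have hb_η : ∀ τ x, nN b.1 τ x → x.1 ≠ η := fun τ x h1 h2 =>
    absurd (hΛη (hb_le h1 h2.le)) (by rw [h2]; exact lt_irrefl _)
  have ha_ζ : ∀ τ x, nN a.1 τ x → x.1 ≠ ζ := fun τ x h1 h2 =>
    absurd (hΛζ (ha_le h1 (h2.le.trans h.ζη.le))) (by rw [h2]; exact lt_irrefl _)
  have hb_ζ : ∀ τ x, nN b.1 τ x → x.1 ≠ ζ := fun τ x h1 h2 =>
    absurd (hΛζ (hb_le h1 (h2.le.trans h.ζη.le))) (by rw [h2]; exact lt_irrefl _)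
  obtain ⟨m1, hm1⟩ := exists_fresh a.1
  obtain ⟨m2, hm2⟩ := exists_fresh b.1
  obtain ⟨eS, heS⟩ := exists_enc η
  obtain ⟨e0, he0⟩ := exists_enc ζ
  have heTa : ∀ P P' : Finset Node, (∀ z ∈ P, z.1 < ζ) → (∀ z ∈ P', z.1 < ζ) →
      (fun P => 2 * e0 P) P = (fun P => 2 * e0 P) P' → P = P' := fun P P' h1 h2 h3 =>
    he0 P P' h1 h2 (by simpa using h3)
  have heTb : ∀ P P' : Finset Node, (∀ z ∈ P, z.1 < ζ) → (∀ z ∈ P', z.1 < ζ) →
      (fun P => 2 * e0 P + 1) P = (fun P => 2 * e0 P + 1) P' → P = P' := fun P P' h1 h2 h3 =>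
    he0 P P' h1 h2 (by simpa using h3)
  obtain ⟨a2, hax, haS, haT⟩ := exists_ins2 a (ha_η false) (ha_ζ true) heS heTa (m := max m1 m2)
    (fun τ x c hc => ((hm1 _ _ _ hc).2.trans_le (le_max_left _ _)).ne)
  obtain ⟨b2, hbx, hbS, hbT⟩ := exists_ins2 b (hb_η false) (hb_ζ true) heS heTb (m := max m1 m2)
    (fun τ x c hc => ((hm2 _ _ _ hc).2.trans_le (le_max_right _ _)).ne)
  -- common nodes
  have ca : ∀ {τ x}, nN a.1 τ x → nN b2.1 τ x → x.1 ∈ Λ := by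
    intro τ x h1 h2
    have h3 : nN b.1 τ x → x.1 ∈ Λ := fun h3 => by
      by_contra hn
      exact lt_irrefl _ (h.lab h1 h3 hn)
    cases τ with
    | false =>
      rcases hbS.nN.1 h2 with h4 | ⟨z, _, _, rfl⟩
      · exact h3 h4
      · exact absurd rfl (ha_η _ _ h1)
    | true =>
      rcases hbT.nN.1 h2 with h4 | ⟨z, _, _, rfl⟩
      · exact h3 h4
      · exact absurd rfl (ha_ζ _ _ h1)
  have cb : ∀ {τ x}, nN b.1 τ x → nN a2.1 τ x → x.1 ∈ Λ := by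
    intro τ x h1 h2
    have h3 : nN a.1 τ x → x.1 ∈ Λ := fun h3 => by
      by_contra hn
      exact lt_irrefl _ (h.lab h3 h1 hn)
    cases τ with
    | false =>
      rcases haS.nN.1 h2 with h4 | ⟨z, _, _, rfl⟩
      · exact h3 h4
      · exact absurd rfl (hb_η _ _ h1)
    | true =>
      rcases haT.nN.1 h2 with h4 | ⟨z, _, _, rfl⟩
      · exact h3 h4
      · exact absurd rfl (hb_ζ _ _ h1)
  have lab1 : ∀ τ x y, lL a.1 τ x y → y.1 ∈ Λ → lL b.1 τ x y := by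
    intro τ x y h1 h2
    have h3 : x.1 ∈ Λ := ha_le ((a.bv.ft τ).nl h1) (((a.bv.ft τ).lv h1).trans (hΛη h2)).le
    exact (h.root (c := .lt τ x y) ⟨h3, h2⟩).1 h1
  have lab2 : ∀ τ x y, lL b.1 τ x y → y.1 ∈ Λ → lL a.1 τ x y := by
    intro τ x y h1 h2
    have h3 : x.1 ∈ Λ := hb_le ((b.bv.ft τ).nl h1) (((b.bv.ft τ).lv h1).trans (hΛη h2)).le
    exact (h.root (c := .lt τ x y) ⟨h3, h2⟩).2 h1
  have hpar : ∀ P P' : Finset Node, (2 * e0 P : ℕ) ≠ 2 * e0 P' + 1 := fun P P' => by omega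
  have hc1 : ∀ {τ x y}, nN a2.1 τ y → nN b2.1 τ y → lL a2.1 τ x y → lL b2.1 τ x y := by
    intro τ x y h1 h2 h3
    cases τ with
    | false =>
      exact common_lt haS hbS (ha_η _) (hb_η _) (fun l hl => hΛη hl)
        (fun x h4 h5 => ca h4 h5) (lab1 _) (fun x y h4 => (a.bv.ft _).nr h4) heS heS h1 h2 h3
    | true =>
      exact common_lt haT hbT (ha_ζ _) (hb_ζ _) (fun l hl => hΛζ hl)
        (fun x h4 h5 => ca h4 h5) (lab1 _) (fun x y h4 => (a.bv.ft _).nr h4)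
        (fun P P' _ _ h6 => absurd h6 (hpar _ _)) heTa h1 h2 h3
  have hc2 : ∀ {τ x y}, nN a2.1 τ y → nN b2.1 τ y → lL b2.1 τ x y → lL a2.1 τ x y := by
    intro τ x y h1 h2 h3
    cases τ with
    | false =>
      exact common_lt hbS haS (hb_η _) (ha_η _) (fun l hl => hΛη hl)
        (fun x h4 h5 => cb h4 h5) (lab2 _) (fun x y h4 => (b.bv.ft _).nr h4) heS heS h2 h1 h3
    | true =>
      exact common_lt hbT haT (hb_ζ _) (ha_ζ _) (fun l hl => hΛζ hl)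
        (fun x h4 h5 => cb h4 h5) (lab2 _) (fun x y h4 => (b.bv.ft _).nr h4)
        (fun P P' _ _ h6 => absurd h6.symm (hpar _ _)) heTb h2 h1 h3
  -- the union
  let R0 : Rep J L := uni a2.1 b2.1
  have eN : ∀ {τ x}, nN R0 τ x ↔ nN a2.1 τ x ∨ nN b2.1 τ x := by
    intro τ x
    constructor
    · rintro ⟨c, hc⟩
      rcases mem_uni.1 hc with h1 | h1
      · exact Or.inl ⟨c, h1⟩
      · exact Or.inr ⟨c, h1⟩
    · rintro (⟨c, hc⟩ | ⟨c, hc⟩)
      · exact ⟨c, mem_uni.2 (Or.inl hc)⟩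
      · exact ⟨c, mem_uni.2 (Or.inr hc)⟩
  have eL : ∀ {τ x y}, lL R0 τ x y ↔ lL a2.1 τ x y ∨ lL b2.1 τ x y := fun {τ x y} => mem_uni
  have hFT0 : ∀ τ, FT (nN R0 τ) (lL R0 τ) := fun τ =>
    ((a2.bv.ft τ).union (b2.bv.ft τ) (fun u v h1 h2 => ⟨hc1 h1 h2, hc2 h1 h2⟩)).congr
      (fun x => eN) (fun x y => eL)
  -- the graft
  let W : Node := (η, eS (lp a.1 false η x))
  let Hc : Prop := η < x.1 ∧ η < y.1 ∧ lp a.1 false η x = lp b.1 false η y
  let B : Node → Prop := fun b' => Hc ∧ nN b.1 false b' ∧ lL b2.1 false W b'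
  let G : Node → Node → Prop := fun a' b' =>
    lL R0 false W a' ∧ (a' = x ∨ lL R0 false a' x) ∧ B b'
  have hBη : ∀ {b'}, B b' → η < b'.1 := fun {b'} hb => (b2.bv.ft false).lv hb.2.2
  have hBa : ∀ {b'}, B b' → ¬ nN a2.1 false b' := fun {b'} hb h1 =>
    absurd (hΛη (cb hb.2.1 h1)) (not_lt.2 (hBη hb).le)
  have hold : ∀ {c}, nN b2.1 false c → η < c.1 → nN b.1 false c := by
    intro c h1 h2
    rcases hbS.nN.1 h1 with h3 | ⟨z, _, _, rfl⟩
    · exact h3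
    · exact absurd h2 (lt_irrefl _)
  have holda : ∀ {c}, nN a2.1 false c → η < c.1 → nN a.1 false c := by
    intro c h1 h2
    rcases haS.nN.1 h1 with h3 | ⟨z, _, _, rfl⟩
    · exact h3
    · exact absurd h2 (lt_irrefl _)
  have hxR : nN R0 false x := eN.2 (Or.inl (le_nN hax.1 hx))
  have hgr : FT (nN R0 false) (fun a' b' => lL R0 false a' b' ∨ G a' b') := by
    refine (hFT0 false).graft (w := W) (x := x) (B := B) (fun b' hb => ?_) hxR
      (fun c b' hb h1 h2 => ?_) (fun b' c hb h1 => ?_)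
    · refine ⟨eL.2 (Or.inr hb.2.2), h.lab hx hb.2.1 fun h1 => ?_⟩
      exact absurd (hΛη h1) (not_lt.2 (hBη hb).le)
    · rcases eL.1 h1 with h3 | h3
      · exact absurd ((a2.bv.ft false).nr h3) (hBa hb)
      · exact ⟨hb.1, hold ((b2.bv.ft false).nl h3) h2, (b2.bv.ft false).cp hb.2.2 h3 h2⟩
    · rcases eL.1 h1 with h3 | h3
      · exact absurd ((a2.bv.ft false).nl h3) (hBa hb)
      · exact ⟨hb.1, hold ((b2.bv.ft false).nr h3) ((hBη hb).trans ((b2.bv.ft false).lv h3)),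
          (b2.bv.ft false).tr hb.2.2 h3⟩
  have hfin : {z : Node × Node | G z.1 z.2}.Finite := by
    refine Set.Finite.subset ((fin_node R0 false).prod (fin_node b.1 false)) ?_
    rintro ⟨a', b'⟩ ⟨h1, h2, h3⟩
    exact ⟨(hFT0 false).nr h1, h3.2.1⟩
  let A : Rep J L := hfin.toFinset.image fun z => Atom.lt false z.1 z.2
  have hA : ∀ c, c ∈ A ↔ ∃ a' b', G a' b' ∧ c = Atom.lt false a' b' := by
    intro c
    simp only [A, Finset.mem_image, Set.Finite.mem_toFinset, Set.mem_ofPred_eq]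
    constructor
    · rintro ⟨⟨a', b'⟩, h1, rfl⟩; exact ⟨a', b', h1, rfl⟩
    · rintro ⟨a', b', h1, rfl⟩; exact ⟨⟨a', b'⟩, h1, rfl⟩
  let r : Rep J L := uni R0 A
  have rnd : ∀ {τ z c}, Atom.nd τ z c ∈ r ↔ Atom.nd τ z c ∈ a2.1 ∨ Atom.nd τ z c ∈ b2.1 := by
    intro τ z c
    show _ ∈ uni R0 A ↔ _
    rw [mem_uni, hA]
    simp only [reduceCtorEq, and_false, exists_false, or_false]
    exact mem_uni
  have rph : ∀ {i β u v k}, Atom.ph i β u v k ∈ r ↔ Atom.ph i β u v k ∈ a2.1 ∨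
      Atom.ph i β u v k ∈ b2.1 := by
    intro i β u v k
    show _ ∈ uni R0 A ↔ _
    rw [mem_uni, hA]
    simp only [reduceCtorEq, and_false, exists_false, or_false]
    exact mem_uni
  have rpm : ∀ {i β t s}, Atom.pm i β t s ∈ r ↔ Atom.pm i β t s ∈ a2.1 ∨
      Atom.pm i β t s ∈ b2.1 := by
    intro i β t s
    show _ ∈ uni R0 A ↔ _
    rw [mem_uni, hA]
    simp only [reduceCtorEq, and_false, exists_false, or_false]
    exact mem_uni
  have rlt : ∀ {τ u v}, lL r τ u v ↔ lL R0 τ u v ∨ (τ = false ∧ G u v) := by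
    intro τ u v
    show _ ∈ uni R0 A ↔ _
    rw [mem_uni, hA]
    refine or_congr Iff.rfl ?_
    constructor
    · rintro ⟨a', b', h1, h2⟩
      simp only [Atom.lt.injEq] at h2
      obtain ⟨rfl, rfl, rfl⟩ := h2
      exact ⟨rfl, h1⟩
    · rintro ⟨rfl, h1⟩
      exact ⟨u, v, h1, rfl⟩
  have rnN : ∀ {τ z}, nN r τ z ↔ nN R0 τ z := by
    intro τ z
    rw [eN]
    constructor
    · rintro ⟨c, hc⟩
      rcases rnd.1 hc with h1 | h1
      · exact Or.inl ⟨c, h1⟩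
      · exact Or.inr ⟨c, h1⟩
    · rintro (⟨c, hc⟩ | ⟨c, hc⟩)
      · exact ⟨c, rnd.2 (Or.inl hc)⟩
      · exact ⟨c, rnd.2 (Or.inr hc)⟩
  have rtr : ∀ {u v}, lL r true u v ↔ lL a2.1 true u v ∨ lL b2.1 true u v := by
    intro u v
    rw [rlt]; simp only [reduceCtorEq, false_and, or_false]
    exact eL
  have hra : BLe r a2.1 := by
    refine ⟨fun {τ z c} h1 => rnd.2 (Or.inl h1), fun {τ u v} hu hv => ?_⟩
    rw [rlt, eL]
    constructor
    · rintro ((h1 | h1) | ⟨rfl, h1⟩)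
      · exact h1
      · exact hc2 hv ((b2.bv.ft τ).nr h1) h1
      · exact absurd hv (hBa h1.2.2)
    · exact fun h1 => Or.inl (Or.inl h1)
  have hrb : BLe r b2.1 := by
    refine ⟨fun {τ z c} h1 => rnd.2 (Or.inr h1), fun {τ u v} hu hv => ?_⟩
    rw [rlt, eL]
    constructor
    · rintro ((h1 | h1) | ⟨rfl, h1⟩)
      · exact hc1 ((a2.bv.ft τ).nr h1) hv h1
      · exact h1
      · exfalso
        obtain ⟨h2, h3, h4⟩ := h1
        have hxb : ¬ nN b2.1 false x := fun h5 =>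
          absurd (hΛη (ca hx h5)) (not_lt.2 h4.1.1.le)
        have huη : η < u.1 := (hFT0 false).lv h2
        rcases h3 with rfl | h3
        · exact hxb hu
        · rcases eL.1 h3 with h5 | h5
          · exact absurd (hΛη (ca (holda ((a2.bv.ft false).nl h5) huη) hu)) (not_lt.2 huη.le)
          · exact hxb ((b2.bv.ft false).nr h5)
    · exact fun h1 => Or.inl (Or.inr h1)
  have hfn : ∀ {τ z c c'}, Atom.nd τ z c ∈ a2.1 → Atom.nd τ z c' ∈ b2.1 → c = c' := by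
    intro τ z c c' h1 h2
    cases τ with
    | false =>
      rcases haS.nd.1 h1 with h3 | ⟨rfl, w, _, _, rfl⟩
      · have h4 := ca ⟨c, h3⟩ ⟨c', h2⟩
        rcases hbS.nd.1 h2 with h5 | ⟨_, w, _, _, rfl⟩
        · exact b.bv.fn ((h.root (c := .nd false z c) h4).1 h3) h5
        · exact absurd rfl (ha_η _ _ ⟨c, h3⟩)
      · rcases hbS.nd.1 h2 with h5 | ⟨h5, _⟩
        · exact absurd rfl (hb_η _ _ ⟨c', h5⟩)
        · exact h5.symm
    | true =>
      rcases haT.nd.1 h1 with h3 | ⟨rfl, w, _, _, rfl⟩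
      · have h4 := ca ⟨c, h3⟩ ⟨c', h2⟩
        rcases hbT.nd.1 h2 with h5 | ⟨_, w, _, _, rfl⟩
        · exact b.bv.fn ((h.root (c := .nd true z c) h4).1 h3) h5
        · exact absurd rfl (ha_ζ _ _ ⟨c, h3⟩)
      · rcases hbT.nd.1 h2 with h5 | ⟨h5, _⟩
        · exact absurd rfl (hb_ζ _ _ ⟨c', h5⟩)
        · exact h5.symm
  have hrfn : ∀ {τ z c c'}, Atom.nd τ z c ∈ r → Atom.nd τ z c' ∈ r → c = c' := by
    intro τ z c c' h1 h2
    rcases rnd.1 h1 with h1 | h1 <;> rcases rnd.1 h2 with h2 | h2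
    · exact a2.bv.fn h1 h2
    · exact hfn h1 h2
    · exact (hfn h2 h1).symm
    · exact b2.bv.fn h1 h2
  have hBV : BV r := by
    refine ⟨fun τ => ?_, hrfn, fun {u v c} h1 h2 h3 => ?_⟩
    · cases τ with
      | false => exact hgr.congr (fun z => rnN) (fun u v => by rw [rlt]; simp)
      | true => exact (hFT0 true).congr (fun z => rnN) (fun u v => by rw [rlt]; simp)
    · rcases rtr.1 h1 with h4 | h4
      · obtain ⟨c1, hc1⟩ := (a2.bv.ft true).nl h4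
        obtain ⟨c2, hc2⟩ := (a2.bv.ft true).nr h4
        have e1 := hrfn (rnd.2 (Or.inl hc1)) h2
        have e2 := hrfn (rnd.2 (Or.inl hc2)) h3
        subst e1 e2
        exact a2.bv.sp h4 hc1 hc2
      · obtain ⟨c1, hc1⟩ := (b2.bv.ft true).nl h4
        obtain ⟨c2, hc2⟩ := (b2.bv.ft true).nr h4
        have e1 := hrfn (rnd.2 (Or.inr hc1)) h2
        have e2 := hrfn (rnd.2 (Or.inr hc2)) h3
        subst e1 e2
        exact b2.bv.sp h4 hc1 hc2
  have hra' : BLe r a.1 := hra.trans hax.1.1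
  have hrb' : BLe r b.1 := hrb.trans hbx.1.1
  have rpa : ∀ {i β t s}, Atom.pm i β t s ∈ a.1 → (i, β) ∈ R → t.1 ∈ Λ → Atom.pm i β t s ∈ b.1 := by
    intro i β t s h1 h2 h3
    obtain ⟨_, hn, _, hδ⟩ := (a.cv i β).nd h1
    have h4 : s.1 ∈ Λ := ha_le hn (by
      rw [hδ]
      exact (((a.cv i β).ok h1).mono (h.hΛ _ h3)).trans (h.del h2))
    exact (h.root (c := .pm i β t s) ⟨h3, h4, h2⟩).1 h1
  have rpb : ∀ {i β t s}, Atom.pm i β t s ∈ b.1 → (i, β) ∈ R → t.1 ∈ Λ → Atom.pm i β t s ∈ a.1 := by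
    intro i β t s h1 h2 h3
    obtain ⟨_, hn, _, hδ⟩ := (b.cv i β).nd h1
    have h4 : s.1 ∈ Λ := hb_le hn (by
      rw [hδ]
      exact (((b.cv i β).ok h1).mono (h.hΛ _ h3)).trans (h.del h2))
    exact (h.root (c := .pm i β t s) ⟨h3, h4, h2⟩).2 h1
  -- the split at level `ζ`
  have hspl : ∀ {t t'}, nN a.1 true t → nN b.1 true t' → t.1 ∉ Λ → t'.1 ∉ Λ →
      ∃ v w : Node, wL r true v t ∧ wL r true w t' ∧ v.1 = ζ ∧ w.1 = ζ ∧ v ≠ w := by
    intro t t' h1 h2 h3 h4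
    have h5 : ζ < t.1 := h.ζη.trans ((h.la h1).resolve_left h3)
    have h6 : ζ < t'.1 := h.ζη.trans ((h.lb h2).resolve_left h4)
    refine ⟨(ζ, 2 * e0 (lp a.1 true ζ t)), (ζ, 2 * e0 (lp b.1 true ζ t') + 1), Or.inr ?_, Or.inr ?_,
      rfl, rfl, fun h7 => hpar _ _ (congrArg Prod.snd h7)⟩
    · exact rtr.2 (Or.inl (haT.lt.2 (Or.inr (Or.inr ⟨h1, h5, rfl⟩))))
    · exact rtr.2 (Or.inr (hbT.lt.2 (Or.inr (Or.inr ⟨h2, h6, rfl⟩))))
  obtain ⟨r', hr', h1, h2⟩ := amal_cd a2 b2 r hBV hra hrb rph rpm (by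
    intro i β
    by_cases hR : (i, β) ∈ R
    swap
    · rcases h.non hR with h1 | h1
      · left
        rintro (⟨u, v, k, h2⟩ | ⟨t, s, h2⟩)
        · exact h1 (Or.inl ⟨u, v, k, hax.ph.1 h2⟩)
        · exact h1 (Or.inr ⟨t, s, hax.pm.1 h2⟩)
      · right; left
        rintro (⟨u, v, k, h2⟩ | ⟨t, s, h2⟩)
        · exact h1 (Or.inl ⟨u, v, k, hbx.ph.1 h2⟩)
        · exact h1 (Or.inr ⟨t, s, hbx.pm.1 h2⟩)
    right; right
    refine ⟨?_, ?_, ?_, ?_, ?_⟩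
    · intro u v k k' h1 h2
      rw [hax.ph] at h1
      rw [hbx.ph] at h2
      obtain ⟨h3, h4, h5⟩ := (a.cv i β).ph h1
      obtain ⟨h6, h7, _⟩ := (b.cv i β).ph h2
      have h8 : u.1 ∈ Λ := by
        by_contra hn
        exact lt_irrefl _ (h.lab h3 h6 hn)
      have h9 := (h.root (c := .ph i β u v k) ⟨h8, h5 ▸ h8, hR⟩).1 h1
      exact (b.cv i β).fn h9 h2
    · intro t s u v k h1 h2 h3
      rw [hax.pm] at h1
      rw [hbx.ph] at h2
      obtain ⟨h4, h5, h6⟩ := (b.cv i β).ph h2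
      obtain ⟨h7, _⟩ := (a.cv i β).nd h1
      have h8 : v.1 ∈ Λ := by
        rcases rtr.1 h3 with h9 | h9
        · exact cb h5 ((a2.bv.ft true).nl h9)
        · have h10 := ca h7 ((b2.bv.ft true).nr h9)
          exact hb_le h5 (((b2.bv.ft true).lv h9).trans (hΛη h10)).le
      exact ⟨k, hax.ph.2 ((h.root (c := .ph i β u v k) ⟨h6 ▸ h8, h8, hR⟩).2 h2)⟩
    · intro t s u v k h1 h2 h3
      rw [hbx.pm] at h1
      rw [hax.ph] at h2
      obtain ⟨h4, h5, h6⟩ := (a.cv i β).ph h2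
      obtain ⟨h7, _⟩ := (b.cv i β).nd h1
      have h8 : v.1 ∈ Λ := by
        rcases rtr.1 h3 with h9 | h9
        · have h10 := cb h7 ((a2.bv.ft true).nr h9)
          exact ha_le h5 (((a2.bv.ft true).lv h9).trans (hΛη h10)).le
        · exact ca h5 ((b2.bv.ft true).nl h9)
      exact ⟨k, hbx.ph.2 ((h.root (c := .ph i β u v k) ⟨h6 ▸ h8, h8, hR⟩).1 h2)⟩
    · intro t s t' s' h1 h2 α hα h3 h4
      rw [hax.pm] at h1
      rw [hbx.pm] at h2
      by_cases ht : t.1 ∈ Λ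
      · exact ((b.cv i β).agr (rpa h1 hR ht) h2 α hα h3 h4).imp (SplitLt_mono hrb' b.bv)
          (Agree_mono hrb' b.bv)
      by_cases ht' : t'.1 ∈ Λ
      · exact ((a.cv i β).agr h1 (rpb h2 hR ht') α hα h3 h4).imp (SplitLt_mono hra' a.bv)
          (Agree_mono hra' a.bv)
      obtain ⟨hn1, hn2, _, hδ1⟩ := (a.cv i β).nd h1
      obtain ⟨hn1', hn2', _, hδ1'⟩ := (b.cv i β).nd h2
      rcases le_or_gt α ρ with hαρ | hαρ
      · obtain ⟨t1, s1, h5, h6, h7, h8⟩ := h.typ hR h2 ht'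
        obtain ⟨hm1, hm2, _, hδm⟩ := (a.cv i β).nd h5
        have hok := (a.cv i β).ok h1
        have ht1 : η < t1.1 := (h.la hm1).resolve_left h6
        have hs1 : η < s1.1 := by rw [hδm]; exact ht1.trans_le (hok.le _)
        rcases (a.cv i β).agr h1 h5 α hα h3 ((hαρ.trans hρη.le).trans ht1.le) with h9 | h9
        · left
          obtain ⟨v, w, h10, h11, h12, h13, h14⟩ := h9
          have hwα : w.1 < η := by rw [← h12]; exact (h13.trans_le hαρ).trans hρη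
          have h15 : lL a.1 true w t1 := by
            rcases h11 with rfl | h11
            · exact absurd hwα (not_lt.2 ht1.le)
            · exact h11
          have h16 : w ∈ lp b.1 true η t' := by
            rw [← h7]; exact mem_lp.2 ⟨h15, hwα⟩
          exact ⟨v, w, wL_mono hra' a.bv h10,
            Or.inr (hrb'.lL b.bv (mem_lp.1 h16).1), h12, h13, h14⟩
        · right
          obtain ⟨w, h10, h11, h12⟩ := h9
          by_cases hw : η < w.1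
          · have e1 := lp_eq a.bv h10 hw
            have e2 := lp_eq a.bv h11 hw
            have hs : η < s.1 := hw.trans_le (wL_lv a.bv h10)
            have hs' : η < s'.1 := by
              rw [hδ1']
              exact ((h.lb hn1').resolve_left ht').trans_le (((b.cv i β).ok h2).le _)
            refine ⟨(η, eS (lp a.1 false η s)), Or.inr ?_, Or.inr ?_, ?_⟩
            · exact rlt.2 (Or.inl (eL.2 (Or.inl (haS.lt.2 (Or.inr (Or.inr ⟨hn2, hs, rfl⟩))))))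
            · refine rlt.2 (Or.inl (eL.2 (Or.inr (hbS.lt.2 (Or.inr (Or.inr ⟨hn2', hs', ?_⟩))))))
              rw [← e1, e2, h8]
            · exact (hok.mono hαρ).trans (h.del hR)
          · have hwη : w.1 < η := lt_of_le_of_ne (not_lt.1 hw) (ha_η false w (wL_nN a.bv h10 hn2))
            have h15 : lL a.1 false w s1 := by
              rcases h11 with rfl | h11
              · exact absurd hs1 hw
              · exact h11
            have h16 : w ∈ lp b.1 false η s' := by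
              rw [← h8]; exact mem_lp.2 ⟨h15, hwη⟩
            exact ⟨w, wL_mono hra' a.bv h10, Or.inr (hrb'.lL b.bv (mem_lp.1 h16).1), h12⟩
      · left
        obtain ⟨v, w, h5, h6, h7, h8, h9⟩ := hspl hn1 hn1' ht ht'
        exact ⟨v, w, h5, h6, by rw [h7, h8], by rw [h7]; exact h.ζl α hα hαρ, h9⟩
    · intro t s t' s' h1 h2 ξ h3 h4
      rw [hax.pm] at h1
      rw [hbx.pm] at h2
      have ha1 : ∀ {u v k}, Atom.ph i β u v k ∈ a.1 → Atom.ph i β u v k ∈ r := fun h =>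
        rph.2 (Or.inl (hax.ph.2 h))
      have hb1 : ∀ {u v k}, Atom.ph i β u v k ∈ b.1 → Atom.ph i β u v k ∈ r := fun h =>
        rph.2 (Or.inr (hbx.ph.2 h))
      by_cases ht : t.1 ∈ Λ
      · exact ((b.cv i β).saf (rpa h1 hR ht) h2 ξ h3 h4).imp id (Or.imp (Split_mono hrb' b.bv)
            (Or.imp (Split_mono hrb' b.bv) (Or.imp (Filled_mono hrb' b.bv hb1)
              (Filled_mono hrb' b.bv hb1))))
      by_cases ht' : t'.1 ∈ Λ
      · exact ((a.cv i β).saf h1 (rpb h2 hR ht') ξ h3 h4).imp id (Or.imp (Split_mono hra' a.bv)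
            (Or.imp (Split_mono hra' a.bv) (Or.imp (Filled_mono hra' a.bv ha1)
              (Filled_mono hra' a.bv ha1))))
      obtain ⟨hn1, hn2, _, hδ1⟩ := (a.cv i β).nd h1
      obtain ⟨hn1', hn2', _, hδ1'⟩ := (b.cv i β).nd h2
      rcases le_or_gt ξ ρ with hξρ | hξρ
      · exact Or.inr (Or.inr (Or.inr (Or.inl (Filled_mono hra' a.bv ha1
          (h.fil hR h1 ht ξ h3 hξρ)))))
      · obtain ⟨v, w, h5, h6, h7, h8, h9⟩ := hspl hn1 hn1' ht ht'
        exact Or.inr (Or.inl ⟨v, w, h5, h6, by rw [h7, h8], by rw [h7]; exact h.ζs ξ hξρ, h9⟩))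
  refine ⟨r', h1.trans hax.1, h2.trans hbx.1, ?_⟩
  rw [hr']
  rcases hxy with hxy | hxy
  · exact Or.inl hxy
  · refine Or.inr (rlt.2 (Or.inr ⟨rfl, ?_, Or.inl rfl, hxy, hy, ?_⟩))
    · exact eL.2 (Or.inl (haS.lt.2 (Or.inr (Or.inr ⟨hx, hxy.1, rfl⟩))))
    · refine hbS.lt.2 (Or.inr (Or.inr ⟨hy, hxy.2.1, ?_⟩))
      show ((η, eS (lp a.1 false η x)) : Node) = _
      rw [hxy.2.2]

end Pool.Agent.Helper126.Sus.Amal3
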