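import Mathlib
import Pool.Agent.Helper126.Sus.Amal3

/-!
# The countable chain condition
-/

namespace Pool.Agent.Helper126.Sus.Amal4

open Cardinal Filter Pool.Agent.Helper126.Sus.Forc Pool.Agent.Helper126.Sus.Tree
  Pool.Agent.Helper126.Sus.Poset Pool.Agent.Helper126.Sus.Ext Pool.Agent.Helper126.Sus.Om
  Pool.Agent.Helper126.Sus.Dense Pool.Agent.Helper126.Sus.Prom Pool.Agent.Helper126.Sus.Amal1
  Pool.Agent.Helper126.Sus.Amal2 Pool.Agent.Helper126.Sus.Amal3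

set_option linter.unusedSectionVars false

variable {J L : Type} [LinearOrder J] [WellFoundedLT J]

/-- the types of the new promises -/
def typ (p : Rep J L) (Λ : Set K1) (R : Set (J × L)) (η : K1) :
    Set ((J × L) × Finset Node × Finset Node) :=
  {y | ∃ t s, Atom.pm y.1.1 y.1.2 t s ∈ p ∧ y.1 ∈ R ∧ t.1 ∉ Λ ∧ lp p true η t = y.2.1 ∧
    lp p false η s = y.2.2}

theorem fin_allpm (p : Rep J L) :
    {x : (J × L) × Node × Node | Atom.pm x.1.1 x.1.2 x.2.1 x.2.2 ∈ p}.Finite := by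
  have : {x : (J × L) × Node × Node | Atom.pm x.1.1 x.1.2 x.2.1 x.2.2 ∈ p} =
    (fun x : (J × L) × Node × Node => Atom.pm x.1.1 x.1.2 x.2.1 x.2.2) ⁻¹'
      (p : Set (Atom J L)) := rfl
  rw [this]
  refine p.finite_toSet.preimage ?_
  rintro ⟨⟨a, b⟩, c, d⟩ _ ⟨⟨a', b'⟩, c', d'⟩ _ h
  simp only [Atom.pm.injEq] at h
  obtain ⟨rfl, rfl, rfl, rfl⟩ := h
  rfl

theorem fin_typ (p : Rep J L) (Λ : Set K1) (R : Set (J × L)) (η : K1) :
    (typ p Λ R η).Finite := by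
  refine ((fin_allpm p).image fun x => (x.1, lp p true η x.2.1, lp p false η x.2.2)).subset ?_
  rintro ⟨c, P, P'⟩ ⟨t, s, h1, h2, h3, h4, h5⟩
  exact ⟨(c, t, s), h1, by simp only [h4, h5]⟩

theorem countable_root {Λ : Set K1} {R : Set (J × L)} (hΛ : Λ.Countable) (hR : R.Countable) :
    {c : Atom J L | rootAt Λ R c}.Countable := by
  have hN := countable_nodes hΛ
  have h1 : ((fun y : Bool × Node × ℕ => (Atom.nd y.1 y.2.1 y.2.2 : Atom J L)) ''
      (Set.univ ×ˢ {x : Node | x.1 ∈ Λ} ×ˢ Set.univ)).Countable :=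
    (Set.countable_univ.prod (hN.prod Set.countable_univ)).image _
  have h2 : ((fun y : Bool × Node × Node => (Atom.lt y.1 y.2.1 y.2.2 : Atom J L)) ''
      (Set.univ ×ˢ {x : Node | x.1 ∈ Λ} ×ˢ {x : Node | x.1 ∈ Λ})).Countable :=
    (Set.countable_univ.prod (hN.prod hN)).image _
  have h3 : ((fun y : (J × L) × Node × Node × ℕ =>
      (Atom.ph y.1.1 y.1.2 y.2.1 y.2.2.1 y.2.2.2 : Atom J L)) ''
      (R ×ˢ {x : Node | x.1 ∈ Λ} ×ˢ {x : Node | x.1 ∈ Λ} ×ˢ Set.univ)).Countable :=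
    (hR.prod (hN.prod (hN.prod Set.countable_univ))).image _
  have h4 : ((fun y : (J × L) × Node × Node =>
      (Atom.pm y.1.1 y.1.2 y.2.1 y.2.2 : Atom J L)) ''
      (R ×ˢ {x : Node | x.1 ∈ Λ} ×ˢ {x : Node | x.1 ∈ Λ})).Countable :=
    (hR.prod (hN.prod hN)).image _
  refine (((h1.union h2).union h3).union h4).mono ?_
  intro c hc
  cases c with
  | nd τ x a => exact Or.inl (Or.inl (Or.inl ⟨(τ, x, a), ⟨trivial, hc, trivial⟩, rfl⟩))
  | lt τ x y => exact Or.inl (Or.inl (Or.inr ⟨(τ, x, y), ⟨trivial, hc.1, hc.2⟩, rfl⟩))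
  | ph i β u v k =>
    exact Or.inl (Or.inr ⟨((i, β), u, v, k), ⟨hc.2.2, hc.1, hc.2.1, trivial⟩, rfl⟩)
  | pm i β t s => exact Or.inr ⟨((i, β), t, s), ⟨hc.2.2, hc.1, hc.2.1⟩, rfl⟩

def key : Atom J L → K1 ⊕ (J × L)
  | .nd _ x _ => Sum.inl x.1
  | .lt _ x _ => Sum.inl x.1
  | .ph i β _ _ _ => Sum.inr (i, β)
  | .pm i β _ _ => Sum.inr (i, β)

variable {C : K1 → Set K1} {g : L → Nm J L}

def Goal (q : K1 → Cd C g) (x : K1 → Node) : Prop :=
  ∃ ν, ∃ᶠ ν' in atTop, ∃ r : Cd C g, r ≤ q ν ∧ r ≤ q ν' ∧ wL r.1 false (x ν) (x ν')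

theorem Goal.reindex {q : K1 → Cd C g} {x : K1 → Node} {e : K1 → K1} (he : ∀ ν, ν ≤ e ν)
    (h : Goal (fun ν => q (e ν)) (fun ν => x (e ν))) : Goal q x := by
  obtain ⟨ν, h⟩ := h
  exact ⟨e ν, freq_of_reindex he
    (P := fun ν' => ∃ r : Cd C g, r ≤ q (e ν) ∧ r ≤ q ν' ∧ wL r.1 false (x (e ν)) (x ν')) h⟩

theorem Goal.ext {q q' : K1 → Cd C g} {x : K1 → Node} (h : ∀ ν, q' ν ≤ q ν) (hG : Goal q' x) :
    Goal q x := by
  obtain ⟨ν, hν⟩ := hG
  refine ⟨ν, hν.mono ?_⟩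
  rintro ν' ⟨r, h1, h2, h3⟩
  exact ⟨r, h1.trans (h _), h2.trans (h _), h3⟩

structure RP (q : K1 → Cd C g) (Λ : Finset K1) (R : Finset (J × L)) : Prop where
  lev : ∀ l, l ∉ Λ → ∀ᶠ ν in atTop, ∀ τ x, nN (q ν).1 τ x → x.1 ≠ l
  crd : ∀ c, c ∉ R → ∀ᶠ ν in atTop, ¬ occ (q ν).1 c.1 c.2

theorem RP.gt {q : K1 → Cd C g} {Λ : Finset K1} {R : Finset (J × L)} (h : RP q Λ R) (κ : K1) :
    ∀ᶠ ν in atTop, ∀ τ x, nN (q ν).1 τ x → x.1 ∈ Λ ∨ κ < x.1 := by
  have h1 := ev_countable (S := {l | l ∈ Set.Iic κ ∧ l ∉ Λ})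
    ((countable_Iic κ).mono fun l hl => hl.1)
    (P := fun l ν => ∀ τ x, nN (q ν).1 τ x → x.1 ≠ l) (fun l hl => h.lev l hl.2)
  refine h1.mono fun ν hν τ x hx => ?_
  by_contra hcon
  push Not at hcon
  exact hν x.1 ⟨hcon.2, hcon.1⟩ τ x hx rfl

def PC (q : Cd C g) (Λ : Finset K1) (c : J × L) (μ : K1) : Prop :=
  ∀ t s, Atom.pm c.1 c.2 t s ∈ q.1 → t.1 ∉ Λ → ∀ ξ ∈ C t.1, ξ ≤ μ → Filled q.1 c.1 c.2 t s ξ

theorem freq_mem {Y : Type} (f : K1 → Y) {S : Set Y} (hS : S.Countable) (hf : ∀ ν, f ν ∈ S) :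
    ∃ y, ∃ᶠ ν in atTop, f ν = y := by
  refine freq_const f (hS.mono ?_)
  rintro _ ⟨ν, rfl⟩
  exact hf ν

theorem base {q : K1 → Cd C g} {x : K1 → Node} (hx : ∀ ν, nN (q ν).1 false (x ν))
    {Λ : Finset K1} {R : Finset (J × L)} (hR : RP q Λ R)
    (hP : ∀ μ, ∀ᶠ ν in atTop, ∀ c ∈ R, PC (q ν) Λ c μ) : Goal q x := by
  classical
  obtain ⟨ρ, hρ⟩ := exists_sup Λ.finite_toSet
  obtain ⟨ζ, hz1, hz2, hz3⟩ := exists_succ ρ
  obtain ⟨η, hη⟩ := exists_sup (S := insert ζ ((fun c : J × L => (g c.2).δ ρ) '' (R : Set (J × L))))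
    ((R.finite_toSet.image _).insert _)
  have hζη : ζ < η := hη _ (Or.inl rfl)
  let f : K1 → Rep J L × Finset ((J × L) × Finset Node × Finset Node) × Option Node ×
      Finset Node := fun ν =>
    ((q ν).1.filter (rootAt (Λ : Set K1) (R : Set (J × L))),
      (fin_typ (q ν).1 (Λ : Set K1) (R : Set (J × L)) η).toFinset,
      (if (x ν).1 ∈ Λ then some (x ν) else none), lp (q ν).1 false η (x ν))
  have hlp : {P : Finset Node | ∀ z ∈ P, z ∈ {z : Node | z.1 ∈ Set.Iio η}}.Countable :=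
    countable_finsets (countable_nodes (countable_Iio η))
  have hcount : (({F : Rep J L | ∀ c ∈ F, c ∈ {c | rootAt (Λ : Set K1) (R : Set (J × L)) c}} ×ˢ
      {F : Finset ((J × L) × Finset Node × Finset Node) | ∀ y ∈ F, y ∈ ((R : Set (J × L)) ×ˢ
        {P : Finset Node | ∀ z ∈ P, z ∈ {z : Node | z.1 ∈ Set.Iio η}} ×ˢ
        {P : Finset Node | ∀ z ∈ P, z ∈ {z : Node | z.1 ∈ Set.Iio η}})} ×ˢ
      (insert none (some '' {z : Node | z.1 ∈ (Λ : Set K1)})) ×ˢ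
      {P : Finset Node | ∀ z ∈ P, z ∈ {z : Node | z.1 ∈ Set.Iio η}}) : Set _).Countable := by
    refine (countable_finsets (countable_root Λ.countable_toSet R.countable_toSet)).prod
      ((countable_finsets (R.countable_toSet.prod (hlp.prod hlp))).prod
        (((countable_nodes Λ.countable_toSet).image _ |>.insert _).prod hlp))
  obtain ⟨y, hy⟩ := freq_mem f hcount (fun ν => by
    refine ⟨fun c hc => (Finset.mem_filter.1 hc).2, fun y hy => ?_, ?_, fun z hz => (mem_lp.1 hz).2⟩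
    · obtain ⟨t, s, h1, h2, h3, h4, h5⟩ := (Set.Finite.mem_toFinset _).1 hy
      refine ⟨h2, ?_, ?_⟩
      · rw [← h4]; exact fun z hz => (mem_lp.1 hz).2
      · rw [← h5]; exact fun z hz => (mem_lp.1 hz).2
    · show (if (x ν).1 ∈ Λ then some (x ν) else none) ∈ _
      split_ifs with h
      · exact Or.inr ⟨_, h, rfl⟩
      · exact Or.inl rfl)
  have hy' := hy.and_eventually ((hP ρ).and (hR.gt η))
  obtain ⟨ν0, h1, h2, h3⟩ := hy'.exists
  refine ⟨ν0, ?_⟩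
  obtain ⟨κ, hκ⟩ := exists_sup (S := Prod.fst '' ({z | nN (q ν0).1 false z} ∪
    {z | nN (q ν0).1 true z})) (((fin_node _ _).union (fin_node _ _)).image _)
  have h4 : ∀ᶠ ν in atTop, ∀ c : J × L, c ∈ {c | occ (q ν0).1 c.1 c.2 ∧ c ∉ R} →
      ¬ occ (q ν).1 c.1 c.2 := by
    refine ev_countable (S := {c : J × L | occ (q ν0).1 c.1 c.2 ∧ c ∉ R})
      (P := fun c ν => ¬ occ (q ν).1 c.1 c.2) ?_ (fun c hc => hR.crd c hc.2)
    refine Set.Finite.countable ?_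
    refine ((q ν0).1.finite_toSet.image key).preimage (f := Sum.inr)
      (Sum.inr_injective.injOn) |>.subset ?_
    rintro ⟨i, β⟩ ⟨h5 | h5, _⟩
    · obtain ⟨u, v, k, h5⟩ := h5
      exact ⟨_, h5, rfl⟩
    · obtain ⟨t, s, h5⟩ := h5
      exact ⟨_, h5, rfl⟩
  refine (hy'.and_eventually ((hR.gt κ).and h4)).mono ?_
  rintro ν' ⟨⟨h5, h6, h7⟩, h8, h9⟩
  have hf : f ν0 = f ν' := h1.trans h5.symm
  have e1 : (q ν0).1.filter (rootAt (Λ : Set K1) (R : Set (J × L))) =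
      (q ν').1.filter (rootAt (Λ : Set K1) (R : Set (J × L))) := congrArg (fun z => z.1) hf
  have e2 : (fin_typ (q ν0).1 (Λ : Set K1) (R : Set (J × L)) η).toFinset =
    (fin_typ (q ν').1 (Λ : Set K1) (R : Set (J × L)) η).toFinset := congrArg (fun z => z.2.1) hf
  have e3 : (if (x ν0).1 ∈ Λ then some (x ν0) else none) =
    (if (x ν').1 ∈ Λ then some (x ν') else none) := congrArg (fun z => z.2.2.1) hf
  have e4 : lp (q ν0).1 false η (x ν0) = lp (q ν').1 false η (x ν') :=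
    congrArg (fun z => z.2.2.2) hf
  have hH : Hyp (q ν0) (q ν') (Λ : Set K1) (R : Set (J × L)) ρ ζ η := by
    refine ⟨fun l hl => (hρ l hl).le, hz1, hζη, hz2, hz3, fun {τ z} hz => h3 τ z hz,
      fun {τ z} hz => h7 τ z hz, ?_, ?_, ?_, ?_, ?_, ?_⟩
    · intro τ z τ' z' h10 h11 h12
      refine lt_trans (hκ _ ⟨z, ?_, rfl⟩) ((h8 τ' z' h11).resolve_left h12)
      cases τ with
      | false => exact Or.inl h10
      | true => exact Or.inr h10
    · intro c hc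
      have h10 := Finset.ext_iff.1 e1 c
      simpa only [Finset.mem_filter, hc, and_true] using h10
    · intro i β hR'
      by_cases h10 : occ (q ν0).1 i β
      · exact Or.inr (h9 (i, β) ⟨h10, hR'⟩)
      · exact Or.inl h10
    · intro i β t s h10 h11 h12 ξ h13 h14
      exact h2 (i, β) h10 t s h11 h12 ξ h13 h14
    · intro i β h10
      exact (hη _ (Or.inr ⟨(i, β), h10, rfl⟩)).le
    · intro i β t' s' h10 h11 h12
      have h13 : ((i, β), lp (q ν').1 true η t', lp (q ν').1 false η s') ∈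
          typ (q ν0).1 (Λ : Set K1) (R : Set (J × L)) η := by
        rw [← Set.Finite.mem_toFinset (fin_typ (q ν0).1 (Λ : Set K1) (R : Set (J × L)) η), e2,
          Set.Finite.mem_toFinset]
        exact ⟨t', s', h11, h10, h12, rfl, rfl⟩
      obtain ⟨t, s, h14, _, h15, h16, h17⟩ := h13
      exact ⟨t, s, h14, h15, h16, h17⟩
  refine amal hH (hx ν0) (hx ν') ?_
  by_cases h10 : (x ν0).1 ∈ Λ
  · left
    rw [if_pos h10] at e3
    split_ifs at e3 with h11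
    · exact Option.some_injective _ e3
  · right
    rw [if_neg h10] at e3
    split_ifs at e3 with h11
    exact ⟨(h3 _ _ (hx ν0)).resolve_left h10, (h7 _ _ (hx ν')).resolve_left h11, e4⟩

theorem step (hC : Lad C) (j : J) : ∀ {q : K1 → Cd C g} {x : K1 → Node},
    (∀ ν, nN (q ν).1 false (x ν)) → ∀ {Λ : Finset K1} {R : Finset (J × L)}, RP q Λ R →
    (∀ μ, ∀ᶠ ν in atTop, ∀ c ∈ R, j ≤ c.1 → PC (q ν) Λ c μ) → Goal q x := by
  classical
  induction j using WellFoundedLT.induction with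
  | ind j IH =>
    intro q x hx Λ R hR hP
    by_cases hj : ∃ c ∈ R, c.1 < j
    swap
    · exact base hx hR fun μ => (hP μ).mono fun ν hν c hc => hν c hc (not_lt.1 fun h => hj ⟨c, hc, h⟩)
    obtain ⟨c0, hc0, hmax⟩ := (R.filter (fun c => c.1 < j)).exists_max_image Prod.fst
      (by obtain ⟨c, hc, h⟩ := hj; exact ⟨c, Finset.mem_filter.2 ⟨hc, h⟩⟩)
    obtain ⟨j0, β0⟩ := c0
    have hj0 : j0 < j := (Finset.mem_filter.1 hc0).2
    have hmax' : ∀ c ∈ R, j0 < c.1 → j ≤ c.1 := fun c hc h => by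
      by_contra h'
      exact absurd (hmax c (Finset.mem_filter.2 ⟨hc, not_le.1 h'⟩)) (not_le.2 h)
    have h1 : ∀ κ, ∃ ν, κ ≤ ν ∧ (∀ τ x, nN (q ν).1 τ x → x.1 ∈ Λ ∨ κ < x.1) ∧
        ∀ c ∈ R, j ≤ c.1 → PC (q ν) Λ c κ := fun κ => by
      obtain ⟨ν, h2, h3, h4⟩ := ((eventually_ge_atTop κ).and ((hR.gt κ).and (hP κ))).exists
      exact ⟨ν, h2, h3, h4⟩
    choose I h2 h3 h4 using h1
    have h5 := fun κ => exists_fill_all hC (q (I κ)) j0 κ
    choose q' h6 h7 using h5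
    obtain ⟨R0, e, h8, h9⟩ := exists_root (fun κ => (q' κ).1.image key)
    let Λ' : Finset K1 := Λ ∪ R0.preimage Sum.inl Sum.inl_injective.injOn
    let R' : Finset (J × L) := R ∪ (R0.preimage Sum.inr Sum.inr_injective.injOn).filter
      (fun c => c.1 < j0)
    have hoc : ∀ κ (c : J × L), j0 ≤ c.1 → ¬ occ (q (I κ)).1 c.1 c.2 →
        ¬ occ (q' κ).1 c.1 c.2 := by
      rintro κ ⟨i, β⟩ hi h10 (⟨u, v, k, h11⟩ | ⟨t, s, h11⟩)
      · rcases hi.lt_or_eq with hi' | rfl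
        · exact h10 (Or.inl ⟨u, v, k, ((h6 κ).ph hi').1 h11⟩)
        · by_cases hβ : ∃ t s, Atom.pm j0 β t s ∈ (q (I κ)).1
          · exact h10 (Or.inr hβ)
          · exact h10 (Or.inl ⟨u, v, k, ((h6 κ).ph' hβ).1 h11⟩)
      · exact h10 (Or.inr ⟨t, s, ((h6 κ).pm hi).1 h11⟩)
    have hR' : RP (fun ν => q' (e ν)) Λ' R' := by
      refine ⟨fun l hl => ?_, fun c hc => ?_⟩
      · have hl' : Sum.inl l ∉ R0 := fun h => hl (Finset.mem_union_right _ (by simpa using h))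
        refine (h9 _ hl').mono fun ν hν τ z hz hzl => hν ?_
        obtain ⟨a, ha⟩ := hz
        exact Finset.mem_image.2 ⟨_, ha, by rw [← hzl]; rfl⟩
      · have hcR : c ∉ R := fun h => hc (Finset.mem_union_left _ h)
        by_cases hcj : c.1 < j0
        · have hl' : Sum.inr c ∉ R0 := fun h => hc (Finset.mem_union_right _ (by
            rw [Finset.mem_filter, Finset.mem_preimage]; exact ⟨h, hcj⟩))
          refine (h9 _ hl').mono fun ν hν ho => hν ?_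
          rcases ho with ⟨u, v, k, ho⟩ | ⟨t, s, ho⟩
          · exact Finset.mem_image.2 ⟨_, ho, rfl⟩
          · exact Finset.mem_image.2 ⟨_, ho, rfl⟩
        · refine ev_reindex h8 (P := fun κ => ¬ occ (q' κ).1 c.1 c.2) ?_
          exact (ev_reindex h2 (P := fun ν => ¬ occ (q ν).1 c.1 c.2) (hR.crd c hcR)).mono
            fun κ hκ => hoc κ c (not_lt.1 hcj) hκ
    have hP' : ∀ μ, ∀ᶠ ν in atTop, ∀ c ∈ R', j0 ≤ c.1 → PC (q' (e ν)) Λ' c μ := by
      intro μ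
      refine ev_reindex h8 (P := fun κ => ∀ c ∈ R', j0 ≤ c.1 → PC (q' κ) Λ' c μ) ?_
      refine (eventually_ge_atTop μ).mono ?_
      intro κ hκ c hc hcj t s h10 h11 ξ h12 h13
      have hcR : c ∈ R := by
        rcases Finset.mem_union.1 hc with h | h
        · exact h
        · exact absurd (Finset.mem_filter.1 h).2 (not_lt.2 hcj)
      have h14 : t.1 ∉ Λ := fun h => h11 (Finset.mem_union_left _ h)
      have h15 := ((h6 κ).pm hcj).1 h10
      rcases hcj.lt_or_eq with h16 | h16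
      · exact le_filled (h6 κ).1 (h4 κ c hcR (hmax' c hcR h16) t s h15 h14 ξ h12 (h13.trans hκ))
      · obtain ⟨i, β⟩ := c
        have h16 : j0 = i := h16
        subst h16
        have h17 := ((q (I κ)).cv j0 β).nd h15
        exact h7 κ β t s ξ h15 ((h3 κ _ _ h17.1).resolve_left h14) h12 (h13.trans hκ)
    have hG := IH j0 hj0 (q := fun ν => q' (e ν)) (x := fun ν => x (I (e ν)))
      (fun ν => le_nN (h6 (e ν)).1 (hx _)) hR' hP'
    exact Goal.reindex (e := fun ν => I (e ν)) (fun ν => (h8 ν).trans (h2 _))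
      (Goal.ext (fun ν => (h6 (e ν)).1) hG)

theorem ccc [NoMaxOrder J] [Nonempty J] (hC : Lad C) {q : K1 → Cd C g} {x : K1 → Node}
    (hx : ∀ ν, nN (q ν).1 false (x ν)) : Goal q x := by
  classical
  obtain ⟨R0, e, h8, h9⟩ := exists_root (fun κ => (q κ).1.image key)
  let Λ' : Finset K1 := R0.preimage Sum.inl Sum.inl_injective.injOn
  let R' : Finset (J × L) := R0.preimage Sum.inr Sum.inr_injective.injOn
  obtain ⟨j, hj⟩ : ∃ j : J, ∀ c ∈ R', c.1 < j := by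
    obtain ⟨M, hM⟩ := (R'.image Prod.fst).exists_le
    obtain ⟨j, hj⟩ := exists_gt M
    exact ⟨j, fun c hc => (hM _ (Finset.mem_image_of_mem _ hc)).trans_lt hj⟩
  have hR' : RP (fun ν => q (e ν)) Λ' R' := by
    refine ⟨fun l hl => ?_, fun c hc => ?_⟩
    · have hl' : Sum.inl l ∉ R0 := fun h => hl (Finset.mem_preimage.2 h)
      refine (h9 _ hl').mono fun ν hν τ z hz hzl => hν ?_
      obtain ⟨a, ha⟩ := hz
      exact Finset.mem_image.2 ⟨_, ha, by rw [← hzl]; rfl⟩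
    · have hl' : Sum.inr c ∉ R0 := fun h => hc (Finset.mem_preimage.2 h)
      refine (h9 _ hl').mono fun ν hν ho => hν ?_
      rcases ho with ⟨u, v, k, ho⟩ | ⟨t, s, ho⟩
      · exact Finset.mem_image.2 ⟨_, ho, rfl⟩
      · exact Finset.mem_image.2 ⟨_, ho, rfl⟩
  refine Goal.reindex h8 (step hC j (fun ν => hx (e ν)) hR' fun μ => Eventually.of_forall ?_)
  intro ν c hc hcj
  exact absurd (hj c hc) (not_lt.2 hcj)

end Pool.Agent.Helper126.Sus.Amal4
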