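import Mathlib
import Pool.Agent.Helper126.Sus.Amal4

/-!
# The generic trees
-/

namespace Pool.Agent.Helper126.Sus.Names

open Cardinal Filter Pool.Agent.Helper126.Sus.Forc Pool.Agent.Helper126.Sus.Tree
  Pool.Agent.Helper126.Sus.Poset Pool.Agent.Helper126.Sus.Ext Pool.Agent.Helper126.Sus.Om
  Pool.Agent.Helper126.Sus.Dense Pool.Agent.Helper126.Sus.Prom Pool.Agent.Helper126.Sus.Amal1
  Pool.Agent.Helper126.Sus.Amal4

set_option linter.unusedSectionVars false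

variable {J L : Type} {C : K1 → Set K1} {g : L → Nm J L} [LinearOrder J] [WellFoundedLT J]

variable {Q : Type} [Preorder Q]

structure Proj (π : Q → Cd C g) : Prop where
  mono : ∀ {a b}, a ≤ b → π a ≤ π b
  lift : ∀ (r : Q) (q : Cd C g), q ≤ π r → ∃ r' ≤ r, π r' = q

/-- the name of the order of the generic tree -/
def ltQ (π : Q → Cd C g) (τ : Bool) (x y : Node) : Set Q := {r | lL (π r).1 τ x y}

theorem key_lt {π : Q → Cd C g} (hπ : Proj π) {τ : Bool} {x y : Node} {r : Q}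
    (h : r ∈ meets (ltQ π τ x y)) : ∃ r' ≤ r, lL (π r').1 τ x y := by
  obtain ⟨r', hr, s, hs, h'⟩ := h r le_rfl
  exact ⟨r', hr, le_lL (hπ.mono h') hs⟩

theorem lt_of_meets {π : Q → Cd C g} (hπ : Proj π) {τ : Bool} {x y : Node} {r : Q}
    (h : r ∈ meets (ltQ π τ x y)) (hx : nN (π r).1 τ x) (hy : nN (π r).1 τ y) :
    lL (π r).1 τ x y := by
  obtain ⟨r', hr, h'⟩ := key_lt hπ h
  exact ((le_bl (hπ.mono hr)).lt hx hy).1 h'

theorem isTree {π : Q → Cd C g} (hπ : Proj π) (τ : Bool) (r : Q) :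
    r ∈ IsTree (ltQ π τ) Prod.fst := by
  refine ⟨fun x y z => mem_fimp.2 ?_, ⟨fun x y => mem_fimp.2 ?_, fun x y z => mem_fimp.2 ?_⟩,
    fun y ξ hξ => mem_fex.2 ?_, fun ξ => ⟨(ξ, 0), rfl⟩⟩
  · rintro q hq ⟨h1, h2⟩
    obtain ⟨q1, hq1, h3⟩ := key_lt hπ h1
    obtain ⟨q2, hq2, h4⟩ := key_lt hπ (meets_down h2 hq1)
    exact ⟨q2, hq2.trans hq1, meets_of_mem (((π q2).bv.ft τ).tr (le_lL (hπ.mono hq2) h3) h4)⟩
  · intro q hq h1
    obtain ⟨q1, hq1, h3⟩ := key_lt hπ h1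
    exact ⟨q1, hq1, ((π q1).bv.ft τ).lv h3⟩
  · rintro q hq ⟨h1, h2⟩
    obtain ⟨q1, hq1, h3⟩ := key_lt hπ h1
    obtain ⟨q2, hq2, h4⟩ := key_lt hπ (meets_down h2 hq1)
    exact ⟨q2, hq2.trans hq1, fun h5 => ((π q2).bv.ft τ).uq (le_lL (hπ.mono hq2) h3) h4 h5⟩
  · intro q hq
    obtain ⟨p1, hp1, h1⟩ := exists_nd (π q) τ y
    obtain ⟨p2, hp2, z, hz, hz'⟩ := exists_pred p1 h1 hξ
    obtain ⟨r', hr', e⟩ := hπ.lift q p2 (hp2.1.trans hp1.1)
    exact ⟨r', hr', z, hz', meets_of_mem (by show lL (π r').1 τ z y; rw [e]; exact hz)⟩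

theorem level_countable (ξ : K1) : {x : Node | x.1 = ξ}.Countable :=
  countable_nodes (Set.countable_singleton ξ)

theorem proj_id : Proj (id : Cd C g → Cd C g) := ⟨fun h => h, fun _ q hq => ⟨q, hq, rfl⟩⟩

/-- the clause `B` is a chain -/
def Ch (lt : Node → Node → Set Q) (B : Node → Set Q) : Set Q :=
  fall fun x => fall fun y => fall fun _ : x ≠ y =>
    fimp (fand (meets (B x)) (meets (B y)))
      (fnot (fand (fnot (meets (lt x y))) (fnot (meets (lt y x)))))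

theorem comparable {π : Q → Cd C g} (hπ : Proj π) {τ : Bool} {B : Node → Set Q} {q0 : Q}
    (hB : q0 ∈ Ch (ltQ π τ) B) {r : Q} (hr : r ≤ q0) {x y : Node} (hxy : x ≠ y)
    (hx : r ∈ meets (B x)) (hy : r ∈ meets (B y)) :
    ∃ r' ≤ r, lL (π r').1 τ x y ∨ lL (π r').1 τ y x := by
  obtain ⟨r1, hr1, h1⟩ := mem_fimp.1 (hB x y hxy) r hr ⟨hx, hy⟩
  have h2 := h1 r1 le_rfl
  by_cases h3 : r1 ∈ fnot (meets (ltQ π τ x y))
  · have h4 : r1 ∉ fnot (meets (ltQ π τ y x)) := fun h => h2 ⟨h3, h⟩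
    simp only [mem_fnot, not_forall, not_not] at h4
    obtain ⟨r2, hr2, h4⟩ := h4
    obtain ⟨r3, hr3, h5⟩ := key_lt hπ h4
    exact ⟨r3, hr3.trans (hr2.trans hr1), Or.inr h5⟩
  · simp only [mem_fnot, not_forall, not_not] at h3
    obtain ⟨r2, hr2, h4⟩ := h3
    obtain ⟨r3, hr3, h5⟩ := key_lt hπ h4
    exact ⟨r3, hr3.trans (hr2.trans hr1), Or.inl h5⟩

theorem comparable_lt {π : Q → Cd C g} (hπ : Proj π) {τ : Bool} {B : Node → Set Q} {q0 : Q}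
    (hB : q0 ∈ Ch (ltQ π τ) B) {r : Q} (hr : r ≤ q0) {x y : Node} (hxy : x.1 < y.1)
    (hx : r ∈ meets (B x)) (hy : r ∈ meets (B y)) : ∃ r' ≤ r, lL (π r').1 τ x y := by
  obtain ⟨r', hr', h | h⟩ := comparable hπ hB hr (fun h => absurd hxy (by rw [h]; exact lt_irrefl _))
    hx hy
  · exact ⟨r', hr', h⟩
  · exact absurd (((π r').bv.ft τ).lv h) (not_lt.2 hxy.le)

theorem ev_gt (κ : K1) : ∀ᶠ ν in atTop, κ < ν := by
  obtain ⟨κ', h⟩ := exists_gt κ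
  exact (eventually_ge_atTop κ').mono fun ν hν => h.trans_le hν

variable [NoMaxOrder J] [Nonempty J]

theorem noAntichain (hC : Lad C) (p : Cd C g) :
    p ∈ NoAntichain (ltQ (id : Cd C g → Cd C g) false) Prod.fst := by
  intro A
  rw [mem_fimp]
  intro q hq hA
  refine ⟨q, le_rfl, mem_fex.2 fun q1 hq1 => ?_⟩
  by_contra hcon
  push Not at hcon
  have h1 : ∀ ξ, ∃ r ≤ q1, ∃ x : Node, r ∈ meets (A x) ∧ ξ ≤ x.1 ∧ nN r.1 false x := by
    intro ξ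
    have h2 := hcon q1 le_rfl ξ
    simp only [fall, Set.mem_ofPred_eq, not_forall] at h2
    obtain ⟨x, h2⟩ := h2
    rw [mem_fimp] at h2
    push Not at h2
    obtain ⟨r, hr, h3, h4⟩ := h2
    have h5 : ¬ (x.1 < ξ) := h4 r le_rfl
    obtain ⟨r', hr', h6⟩ := exists_nd r false x
    exact ⟨r', hr'.1.trans hr, x, meets_down h3 hr'.1, not_lt.1 h5, h6⟩
  choose q' h2 x h3 h4 h5 using h1
  obtain ⟨ν, hν⟩ := ccc hC h5
  obtain ⟨ν', ⟨r, h7, h8, h9⟩, h10⟩ := (hν.and_eventually (ev_gt (x ν).1)).exists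
  have h11 : lL r.1 false (x ν) (x ν') := by
    refine h9.resolve_left fun h => ?_
    have := h10.trans_le (h4 ν')
    rw [h] at this
    exact lt_irrefl _ this
  obtain ⟨r', hr', h12⟩ := mem_fimp.1 (hA (x ν) (x ν')) r (h7.trans ((h2 ν).trans hq1))
    ⟨meets_down (h3 ν) h7, meets_down (h3 ν') h8⟩
  refine h12 r' le_rfl (meets_of_mem ?_)
  exact le_lL hr' h11

theorem noBranchS (hC : Lad C) (p : Cd C g) :
    p ∈ NoBranch (ltQ (id : Cd C g → Cd C g) false) Prod.fst := by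
  intro q hq hB
  obtain ⟨q0, hq0, B, hB1, hB2⟩ := mem_fex.1 hB q le_rfl
  have hB1' : q0 ∈ Ch (ltQ (id : Cd C g → Cd C g) false) B := hB1
  have h1 : ∀ ξ, ∃ r ≤ q0, ∃ x y : Node, x.1 = ξ ∧ r ∈ meets (B x) ∧ lL r.1 false x y ∧
      r ∈ fnot (meets (B y)) := by
    intro ξ
    obtain ⟨r0, hr0, x, hx, hxB⟩ := mem_fex.1 (hB2 ξ) q0 le_rfl
    have hx : x.1 = ξ := hx
    obtain ⟨σ, hσ⟩ := exists_gt ξ
    obtain ⟨r1, hr1, h2⟩ := exists_nd r0 false x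
    obtain ⟨r2, hr2, y, hy1, hy2, hy3, hy4, hy5⟩ := exists_above r1 false h2 (μ := σ)
      (by rw [hx]; exact hσ)
    obtain ⟨r3, hr3, z, hz1, hz2, hz3, hz4, hz5⟩ := exists_above r2 false (le_nN hr2.1 h2) (μ := σ)
      (by rw [hx]; exact hσ)
    have hxy : lL r3.1 false x y := le_lL hr3.1 ((hy5 x).2 (Or.inl rfl))
    have hxz : lL r3.1 false x z := (hz5 x).2 (Or.inl rfl)
    have hr30 : r3 ≤ r0 := hr3.1.trans (hr2.1.trans hr1.1)
    by_cases h3 : r3 ∈ fnot (meets (B y))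
    · exact ⟨r3, hr30.trans hr0, x, y, hx, meets_down hxB hr30, hxy, h3⟩
    · simp only [mem_fnot, not_forall, not_not] at h3
      obtain ⟨r4, hr4, h4⟩ := h3
      refine ⟨r4, hr4.trans (hr30.trans hr0), x, z, hx, meets_down hxB (hr4.trans hr30),
        le_lL hr4 hxz, ?_⟩
      intro r5 hr5 h5
      have hyz : y ≠ z := by
        rintro rfl
        exact hz2 hy3
      obtain ⟨r6, hr6, h6 | h6⟩ := comparable proj_id hB1' (hr5.trans (hr4.trans (hr30.trans hr0)))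
        hyz (meets_down h4 hr5) h5
      · have := (r6.bv.ft false).lv h6
        rw [hy1, hz1] at this
        exact lt_irrefl _ this
      · have := (r6.bv.ft false).lv h6
        rw [hy1, hz1] at this
        exact lt_irrefl _ this
  choose q' h2 x y h3 h4 h5 h6 using h1
  obtain ⟨ν, hν⟩ := ccc hC (q := q') (x := y) (fun ν => ((q' ν).bv.ft false).nr (h5 ν))
  obtain ⟨ν', ⟨r, h7, h8, h9⟩, h10⟩ := (hν.and_eventually (ev_gt (y ν).1)).exists
  obtain ⟨r1, hr1, b, hb, hbB⟩ := mem_fex.1 (hB2 (y ν).1) r (h7.trans (h2 ν))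
  have hb : b.1 = (y ν).1 := hb
  obtain ⟨r2, hr2, h11⟩ := comparable_lt proj_id hB1' (hr1.trans (h7.trans (h2 ν))) (x := b)
    (y := x ν') (by rw [hb, h3]; exact h10) hbB (meets_down (h4 ν') (hr1.trans h8))
  have hr2r : r2 ≤ r := hr2.trans hr1
  have h12 : lL r2.1 false (x ν') (y ν') := le_lL (hr2r.trans h8) (h5 ν')
  have h13 : lL r2.1 false b (y ν') := (r2.bv.ft false).tr h11 h12
  have h14 : b = y ν := by
    rcases le_wL hr2r h9 with h | h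
    · rw [← h] at h13
      have := (r2.bv.ft false).lv h13
      rw [hb] at this
      exact absurd this (lt_irrefl _)
    · exact (r2.bv.ft false).uq h13 h hb
  subst h14
  exact h6 ν r1 (hr1.trans h7) hbB

omit [NoMaxOrder J] [Nonempty J] in
theorem pruned (p : Cd C g) : p ∈ Pruned (ltQ (id : Cd C g → Cd C g) false) Prod.fst := by
  refine fun x ξ hξ => mem_fex.2 fun q _ => ?_
  obtain ⟨q1, h1, h2⟩ := exists_nd q false x
  obtain ⟨q2, h3, y, h4, _, _, _, h5⟩ := exists_above q1 false h2 hξ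
  exact ⟨q2, h3.1.trans h1.1, y, h4, meets_of_mem ((h5 x).2 (Or.inl rfl))⟩

/-- the generic Suslin tree -/
noncomputable def ST (g : L → Nm J L) (hC : Lad C) : SuslinTree (Cd C g) where
  node := Node
  lt := ltQ (id : Cd C g → Cd C g) false
  ht := Prod.fst
  isSuslin p := ⟨⟨level_countable, isTree proj_id false p, noBranchS hC p⟩, noAntichain hC p,
    pruned p⟩

variable {hC : Lad C}

theorem ST_le {p : Cd C g} {x y : Node} :
    p ∈ (ST g hC).le x y ↔ x = y ∨ p ∈ meets (ltQ (id : Cd C g → Cd C g) false x y) :=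
  SuslinTree.mem_le (S := ST g hC)

theorem ST_le_of {p : Cd C g} {x y : Node} (h : wL p.1 false x y) : p ∈ (ST g hC).le x y :=
  ST_le.2 (h.imp id fun h => meets_of_mem h)

theorem wL_of_le {p : Cd C g} {x y : Node} (h : p ∈ (ST g hC).le x y) (hx : nN p.1 false x)
    (hy : nN p.1 false y) : wL p.1 false x y :=
  (ST_le.1 h).imp id fun h => lt_of_meets proj_id h hx hy

theorem iter_le {r r' : Iter (ST g hC)} :
    r ≤ r' ↔ r.fst ≤ r'.fst ∧ r.fst ∈ (ST g hC).le r'.snd r.snd := Iff.rfl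

theorem iter_mk_le {p q : Cd C g} {x y : Node} (h : q ≤ p) (h' : wL q.1 false x y) :
    (⟨q, y⟩ : Iter (ST g hC)) ≤ ⟨p, x⟩ := ⟨h, ST_le_of h'⟩

theorem proj_fst : Proj (Iter.fst : Iter (ST g hC) → Cd C g) :=
  ⟨fun h => h.1, fun r q hq => ⟨⟨q, r.snd⟩, ⟨hq, ST_le_of (Or.inl rfl)⟩, rfl⟩⟩

theorem iter_nd (r : Iter (ST g hC)) : ∃ r' ≤ r, r'.snd = r.snd ∧ Bx r'.fst r.fst ∧
    nN r'.fst.1 false r'.snd := by
  obtain ⟨q, hq, h⟩ := exists_nd r.fst false r.snd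
  exact ⟨⟨q, r.snd⟩, iter_mk_le hq.1 (Or.inl rfl), rfl, hq, h⟩

/-- the special tree has no branch in the extension by the Suslin tree -/
theorem noBranchT (r : Iter (ST g hC)) :
    r ∈ NoBranch (ltQ (Iter.fst : Iter (ST g hC) → Cd C g) true) Prod.fst := by
  intro q hq hB
  obtain ⟨q0, hq0, B, hB1, hB2⟩ := mem_fex.1 hB q le_rfl
  have hB1' : q0 ∈ Ch (ltQ (Iter.fst : Iter (ST g hC) → Cd C g) true) B := hB1
  have h1 : ∀ ξ, ∃ r ≤ q0, ∃ t : Node, ∃ a : ℕ, t.1 = ξ ∧ r ∈ meets (B t) ∧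
      Atom.nd true t a ∈ r.fst.1 ∧ nN r.fst.1 false r.snd := by
    intro ξ
    obtain ⟨r0, hr0, t, ht, htB⟩ := mem_fex.1 (hB2 ξ) q0 le_rfl
    obtain ⟨r1, hr1, e1, _, h2⟩ := iter_nd r0
    obtain ⟨p2, hp2, a, ha⟩ := exists_nd r1.fst true t
    exact ⟨⟨p2, r1.snd⟩, le_trans (iter_mk_le hp2.1 (Or.inl rfl)) (hr1.trans hr0), t, a, ht,
      meets_down htB (le_trans (iter_mk_le hp2.1 (Or.inl rfl)) hr1), ha, le_nN hp2.1 h2⟩
  choose R h2 t a h3 h4 h5 h6 using h1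
  obtain ⟨c, hc⟩ := freq_const a (Set.to_countable _)
  obtain ⟨e, he, he'⟩ := freq_reindex hc
  obtain ⟨ν, hν⟩ := ccc hC (q := fun ν => (R (e ν)).fst) (x := fun ν => (R (e ν)).snd)
    (fun ν => h6 _)
  obtain ⟨ν', ⟨r, h7, h8, h9⟩, h10⟩ := (hν.and_eventually (ev_gt (e ν))).exists
  have hr1 : (⟨r, (R (e ν')).snd⟩ : Iter (ST g hC)) ≤ R (e ν) := ⟨h7, ST_le_of h9⟩
  have hr2 : (⟨r, (R (e ν')).snd⟩ : Iter (ST g hC)) ≤ R (e ν') := ⟨h8, ST_le_of (Or.inl rfl)⟩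
  obtain ⟨r', hr', h11⟩ := comparable_lt proj_fst hB1' (hr1.trans (h2 _)) (x := t (e ν))
    (y := t (e ν')) (by rw [h3, h3]; exact h10.trans_le (he _)) (meets_down (h4 _) hr1)
    (meets_down (h4 _) hr2)
  have h12 := (le_bl (hr'.trans hr1).1).nd (h5 (e ν))
  have h13 := (le_bl (hr'.trans hr2).1).nd (h5 (e ν'))
  rw [he'] at h12 h13
  exact r'.fst.bv.sp h11 h12 h13

theorem aronszajnT (r : Iter (ST g hC)) :
    r ∈ IsAronszajn (ltQ (Iter.fst : Iter (ST g hC) → Cd C g) true) Prod.fst :=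
  ⟨level_countable, isTree proj_fst true r, noBranchT r⟩

/-! ### the countable chain condition -/

theorem exists_inj {X : Type} {A : Set X} (hA : ¬ A.Countable) :
    ∃ f : K1 → A, Function.Injective f := by
  have h1 : ℵ_ 1 ≤ #A := by
    by_contra hcon
    push Not at hcon
    rw [← zero_add (1 : Ordinal), ← Cardinal.succ_aleph] at hcon
    apply hA
    rw [← Cardinal.le_aleph0_iff_set_countable, ← Cardinal.aleph_zero]
    exact Order.lt_succ_iff.1 hcon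
  have h2 : #K1 ≤ #A := by
    have h3 : #K1 = ℵ_ 1 := by
      show #((ℵ_ 1).ord.ToType) = _
      rw [mk_toType, card_ord]
    rw [h3]; exact h1
  obtain ⟨f⟩ := h2
  exact ⟨f, f.injective⟩

theorem ccc_iter' {A : Set (Iter (ST g hC))}
    (hA : ∀ a ∈ A, ∀ b ∈ A, a ≠ b → ¬ ∃ r, r ≤ a ∧ r ≤ b) : A.Countable := by
  by_contra hcon
  obtain ⟨f, hf⟩ := exists_inj hcon
  choose R h1 h2 h3 h4 using fun ν => iter_nd (f ν).1
  obtain ⟨ν, hν⟩ := ccc hC (q := fun ν => (R ν).fst) (x := fun ν => (R ν).snd) h4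
  obtain ⟨ν', ⟨r, h7, h8, h9⟩, h10⟩ := (hν.and_eventually (ev_gt ν)).exists
  have hr1 : (⟨r, (R ν').snd⟩ : Iter (ST g hC)) ≤ R ν := ⟨h7, ST_le_of h9⟩
  have hr2 : (⟨r, (R ν').snd⟩ : Iter (ST g hC)) ≤ R ν' := ⟨h8, ST_le_of (Or.inl rfl)⟩
  refine hA _ (f ν).2 _ (f ν').2 (fun h => ?_) ⟨_, hr1.trans (h1 ν), hr2.trans (h1 ν')⟩
  exact h10.ne (hf (Subtype.ext h))

theorem ccc_iter : CCC (Iter (ST g hC)) := fun _ hA => ccc_iter' hA

theorem ccc_cd' (hC : Lad C) {A : Set (Cd C g)}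
    (hA : ∀ a ∈ A, ∀ b ∈ A, a ≠ b → ¬ ∃ r, r ≤ a ∧ r ≤ b) : A.Countable := by
  by_contra hcon
  obtain ⟨f, hf⟩ := exists_inj hcon
  obtain ⟨b, _⟩ := exists_min
  choose R h1 h2 using fun ν => exists_nd (f ν).1 false (b, 0)
  obtain ⟨ν, hν⟩ := ccc hC (q := fun ν => R ν) (x := fun _ => (b, 0)) h2
  obtain ⟨ν', ⟨r, h7, h8, h9⟩, h10⟩ := (hν.and_eventually (ev_gt ν)).exists
  refine hA _ (f ν).2 _ (f ν').2 (fun h => ?_) ⟨r, h7.trans (h1 ν).1, h8.trans (h1 ν').1⟩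
  exact h10.ne (hf (Subtype.ext h))

theorem ccc_cd (hC : Lad C) : CCC (Cd C g) := fun _ hA => ccc_cd' hC hA

end Pool.Agent.Helper126.Sus.Names
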