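import Mathlib
import Pool.Agent.Helper126.Sus.Names

/-!
# The uniformizing functions
-/

namespace Pool.Agent.Helper126.Sus.Uni

open Cardinal Filter Pool.Agent.Helper126.Sus.Forc Pool.Agent.Helper126.Sus.Tree
  Pool.Agent.Helper126.Sus.Poset Pool.Agent.Helper126.Sus.Ext Pool.Agent.Helper126.Sus.Om
  Pool.Agent.Helper126.Sus.Dense Pool.Agent.Helper126.Sus.Prom Pool.Agent.Helper126.Sus.Names

set_option linter.unusedSectionVars false

variable {J L : Type} {C : K1 → Set K1} {g : L → Nm J L} [LinearOrder J] [WellFoundedLT J]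
  [NoMaxOrder J] [Nonempty J] {hC : Lad C}

/-- the condition knows its node -/
def Dc (r : Iter (ST g hC)) : Prop := nN r.fst.1 false r.snd

theorem wL_of_iter {r s : Iter (ST g hC)} (h : r ≤ s) (hr : Dc r) (hs : Dc s) :
    wL r.fst.1 false s.snd r.snd := wL_of_le h.2 (le_nN h.1 hs) hr

theorem wL_iter {r s : Iter (ST g hC)} (h : r ≤ s) (hr : Dc r) {u : Node}
    (hu : wL s.fst.1 false u s.snd) (hu' : nN s.fst.1 false u) : wL r.fst.1 false u r.snd := by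
  have hs : Dc s := by
    rcases hu with h1 | h1
    · show nN s.fst.1 false s.snd
      rw [← h1]; exact hu'
    · exact (s.fst.bv.ft false).nr h1
  exact wL_trans r.fst.bv (le_wL h.1 hu) (wL_of_iter h hr hs)

theorem exists_up (r : Iter (ST g hC)) (hr : Dc r) (μ : K1) : ∃ r' ≤ r, μ < r'.snd.1 ∧ Dc r' ∧
    Bx r'.fst r.fst := by
  obtain ⟨κ, hκ⟩ := exists_sup (S := {μ, r.snd.1}) (by simp)
  obtain ⟨q, h1, y, h2, h3, h4, h5, h6⟩ := exists_above r.fst false hr (μ := κ) (hκ _ (by simp))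
  exact ⟨⟨q, y⟩, iter_mk_le h1.1 (Or.inr ((h6 _).2 (Or.inl rfl))), by
    show μ < y.1
    rw [h2]; exact hκ _ (by simp), h4, h1⟩

def UN (g : L → Nm J L) (hC : Lad C) (j : J) (β : L) (t : Node) : Set (Iter (ST g hC)) :=
  {r | ∃ t' s', Atom.pm j β t' s' ∈ r.fst.1 ∧ wL r.fst.1 true t t' ∧ wL r.fst.1 false s' r.snd}

def FN (g : L → Nm J L) (hC : Lad C) (j : J) (β : L) (t : Node) (k : ℕ) : Set (Iter (ST g hC)) :=
  {r | ∃ u, Atom.ph j β u t k ∈ r.fst.1 ∧ wL r.fst.1 false u r.snd}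

theorem U_down {j : J} {β : L} {t : Node} {r s : Iter (ST g hC)} (hs : s ∈ UN g hC j β t)
    (h : r ≤ s) (hr : Dc r) : r ∈ UN g hC j β t := by
  obtain ⟨t', s', h1, h2, h3⟩ := hs
  exact ⟨t', s', (le_cl h.1 j β).pm h1, le_wL h.1 h2, wL_iter h hr h3 ((s.fst.cv j β).nd h1).2.1⟩

theorem F_down {j : J} {β : L} {t : Node} {k : ℕ} {r s : Iter (ST g hC)}
    (hs : s ∈ FN g hC j β t k) (h : r ≤ s) (hr : Dc r) : r ∈ FN g hC j β t k := by
  obtain ⟨u, h1, h2⟩ := hs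
  exact ⟨u, (le_cl h.1 j β).ph h1, wL_iter h hr h2 ((s.fst.cv j β).ph h1).1⟩

theorem key_U {j : J} {β : L} {t : Node} {r : Iter (ST g hC)} (h : r ∈ meets (UN g hC j β t)) :
    ∃ r' ≤ r, r' ∈ UN g hC j β t ∧ Dc r' := by
  obtain ⟨r1, h1, s, h2, h3⟩ := h r le_rfl
  obtain ⟨r2, h4, _, _, h5⟩ := iter_nd r1
  exact ⟨r2, h4.trans h1, U_down h2 (h4.trans h3) h5, h5⟩

theorem key_F {j : J} {β : L} {t : Node} {k : ℕ} {r : Iter (ST g hC)}
    (h : r ∈ meets (FN g hC j β t k)) : ∃ r' ≤ r, r' ∈ FN g hC j β t k ∧ Dc r' := by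
  obtain ⟨r1, h1, s, h2, h3⟩ := h r le_rfl
  obtain ⟨r2, h4, _, _, h5⟩ := iter_nd r1
  exact ⟨r2, h4.trans h1, F_down h2 (h4.trans h3) h5, h5⟩

/-- the name of the order of the special tree -/
abbrev ltT (g : L → Nm J L) (hC : Lad C) : Node → Node → Set (Iter (ST g hC)) :=
  ltQ (Iter.fst : Iter (ST g hC) → Cd C g) true

theorem isSubtree {j : J} {β : L} (hok : OK (g β) (Data C g j)) (r : Iter (ST g hC)) :
    r ∈ IsSubtree (ltT g hC) Prod.fst (UN g hC j β) := by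
  refine ⟨mem_fex.2 fun q hq => ?_, fun x y => mem_fimp.2 ?_, fun x => mem_fimp.2 ?_⟩
  · obtain ⟨q1, h1, _, _, h2⟩ := iter_nd q
    obtain ⟨b, _⟩ := exists_min
    obtain ⟨α, hα, _⟩ := exists_limit b
    obtain ⟨q2, h3, h4, h5, _⟩ := exists_up q1 h2 ((g β).δ α)
    obtain ⟨q3, h6, t2, s2, h7, h8, h9⟩ := exists_pm_new hC q2.fst hok h5 hα h4.le
    have h10 : (⟨q3, q2.snd⟩ : Iter (ST g hC)) ≤ q2 := iter_mk_le h6 (Or.inl rfl)
    exact ⟨⟨q3, q2.snd⟩, h10.trans (h3.trans h1), t2, meets_of_mem ⟨t2, s2, h9, Or.inl rfl, h8⟩⟩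
  · rintro q hq ⟨h1, h2⟩
    obtain ⟨q1, hq1, h3⟩ := key_lt proj_fst h1
    obtain ⟨q2, hq2, ⟨t', s', h4, h5, h6⟩, h7⟩ := key_U (meets_down h2 hq1)
    exact ⟨q2, hq2.trans hq1, meets_of_mem ⟨t', s', h4,
      wL_trans q2.fst.bv (Or.inr (le_lL hq2.1 h3)) h5, h6⟩⟩
  · intro q hq h1
    refine ⟨q, le_rfl, fun μ => mem_fex.2 fun q' hq' => ?_⟩
    obtain ⟨q1, hq1, ⟨t', s', h4, h5, h6⟩, h7⟩ := key_U (meets_down h1 hq')
    obtain ⟨κ, hκ⟩ := exists_sup (S := {μ, t'.1}) (by simp)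
    obtain ⟨α, hα, hκα⟩ := exists_limit κ
    obtain ⟨q2, h8, h9, h10, h11⟩ := exists_up q1 h7 ((g β).δ α)
    have h12 : wL q2.fst.1 false s' q2.snd := wL_iter h8 h10 h6 ((q1.fst.cv j β).nd h4).2.1
    obtain ⟨q3, h13, t2, s2, h14, h15, h16, h17⟩ := exists_pm_up hC q2.fst (h11.pm.2 h4) h12 hα
      ((hκ _ (by simp)).trans hκα) h9.le
    have h18 : (⟨q3, q2.snd⟩ : Iter (ST g hC)) ≤ q2 := iter_mk_le h13 (Or.inl rfl)
    refine ⟨⟨q3, q2.snd⟩, h18.trans (h8.trans hq1), t2, ?_, meets_of_mem ?_, meets_of_mem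
      ⟨t2, s2, h17, Or.inl rfl, h16⟩⟩
    · show μ < t2.1
      rw [h14]; exact (hκ _ (by simp)).trans hκα
    · show lL q3.1 true x t2
      rcases le_wL (h13.trans h8.1) h5 with h | h
      · rw [h]; exact h15
      · exact (q3.bv.ft true).tr h h15

theorem isFun {j : J} {β : L} (r : Iter (ST g hC)) :
    r ∈ fall fun x => fimp (meets (UN g hC j β x))
        (fand (fex fun k => meets (FN g hC j β x k))
          (fall fun k => fall fun l =>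
            fimp (fand (meets (FN g hC j β x k)) (meets (FN g hC j β x l)))
              (fground (k = l)))) := by
  refine fun x => mem_fimp.2 fun q hq h1 => ⟨q, le_rfl, mem_fex.2 fun q' hq' => ?_,
    fun k l => mem_fimp.2 ?_⟩
  · obtain ⟨q1, hq1, ⟨t', s', h4, h5, h6⟩, h7⟩ := key_U (meets_down h1 hq')
    obtain ⟨q2, h8, h9, h10, h11⟩ := exists_up q1 h7 x.1
    have hx : nN q2.fst.1 true x := le_nN h8.1 (wL_nN q1.fst.bv h5 ((q1.fst.cv j β).nd h4).1)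
    obtain ⟨q3, h12, u, h13, h14⟩ := exists_wpred q2.fst h10 h9.le
    obtain ⟨q4, h15, k, h16⟩ := exists_ph q3 j β (u := u) (v := x)
      (wL_nN q3.bv h13 (le_nN h12.1 h10)) (le_nN h12.1 hx) h14
    have h17 : (⟨q4, q2.snd⟩ : Iter (ST g hC)) ≤ q2 := iter_mk_le (h15.1.trans h12.1) (Or.inl rfl)
    exact ⟨⟨q4, q2.snd⟩, h17.trans (h8.trans hq1), k, meets_of_mem ⟨u, h16, le_wL h15.1 h13⟩⟩
  · rintro q' hq' ⟨h2, h3⟩
    obtain ⟨q1, hq1, h4, h5⟩ := key_F h2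
    obtain ⟨q2, hq2, h6, h7⟩ := key_F (meets_down h3 hq1)
    obtain ⟨u, h8, h9⟩ := F_down h4 hq2 h7
    obtain ⟨u', h10, h11⟩ := h6
    have hc := q2.fst.cv j β
    have e1 := (hc.ph h8).2.2
    have e2 := (hc.ph h10).2.2
    have e3 : u = u' := wL_eq q2.fst.bv (wL_cmp q2.fst.bv h9 h11 (e1.trans e2.symm).le)
      (e2.trans e1.symm).le
    subst e3
    exact ⟨q2, hq2.trans hq1, hc.fn h8 h10⟩

/-- the name `g β` captures the colouring `f` below `r0` -/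
structure Cap (r0 : Iter (ST g hC)) (f : K1 → K1 → ℕ → Set (Iter (ST g hC))) (j : J) (β : L) :
    Prop where
  ok : OK (g β) (Data C g j)
  dec : ∀ {α ξ k s} {r : Iter (ST g hC)}, Order.IsSuccLimit α → ξ ∈ C α → r ≤ r0 → Dc r →
    nN r.fst.1 false s → wL r.fst.1 false s r.snd → s.1 = (g β).δ α → r ∈ meets (f α ξ k) →
    ∃ e ∈ (g β).N s α ξ k, cc (Data C g j) r.fst.1 e

theorem isUnif {r0 : Iter (ST g hC)} {f : K1 → K1 → ℕ → Set (Iter (ST g hC))} {j : J} {β : L}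
    (h : Cap r0 f j β) (hf : r0 ∈ IsColouring C f) {r : Iter (ST g hC)} (hr : r ≤ r0) :
    r ∈ IsUniformization C (ltT g hC) Prod.fst f (UN g hC j β) (FN g hC j β) := by
  refine ⟨isSubtree h.ok r, isFun r, fun y hy => mem_fimp.2 fun q hq h1 => ⟨q, le_rfl,
    mem_fex.2 fun q' hq' => ?_⟩⟩
  have hy : Order.IsSuccLimit y.1 := hy
  obtain ⟨q1, hq1, ⟨t', s', h4, h5, h6⟩, h7⟩ := key_U (meets_down h1 hq')
  obtain ⟨q2, h8, s1, h9, h10⟩ : ∃ q2 ≤ q1.fst, ∃ s1, wL q2.1 false s1 q1.snd ∧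
      Atom.pm j β y s1 ∈ q2.1 := by
    rcases h5 with h5 | h5
    · exact ⟨q1.fst, le_rfl, s', h6, by rw [h5]; exact h4⟩
    · obtain ⟨q2, h8, s1, h9, h10⟩ := exists_pm_down hC q1.fst h4 h5 hy
      exact ⟨q2, h8, s1, wL_trans q2.bv h9 (le_wL h8 h6), h10⟩
  have h11 : (⟨q2, q1.snd⟩ : Iter (ST g hC)) ≤ q1 := iter_mk_le h8 (Or.inl rfl)
  classical
  refine ⟨⟨q2, q1.snd⟩, h11.trans hq1, (fin_node q2.1 false).toFinset.image Prod.fst,
    fun ξ hξ x => mem_fimp.2 ?_⟩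
  rintro q3 hq3 ⟨hx, h12⟩
  have hx : x.1 = ξ := hx
  obtain ⟨r4, hr4, h13⟩ := key_lt proj_fst h12
  refine ⟨r4, hr4, fun k => mem_fimp.2 fun q5 hq5 h14 => ?_⟩
  obtain ⟨q6, hq6, h15, h16⟩ := key_F h14
  have h60 : q6 ≤ r0 := hq6.trans (hq5.trans (hr4.trans (hq3.trans (h11.trans (hq1.trans
    (hq'.trans (hq.trans hr)))))))
  obtain ⟨q7, hq7, k', h17⟩ := mem_fex.1 (hf y.1 ξ ⟨hy, hξ.1⟩).1 q6 h60
  obtain ⟨q8, hq8, _, _, h18⟩ := iter_nd q7
  have h86 : q8 ≤ q6 := hq8.trans hq7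
  obtain ⟨u, h19, h20⟩ := F_down h15 h86 h18
  have hle : q8 ≤ (⟨q2, q1.snd⟩ : Iter (ST g hC)) :=
    h86.trans (hq6.trans (hq5.trans (hr4.trans hq3)))
  have hle' : q8.fst ≤ q2 := hle.1
  have hnd := (q2.cv j β).nd h10
  have h21 : wL q8.fst.1 false s1 q8.snd := wL_iter hle h18 h9 hnd.2.1
  obtain ⟨e, he, hce⟩ := h.dec hy hξ.1 (h86.trans h60) h18 (le_nN hle' hnd.2.1) h21 hnd.2.2.2
    (meets_down h17 hq8)
  have huv := ((q8.fst.cv j β).ph h19).2.2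
  have hus : u.1 < s1.1 := by
    rw [huv, hx, hnd.2.2.2]
    exact (hC.lt hy hξ.1).trans_le (h.ok.le _)
  have h22 : lL q8.fst.1 false u s1 := by
    rcases wL_cmp q8.fst.bv h20 h21 hus.le with h | h
    · exact absurd hus (by rw [h]; exact lt_irrefl _)
    · exact h
  have h23 : k = k' := by
    refine (le_cl hle' j β).pr h10 h19 ?_ h22
      (le_lL ((h86.trans (hq6.trans hq5)).1) h13) (by rw [huv, hx]; exact hξ.1) k' e ?_ hce
    · rintro ⟨k1, hk1⟩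
      apply hξ.2
      refine Finset.mem_image.2 ⟨u, (Set.Finite.mem_toFinset _).2 ((q2.cv j β).ph hk1).1, ?_⟩
      rw [huv, hx]
    · rw [huv, hx]; exact he
  rw [h23]
  exact ⟨q8, h86.trans hq6, meets_down h17 hq8⟩

end Pool.Agent.Helper126.Sus.Uni
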