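import Mathlib
import Pool.Agent.Helper126.Sus.Uni
import Pool.Agent.Helper126.Lam.Arith

/-!
# Bookkeeping
-/

namespace Pool.Agent.Helper126.Sus.Book

open Cardinal Filter Pool.Agent.Helper126.Sus.Forc Pool.Agent.Helper126.Sus.Tree
  Pool.Agent.Helper126.Sus.Poset Pool.Agent.Helper126.Sus.Ext Pool.Agent.Helper126.Sus.Om
  Pool.Agent.Helper126.Sus.Dense Pool.Agent.Helper126.Sus.Prom Pool.Agent.Helper126.Sus.Amal2
  Pool.Agent.Helper126.Sus.Amal4 Pool.Agent.Helper126.Sus.Names Pool.Agent.Helper126.Sus.Uni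

set_option linter.unusedSectionVars false

/-- inside every set there is a countable set such that each member of the set is compatible
with one of them -/
theorem exists_antichain {P : Type} [Preorder P] (hP : CCC P) (D : Set P) :
    ∃ A ⊆ D, A.Countable ∧ ∀ p ∈ D, ∃ a ∈ A, ∃ s, s ≤ a ∧ s ≤ p := by
  obtain ⟨A, hA⟩ := zorn_subset {A : Set P | A ⊆ D ∧ ∀ a ∈ A, ∀ b ∈ A,
      a ≠ b → ¬ ∃ s, s ≤ a ∧ s ≤ b}
    (by
      intro c hc hchain
      refine ⟨⋃₀ c, ⟨Set.sUnion_subset fun s hs => (hc hs).1, ?_⟩,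
        fun s hs => Set.subset_sUnion_of_mem hs⟩
      rintro a ⟨s, hs, ha⟩ b ⟨t, ht, hb⟩ hab
      rcases hchain.total hs ht with h | h
      · exact (hc ht).2 a (h ha) b hb hab
      · exact (hc hs).2 a ha b (h hb) hab)
  refine ⟨A, hA.prop.1, hP A hA.prop.2, ?_⟩
  intro p hp
  by_contra hcon
  push Not at hcon
  have hpA : p ∉ A := fun hpA => hcon p hpA p le_rfl le_rfl
  have hmem : insert p A ∈ {A : Set P | A ⊆ D ∧ ∀ a ∈ A, ∀ b ∈ A,
      a ≠ b → ¬ ∃ s, s ≤ a ∧ s ≤ b} := by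
    refine ⟨Set.insert_subset hp hA.prop.1, ?_⟩
    rintro a (rfl | ha) b (rfl | hb) hne ⟨s, h1, h2⟩
    · exact hne rfl
    · exact absurd h1 (hcon b hb s h2)
    · exact absurd h2 (hcon a ha s h1)
    · exact hA.prop.2 a ha b hb hne ⟨s, h1, h2⟩
  exact hpA (hA.le_of_ge hmem (Set.subset_insert p A) (Set.mem_insert p A))

variable {J L : Type} {C : K1 → Set K1} {g : L → Nm J L} [LinearOrder J] [WellFoundedLT J]

/-- a representative valid below `j`, as a condition -/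
theorem exists_cd {j : J} {r : Rep J L} (hr : r ∈ (Data C g j).V) : ∃ r' : Cd C g, r'.1 = r := by
  rw [mem_V] at hr
  refine ⟨⟨r, hr.1.1, fun i β => ?_⟩, rfl⟩
  by_cases hi : i < j
  · exact hr.1.2 i hi β
  · exact CV_none (fun h => hi (hr.2 _ h)) (fun h => hi (hr.2 _ h))

theorem le_of_bel {j : J} {r a : Cd C g} (h : Lb C g j r.1 a.1) (ha : ∀ c ∈ a.1, bel j c) :
    r ≤ a := by
  refine ⟨h.1, fun i β => ?_⟩
  by_cases hi : i < j
  · exact h.2 i hi β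
  · refine CLe_none ?_
    rintro (⟨u, v, k, h1⟩ | ⟨t, s, h1⟩)
    · exact hi (ha _ h1)
    · exact hi (ha _ h1)

theorem mk_K1 : #K1 = ℵ_ 1 := by
  show #((ℵ_ 1).ord.ToType) = _
  rw [mk_toType, card_ord]

/-- the stages occurring in at most `ℵ₁` many countable sets of conditions are bounded -/
theorem exists_bel (hcof : ∀ S : Set J, #S ≤ ℵ_ 1 → ∃ b, ∀ s ∈ S, s < b) {X : Type}
    (hX : #X ≤ ℵ_ 1) (M : X → Set (Cd C g)) (hM : ∀ x, (M x).Countable) :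
    ∃ j : J, ∀ x, ∀ m ∈ M x, ∀ c ∈ m.1, bel j c := by
  classical
  have h0 : ℵ₀ ≤ ℵ_ 1 := aleph0_le_aleph 1
  obtain ⟨b, hb⟩ := hcof (⋃ x : X, ⋃ m ∈ M x, {i | ∃ β, occ m.1 i β}) (by
    refine (mk_iUnion_le_sum_mk).trans ?_
    refine (Cardinal.sum_le_sum _ (fun _ => ℵ₀) fun x => ?_).trans ?_
    · refine Cardinal.le_aleph0_iff_set_countable.2 ((hM x).biUnion fun m _ => ?_)
      refine Set.Finite.countable ?_
      refine (((m.1.finite_toSet.image key).preimage (f := Sum.inr)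
        (Sum.inr_injective.injOn)).image Prod.fst).subset ?_
      rintro i ⟨β, ⟨u, v, k, h⟩ | ⟨t, s, h⟩⟩
      · exact ⟨(i, β), ⟨_, h, rfl⟩, rfl⟩
      · exact ⟨(i, β), ⟨_, h, rfl⟩, rfl⟩
    · rw [Cardinal.sum_const']
      exact (mul_le_mul' hX h0).trans (mul_eq_self h0).le)
  refine ⟨b, fun x m hm c hc => ?_⟩
  have key : ∀ i β, occ m.1 i β → i < b := fun i β h =>
    hb i (Set.mem_iUnion.2 ⟨x, Set.mem_iUnion₂.2 ⟨m, hm, β, h⟩⟩)
  cases c with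
  | nd => trivial
  | lt => trivial
  | ph i β u v k => exact key i β (Or.inl ⟨u, v, k, hc⟩)
  | pm i β t s => exact key i β (Or.inr ⟨t, s, hc⟩)

variable [NoMaxOrder J] [Nonempty J] {hC : Lad C}

theorem colouring_down {P : Type} [Preorder P] {f : K1 → K1 → ℕ → Set P} {p q : P}
    (h : p ∈ IsColouring C f) (hq : q ≤ p) : q ∈ IsColouring C f :=
  fun α ξ hξ => ⟨fex_down (h α ξ hξ).1 hq, fun k l => fimp_down ((h α ξ hξ).2 k l) hq⟩

theorem exists_cap (hcof : ∀ S : Set J, #S ≤ ℵ_ 1 → ∃ b, ∀ s ∈ S, s < b)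
    (hg : ∀ n : Nm J L, (∀ s α ξ k, (n.N s α ξ k).Countable) → ∃ β, g β = n)
    {r0 : Iter (ST g hC)} (hr0 : Dc r0) {f : K1 → K1 → ℕ → Set (Iter (ST g hC))}
    (hf : r0 ∈ IsColouring C f) : ∃ j β, Cap r0 f j β := by
  classical
  have hfn : ∀ {α ξ k k'} {r : Iter (ST g hC)}, Order.IsSuccLimit α → ξ ∈ C α → r ≤ r0 →
      r ∈ meets (f α ξ k) → r ∈ meets (f α ξ k') → k = k' := by
    intro α ξ k k' r hα hξ hr h1 h2
    obtain ⟨_, _, h⟩ := mem_fimp.1 ((hf α ξ ⟨hα, hξ⟩).2 k k') r hr ⟨h1, h2⟩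
    exact h
  -- countable maximal antichains of the iteration
  choose A hA1 hA2 hA3 using fun (α ξ : K1) => exists_antichain (ccc_iter (g := g) (hC := hC))
    {r : Iter (ST g hC) | r ≤ r0 ∧ Dc r ∧ ∃ k, r ∈ meets (f α ξ k)}
  let S : K1 → Set K1 := fun α => insert α (insert r0.snd.1
    {l | ∃ α' ∈ Set.Iic α, ∃ ξ ∈ Set.Iic α, ∃ a ∈ A α' ξ, a.snd.1 = l})
  have hS : ∀ α, (S α).Countable := by
    intro α
    refine Set.Countable.insert _ (Set.Countable.insert _ ?_)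
    have : {l | ∃ α' ∈ Set.Iic α, ∃ ξ ∈ Set.Iic α, ∃ a ∈ A α' ξ, a.snd.1 = l} =
        ⋃ α' ∈ Set.Iic α, ⋃ ξ ∈ Set.Iic α, (fun a : Iter (ST g hC) => a.snd.1) '' A α' ξ := by
      ext l
      simp only [Set.mem_iUnion, Set.mem_image, Set.mem_ofPred_eq, exists_prop]
    rw [this]
    exact (countable_Iic α).biUnion fun α' _ => (countable_Iic α).biUnion fun ξ _ =>
      (hA2 α' ξ).image _
  have hSm : ∀ α α', α ≤ α' → S α ⊆ insert α (S α') := by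
    rintro α α' h l (h1 | h1 | ⟨α1, h1, ξ, h2, a, ha, h3⟩)
    · exact Or.inl h1
    · exact Or.inr (Or.inr (Or.inl h1))
    · exact Or.inr (Or.inr (Or.inr ⟨α1, le_trans h1 h, ξ, le_trans h2 h, a, ha, h3⟩))
  let B : K1 → Set K1 := fun α => {u | ∀ s ∈ S α, s < u}
  have hB : ∀ α, (B α).Nonempty := fun α => exists_bound _ (hS α)
  let δ : K1 → K1 := fun α => (wellFounded_lt (α := K1)).min (B α) (hB α)
  have hδ : ∀ α, ∀ s ∈ S α, s < δ α := fun α => (wellFounded_lt (α := K1)).min_mem (B α) (hB α)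
  have hδα : ∀ α, α < δ α := fun α => hδ α α (Or.inl rfl)
  have hδm : ∀ α α', α ≤ α' → δ α ≤ δ α' := by
    intro α α' h
    refine not_lt.1 ((wellFounded_lt (α := K1)).not_lt_min (B α) ?_)
    intro s hs
    rcases hSm α α' h hs with h1 | h1
    · rw [h1]; exact h.trans_lt (hδα α')
    · exact hδ α' s h1
  -- countable maximal antichains for the nodes
  choose M hM1 hM2 hM3 using fun (x : Node × K1 × K1) => exists_antichain (ccc_cd (g := g) hC)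
    {e : Cd C g | (⟨e, x.1⟩ : Iter (ST g hC)) ≤ r0 ∧
      ∃ k, (⟨e, x.1⟩ : Iter (ST g hC)) ∈ meets (f x.2.1 x.2.2 k)}
  have hX : #(Node × K1 × K1) ≤ ℵ_ 1 := by
    have h0 : ℵ₀ ≤ ℵ_ 1 := aleph0_le_aleph 1
    simp only [mk_prod, lift_id, mk_K1, mk_nat]
    refine (mul_le_mul' ((mul_le_mul' le_rfl h0).trans (mul_eq_self h0).le)
      (mul_eq_self h0).le).trans (mul_eq_self h0).le
  obtain ⟨j, hj⟩ := exists_bel hcof hX M hM2
  let N : Node → K1 → K1 → ℕ → Set (Rep J L) := fun s α ξ k =>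
    {e | (Order.IsSuccLimit α ∧ ξ ∈ C α) ∧ ∃ m ∈ M (s, α, ξ),
      (⟨m, s⟩ : Iter (ST g hC)) ∈ meets (f α ξ k) ∧ m.1 = e}
  obtain ⟨β, hβ⟩ := hg ⟨δ, N⟩ (fun s α ξ k => by
    refine ((hM2 (s, α, ξ)).image Subtype.val).mono ?_
    rintro e ⟨_, m, hm, _, rfl⟩
    exact ⟨m, hm, rfl⟩)
  refine ⟨j, β, ⟨?_, ?_⟩⟩
  · rw [hβ]
    refine ⟨fun α => (hδα α).le, fun {α α'} h => hδm α α' h, ?_⟩
    rintro s α ξ k k' r e e' hr ⟨⟨hα, hξ⟩, m, hm, hmk, rfl⟩ ⟨_, m', hm', hmk', rfl⟩ h1 h2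
    obtain ⟨r', rfl⟩ := exists_cd hr
    rw [le_D] at h1 h2
    have h3 : r' ≤ m := le_of_bel h1 (hj _ m hm)
    have h4 : r' ≤ m' := le_of_bel h2 (hj _ m' hm')
    have h5 : (⟨r', s⟩ : Iter (ST g hC)) ≤ ⟨m, s⟩ := iter_mk_le h3 (Or.inl rfl)
    have h6 : (⟨r', s⟩ : Iter (ST g hC)) ≤ ⟨m', s⟩ := iter_mk_le h4 (Or.inl rfl)
    exact hfn hα hξ (h5.trans (hM1 _ hm).1) (meets_down hmk h5) (meets_down hmk' h6)
  · intro α ξ k s r hα hξ hr hrd hs hsr hsl hrk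
    rw [hβ] at hsl ⊢
    have hsl : s.1 = δ α := hsl
    have hx0 : wL r.fst.1 false r0.snd r.snd := wL_of_iter hr hrd hr0
    have hx0s : wL r.fst.1 false r0.snd s := by
      refine wL_cmp r.fst.bv hx0 hsr ?_
      rw [hsl]
      exact (hδ α _ (Or.inr (Or.inl rfl))).le
    have h1 : (⟨r.fst, s⟩ : Iter (ST g hC)) ≤ r0 := iter_mk_le hr.1 hx0s
    obtain ⟨q1, hq1, k1, h2⟩ := mem_fex.1 (hf α ξ ⟨hα, hξ⟩).1 _ h1
    obtain ⟨q2, hq2, _, _, h3⟩ := iter_nd q1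
    obtain ⟨a, ha, q3, hq3, hq3'⟩ := hA3 α ξ q2 ⟨hq2.trans (hq1.trans h1), h3, k1,
      meets_down h2 hq2⟩
    obtain ⟨ha1, ha2, k2, ha3⟩ := hA1 α ξ ha
    obtain ⟨q4, hq4, _, _, h4⟩ := iter_nd q3
    have h5 : wL q4.fst.1 false a.snd q4.snd := wL_of_iter (hq4.trans hq3) h4 ha2
    have h6 : q4 ≤ (⟨r.fst, s⟩ : Iter (ST g hC)) := hq4.trans (hq3'.trans (hq2.trans hq1))
    have h7 : wL q4.fst.1 false s q4.snd := wL_of_iter h6 h4 hs
    have h8 : wL q4.fst.1 false a.snd s := by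
      refine wL_cmp q4.fst.bv h5 h7 ?_
      rw [hsl]
      exact (hδ α _ (Or.inr (Or.inr ⟨α, Set.mem_Iic.2 le_rfl, ξ,
        Set.mem_Iic.2 (hC.lt hα hξ).le, a, ha, rfl⟩))).le
    have h9 : (⟨q4.fst, s⟩ : Iter (ST g hC)) ≤ a := iter_mk_le (hq4.trans hq3).1 h8
    obtain ⟨m, hm, t, ht1, ht2⟩ := hM3 (s, α, ξ) q4.fst ⟨h9.trans ha1, k2, meets_down ha3 h9⟩
    obtain ⟨hm1, k4, hm2⟩ := hM1 (s, α, ξ) hm
    have h10 : t ≤ r.fst := ht2.trans h6.1
    have h11 : (⟨t, r.snd⟩ : Iter (ST g hC)) ≤ r := iter_mk_le h10 (Or.inl rfl)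
    have h12 : (⟨t, r.snd⟩ : Iter (ST g hC)) ≤ ⟨m, s⟩ := iter_mk_le ht1 (le_wL h10 hsr)
    have h13 : k = k4 := hfn hα hξ (h11.trans hr) (meets_down hrk h11) (meets_down hm2 h12)
    refine ⟨m.1, ⟨⟨hα, hξ⟩, m, hm, ?_, rfl⟩, cc_of_le h10 ht1 j⟩
    rw [h13]; exact hm2

theorem unif (hcof : ∀ S : Set J, #S ≤ ℵ_ 1 → ∃ b, ∀ s ∈ S, s < b)
    (hg : ∀ n : Nm J L, (∀ s α ξ k, (n.N s α ξ k).Countable) → ∃ β, g β = n)
    (r : Iter (ST g hC)) : r ∈ Unif C (ltT g hC) Prod.fst := by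
  intro f
  refine mem_fimp.2 fun q hq hf => ⟨q, le_rfl, mem_fex.2 fun q' hq' => ?_⟩
  obtain ⟨r0, h1, _, _, h2⟩ := iter_nd q'
  have hf' := colouring_down hf (h1.trans hq')
  obtain ⟨j, β, h3⟩ := exists_cap hcof hg h2 hf'
  exact ⟨r0, h1, UN g hC j β, mem_fex.2 fun q1 hq1 => ⟨q1, le_rfl, FN g hC j β, isUnif h3 hf' hq1⟩⟩

/-! ### the bookkeeping function -/

theorem mk_atom_le {J L : Type} {lam : Cardinal.{0}} (hlam : ℵ_ 1 ≤ lam) (hL : #L ≤ lam)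
    (hJ : #J ≤ lam) : #(Atom J L) ≤ lam := by
  have h0 : ℵ₀ ≤ lam := (aleph0_le_aleph 1).trans hlam
  let f : Atom J L → ((Bool × Node × ℕ) ⊕ (Bool × Node × Node)) ⊕
      ((J × L × Node × Node × ℕ) ⊕ (J × L × Node × Node)) := fun τ => match τ with
    | .nd σ x a => Sum.inl (Sum.inl (σ, x, a))
    | .lt σ x y => Sum.inl (Sum.inr (σ, x, y))
    | .ph i β u v k => Sum.inr (Sum.inl (i, β, u, v, k))
    | .pm i β t s => Sum.inr (Sum.inr (i, β, t, s))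
  have hf : Function.Injective f := by
    intro τ τ' h
    cases τ <;> cases τ' <;> simp_all [f]
  refine (mk_le_of_injective hf).trans ?_
  have hK : #K1 ≤ lam := by rw [mk_K1]; exact hlam
  have hprod : ∀ {X Y : Type}, #X ≤ lam → #Y ≤ lam → #(X × Y) ≤ lam := by
    intro X Y hX hY
    rw [mk_prod, lift_id, lift_id]
    exact (mul_le_mul' hX hY).trans (mul_eq_self h0).le
  have hsum : ∀ {X Y : Type}, #X ≤ lam → #Y ≤ lam → #(X ⊕ Y) ≤ lam := by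
    intro X Y hX hY
    rw [mk_sum, lift_id, lift_id]
    exact (add_le_add hX hY).trans (add_eq_self h0).le
  have hNat : #ℕ ≤ lam := by rw [mk_nat]; exact h0
  have hBool : #Bool ≤ lam := (mk_le_aleph0).trans h0
  have hN : #Node ≤ lam := hprod hK hNat
  exact hsum (hsum (hprod hBool (hprod hN hNat)) (hprod hBool (hprod hN hN)))
    (hsum (hprod hJ (hprod hL (hprod hN (hprod hN hNat)))) (hprod hJ (hprod hL (hprod hN hN))))

theorem mk_rep_le {J L : Type} {lam : Cardinal.{0}} (hlam : ℵ_ 1 ≤ lam) (hL : #L ≤ lam)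
    (hJ : #J ≤ lam) : #(Rep J L) ≤ lam := by
  have h0 : ℵ₀ ≤ lam := (aleph0_le_aleph 1).trans hlam
  rcases finite_or_infinite (Atom J L) with h | h
  · have : Finite (Finset (Atom J L)) := inferInstance
    exact ((mk_lt_aleph0).le).trans h0
  · show #(Finset (Atom J L)) ≤ lam
    rw [mk_finset_of_infinite]
    exact mk_atom_le hlam hL hJ

theorem exists_book (J : Type) (hJ : ℵ_ 1 ≤ #J) :
    ∃ g : Set J → Nm J (Set J),
      ∀ n : Nm J (Set J), (∀ s α ξ k, (n.N s α ξ k).Countable) → ∃ β, g β = n := by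
  have hJ0 : ℵ₀ ≤ #J := (aleph0_le_aleph 1).trans hJ
  have hlam : ℵ_ 1 ≤ 2 ^ #J := hJ.trans (cantor _).le
  have h0 : ℵ₀ ≤ 2 ^ #J := (aleph0_le_aleph 1).trans hlam
  have hR : #(Rep J (Set J)) ≤ 2 ^ #J := mk_rep_le hlam (by rw [mk_set]) (cantor _).le
  have hO : #(Option (Rep J (Set J))) ≤ 2 ^ #J := by
    rw [mk_option]
    exact (add_le_add hR (one_le_aleph0.trans h0)).trans (add_eq_self h0).le
  have hK : #K1 ≤ #J := by rw [mk_K1]; exact hJ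
  have hNat : #ℕ ≤ #J := by rw [mk_nat]; exact hJ0
  have hNd : #Node ≤ #J := by
    rw [mk_prod, lift_id, lift_id]
    exact (mul_le_mul' hK hNat).trans (mul_eq_self hJ0).le
  have h1 : #(K1 → K1) ≤ 2 ^ #J :=
    Pool.Agent.Helper126.Lam.Arith.mk_arrow_le hJ0 hK (hK.trans (cantor _).le)
  have h2 : #(Node → K1 → K1 → ℕ → ℕ → Option (Rep J (Set J))) ≤ 2 ^ #J :=
    Pool.Agent.Helper126.Lam.Arith.mk_arrow_le hJ0 hNd
      (Pool.Agent.Helper126.Lam.Arith.mk_arrow_le hJ0 hK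
        (Pool.Agent.Helper126.Lam.Arith.mk_arrow_le hJ0 hK
          (Pool.Agent.Helper126.Lam.Arith.mk_arrow_le hJ0 hNat
            (Pool.Agent.Helper126.Lam.Arith.mk_arrow_le hJ0 hNat hO))))
  have hNm : #((K1 → K1) × (Node → K1 → K1 → ℕ → ℕ → Option (Rep J (Set J)))) ≤ #(Set J) := by
    rw [mk_set, mk_prod, lift_id, lift_id]
    exact (mul_le_mul' h1 h2).trans (mul_eq_self h0).le
  obtain ⟨F⟩ := hNm
  have hne : Nonempty ((K1 → K1) × (Node → K1 → K1 → ℕ → ℕ → Option (Rep J (Set J)))) :=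
    ⟨⟨id, fun _ _ _ _ _ => none⟩⟩
  let f := Function.invFun F
  have hf : ∀ N, f (F N) = N := Function.leftInverse_invFun F.injective
  refine ⟨fun β => ⟨(f β).1, fun s α ξ k => {r | ∃ n, (f β).2 s α ξ k n = some r}⟩,
    fun n hN => ?_⟩
  choose h hh using fun s α ξ k => Pool.Agent.Helper126.Lam.Arith.exists_enum (hN s α ξ k)
  refine ⟨F (n.δ, h), ?_⟩
  obtain ⟨δ, N⟩ := n
  simp only [Nm.mk.injEq]
  refine ⟨by rw [hf], ?_⟩
  funext s α ξ k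
  ext r
  rw [hh s α ξ k r]
  simp only [hf, Set.mem_ofPred_eq]

end Pool.Agent.Helper126.Sus.Book
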